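import Pool.Agent.Lib.MP_f73729_an.Exact

/-! Numbers with best approximation denominators of exact growth `q_{n+1} ≍ q_n^τ`. -/

set_option autoImplicit false

namespace Pool.Agent.Lib.MP_f73729_an

/-- the partial quotient -/
noncomputable def pq (τ : ℝ) (q : ℕ) : ℕ := ⌈(q : ℝ) ^ (τ - 1)⌉₊

/-- numerators and denominators of two consecutive convergents -/
noncomputable def cst (τ : ℝ) : ℕ → (ℕ × ℕ) × (ℕ × ℕ)
  | 0 => ((0, 1), (1, 2))
  | n + 1 => ((cst τ n).2, (pq τ (cst τ n).2.2 * (cst τ n).2.1 + (cst τ n).1.1,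
      pq τ (cst τ n).2.2 * (cst τ n).2.2 + (cst τ n).1.2))

theorem exists_seq (τ : ℝ) : ∃ P Q : ℕ → ℕ, P 0 = 0 ∧ Q 0 = 1 ∧ P 1 = 1 ∧ Q 1 = 2 ∧
    (∀ n, P (n + 2) = pq τ (Q (n + 1)) * P (n + 1) + P n) ∧
    ∀ n, Q (n + 2) = pq τ (Q (n + 1)) * Q (n + 1) + Q n :=
  ⟨fun n => (cst τ n).1.1, fun n => (cst τ n).1.2, rfl, rfl, rfl, rfl, fun _ => rfl, fun _ => rfl⟩

theorem pq_pos (τ : ℝ) (q : ℕ) (hq : 1 ≤ q) : 1 ≤ pq τ q := by
  rw [pq, Nat.one_le_ceil_iff]
  have : (0 : ℝ) < q := by exact_mod_cast hq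
  positivity

theorem exists_regular (τ : ℝ) (hτ : 1 ≤ τ) : ∃ α : ℝ, Irrational α ∧
    ∀ q : ℕ, IsRec α q → 1 / 4 / (q : ℝ) ^ τ ≤ ‖q • (α : T)‖ ∧
      ‖q • (α : T)‖ ≤ 1 / (q : ℝ) ^ τ := by
  classical
  obtain ⟨P, Q, hP0, hQ0, hP1, hQ1, hP, hQ⟩ := exists_seq τ
  -- positivity and growth
  have hQpos2 : ∀ n, 1 ≤ Q n ∧ Q n < Q (n + 1) := by
    intro n
    induction n with
    | zero => rw [hQ0, hQ1]; omega
    | succ n ih =>
      have h1 : 1 ≤ Q (n + 1) := by omega
      refine ⟨h1, ?_⟩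
      rw [hQ n]
      have h2 := pq_pos τ (Q (n + 1)) h1
      nlinarith [ih.1]
  have hQpos : ∀ n, 1 ≤ Q n := fun n => (hQpos2 n).1
  have hQlt : ∀ n, Q n < Q (n + 1) := fun n => (hQpos2 n).2
  have hQge : ∀ n, n + 1 ≤ Q n := by
    intro n
    induction n with
    | zero => rw [hQ0]
    | succ n ih => have := hQlt n; omega
  have hQr : ∀ n, (0 : ℝ) < Q n := fun n => by exact_mod_cast hQpos n
  -- determinants
  have hdet : ∀ n, (P (n + 1) : ℝ) * Q n - P n * Q (n + 1) = (-1) ^ n := by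
    intro n
    induction n with
    | zero => rw [hP0, hQ0, hP1, hQ1]; norm_num
    | succ n ih =>
      rw [hP n, hQ n, pow_succ, ← ih]
      push_cast
      ring
  have hdet2 : ∀ n, (P (n + 2) : ℝ) * Q n - P n * Q (n + 2) =
      pq τ (Q (n + 1)) * (-1) ^ n := by
    intro n
    rw [hP n, hQ n, ← hdet n]
    push_cast
    ring
  -- the number
  set E : ℕ → ℝ := fun k => P (2 * k) / Q (2 * k) with hE
  set O : ℕ → ℝ := fun k => P (2 * k + 1) / Q (2 * k + 1) with hO
  have hEO : ∀ k, E k < O k := by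
    intro k
    rw [hE, hO]
    simp only
    rw [div_lt_div_iff₀ (hQr _) (hQr _)]
    have h1 := hdet (2 * k)
    rw [pow_mul, neg_one_sq, one_pow] at h1
    linarith
  have hEm : StrictMono E := by
    apply strictMono_nat_of_lt_succ
    intro k
    rw [hE]
    simp only
    rw [div_lt_div_iff₀ (hQr _) (hQr _)]
    have h1 := hdet2 (2 * k)
    rw [pow_mul, neg_one_sq, one_pow, mul_one] at h1
    have h2 : (0 : ℝ) < pq τ (Q (2 * k + 1)) := by exact_mod_cast pq_pos τ _ (hQpos _)
    have h3 : 2 * (k + 1) = 2 * k + 2 := by ring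
    rw [h3]
    linarith
  have hOm : StrictAnti O := by
    apply strictAnti_nat_of_succ_lt
    intro k
    rw [hO]
    simp only
    rw [div_lt_div_iff₀ (hQr _) (hQr _)]
    have h1 := hdet2 (2 * k + 1)
    rw [pow_succ, pow_mul, neg_one_sq, one_pow] at h1
    have h2 : (0 : ℝ) < pq τ (Q (2 * k + 1 + 1)) := by exact_mod_cast pq_pos τ _ (hQpos _)
    have h3 : 2 * (k + 1) + 1 = 2 * k + 1 + 2 := by ring
    rw [h3]
    linarith
  have hEO' : ∀ k j, E k < O j := fun k j =>
    (hEm.monotone (le_max_left k j)).trans_lt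
      ((hEO (max k j)).trans_le (hOm.antitone (le_max_right k j)))
  have hbdd : BddAbove (Set.range E) := ⟨O 0, by rintro _ ⟨k, rfl⟩; exact (hEO' k 0).le⟩
  set α : ℝ := sSup (Set.range E) with hα
  have hEα : ∀ k, E k < α := fun k =>
    (hEm (Nat.lt_succ_self k)).trans_le (le_csSup hbdd ⟨k + 1, rfl⟩)
  have hαO : ∀ j, α < O j := fun j =>
    (csSup_le (Set.range_nonempty E) (by rintro _ ⟨k, rfl⟩; exact (hEO' k (j + 1)).le)).trans_lt
      (hOm (Nat.lt_succ_self j))
  -- the errors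
  set e : ℕ → ℝ := fun n => (-1) ^ n * (Q n * α - P n) with he
  have hepos : ∀ n, 0 < e n := by
    intro n
    rcases Nat.even_or_odd' n with ⟨k, h1 | h1⟩
    · have h2 := hEα k
      rw [hE] at h2
      simp only at h2
      rw [div_lt_iff₀ (hQr _)] at h2
      rw [he]
      simp only
      rw [h1, pow_mul, neg_one_sq, one_pow]
      linarith
    · have h2 := hαO k
      rw [hO] at h2
      simp only at h2
      rw [lt_div_iff₀ (hQr _)] at h2
      rw [he]
      simp only
      rw [h1, pow_succ, pow_mul, neg_one_sq, one_pow]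
      linarith
  have herec : ∀ n, e n = pq τ (Q (n + 1)) * e (n + 1) + e (n + 2) := by
    intro n
    rw [he]
    simp only
    rw [hP n, hQ n, pow_succ, pow_succ]
    push_cast
    ring
  have hedec : ∀ n, e (n + 1) < e n := by
    intro n
    rw [herec n]
    have h1 : (1 : ℝ) ≤ pq τ (Q (n + 1)) := by exact_mod_cast pq_pos τ _ (hQpos _)
    nlinarith [hepos (n + 1), hepos (n + 2)]
  have hsq : ∀ n : ℕ, ((-1 : ℝ) ^ n) * (-1) ^ n = 1 := by
    intro n
    rw [← mul_pow]
    norm_num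
  have hone : ∀ n, Q (n + 1) * e n + Q n * e (n + 1) = 1 := by
    intro n
    rw [he]
    simp only
    rw [pow_succ]
    have h1 := hdet n
    have h2 := hsq n
    linear_combination (-1) ^ n * h1 + h2
  have hup : ∀ n, e n ≤ 1 / Q (n + 1) := by
    intro n
    rw [le_div_iff₀ (hQr _)]
    have h1 := hone n
    have h2 : 0 < (Q n : ℝ) * e (n + 1) := mul_pos (hQr _) (hepos _)
    linarith
  have hlo : ∀ n, 1 / ((Q (n + 1) : ℝ) + Q n) ≤ e n := by
    intro n
    rw [div_le_iff₀ (by have := hQr n; have := hQr (n + 1); linarith)]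
    have h1 := hone n
    have h2 : (Q n : ℝ) * e (n + 1) ≤ Q n * e n :=
      mul_le_mul_of_nonneg_left (hedec n).le (hQr _).le
    linarith
  -- growth of the denominators
  have hgrow : ∀ n, (Q n : ℝ) ^ τ ≤ Q (n + 1) ∧ (Q (n + 1) : ℝ) ≤ 3 * (Q n : ℝ) ^ τ := by
    intro n
    cases n with
    | zero =>
      rw [hQ0, hQ1]
      norm_num
    | succ n =>
      have hq0 := hQr (n + 1)
      have hq1 : (1 : ℝ) ≤ Q (n + 1) := by exact_mod_cast hQpos (n + 1)
      have h1 : (Q (n + 1) : ℝ) ^ τ = (Q (n + 1) : ℝ) ^ (τ - 1) * Q (n + 1) := by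
        rw [Real.rpow_sub_one hq0.ne']
        field_simp
      have h2 : (Q (n + 1) : ℝ) ^ (τ - 1) ≤ pq τ (Q (n + 1)) := Nat.le_ceil _
      have h3 : (pq τ (Q (n + 1)) : ℝ) ≤ (Q (n + 1) : ℝ) ^ (τ - 1) + 1 :=
        (Nat.ceil_lt_add_one (by positivity)).le
      have h4 : (Q (n + 1) : ℝ) ≤ (Q (n + 1) : ℝ) ^ τ := by
        calc (Q (n + 1) : ℝ) = (Q (n + 1) : ℝ) ^ (1 : ℝ) := (Real.rpow_one _).symm
          _ ≤ _ := Real.rpow_le_rpow_of_exponent_le hq1 hτ
      have h5 : (Q n : ℝ) ≤ Q (n + 1) := by exact_mod_cast (hQlt n).le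
      have h6 : (0 : ℝ) < Q n := hQr n
      have h7 : (Q (n + 1 + 1) : ℝ) = pq τ (Q (n + 1)) * Q (n + 1) + Q n := by
        rw [hQ n]; push_cast; ring
      rw [h7, h1]
      constructor
      · nlinarith
      · rw [h1] at h4
        nlinarith
  -- lower bound for other multiples
  have hmin : ∀ n m : ℕ, 1 ≤ m → m < Q (n + 1) → ∀ p : ℤ, e n ≤ |(m : ℝ) * α - p| := by
    intro n m hm1 hm2 p
    obtain ⟨s, hs⟩ : ∃ s : ℤ, s = (-1) ^ n := ⟨_, rfl⟩
    have hss : s * s = 1 := by
      rw [hs, ← mul_pow]; norm_num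
    have hsr : (s : ℝ) = (-1) ^ n := by rw [hs]; push_cast; rfl
    have hdetz : (P (n + 1) : ℤ) * Q n - P n * Q (n + 1) = s := by
      have h1 := hdet n
      rw [← hsr] at h1
      exact_mod_cast h1
    set X : ℤ := s * (m * P (n + 1) - p * Q (n + 1)) with hX
    set Y : ℤ := -(s * (m * P n - p * Q n)) with hY
    have hm : (m : ℤ) = X * Q n + Y * Q (n + 1) := by
      rw [hX, hY]
      linear_combination (-(m : ℤ)) * hss - s * m * hdetz
    have hval : (m : ℝ) * α - p = s * (X * e n - Y * e (n + 1)) := by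
      have h1 : (s : ℝ) * s = 1 := by exact_mod_cast hss
      have h2 : e n = s * (Q n * α - P n) := by rw [he, hsr]
      have h3 : e (n + 1) = -(s * (Q (n + 1) * α - P (n + 1))) := by
        rw [he, hsr]
        simp only
        rw [pow_succ]
        ring
      have h4 : (P (n + 1) : ℝ) * Q n - P n * Q (n + 1) = s := by rw [hsr]; exact hdet n
      rw [h2, h3, hX, hY]
      push_cast
      have h5 : (s : ℝ) * s * s = s := by rw [h1, one_mul]
      linear_combination (-(m * α - p) * (s * s + 1)) * h1 - (s * (s * s)) * (m * α - p) * h4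
    have hsabs : |(s : ℝ)| = 1 := by
      rw [hsr, abs_pow, abs_neg, abs_one, one_pow]
    rw [hval, abs_mul, hsabs, one_mul]
    have hQ'z : (0 : ℤ) < Q (n + 1) := by exact_mod_cast hQpos (n + 1)
    have hQz : (0 : ℤ) < Q n := by exact_mod_cast hQpos n
    have hm1z : (1 : ℤ) ≤ m := by exact_mod_cast hm1
    have hm2z : (m : ℤ) < Q (n + 1) := by exact_mod_cast hm2
    have hen := hepos n
    have hen1 := hepos (n + 1)
    rcases lt_trichotomy Y 0 with hYn | hY0 | hYp
    · have hX1 : 1 ≤ X := by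
        by_contra hc
        push Not at hc
        have h1 : X ≤ 0 := by omega
        nlinarith
      have h1 : (1 : ℝ) ≤ X := by exact_mod_cast hX1
      have h2 : (Y : ℝ) < 0 := by exact_mod_cast hYn
      refine le_trans ?_ (le_abs_self _)
      nlinarith
    · have hX0 : X ≠ 0 := by
        intro h0
        rw [h0, hY0] at hm
        omega
      rw [hY0, Int.cast_zero, zero_mul, sub_zero, abs_mul, abs_of_pos hen]
      have h1 : (1 : ℝ) ≤ |(X : ℝ)| := by
        rw [← Int.cast_abs]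
        exact_mod_cast Int.one_le_abs hX0
      nlinarith
    · have hX1 : X ≤ -1 := by
        by_contra hc
        push Not at hc
        have h1 : 0 ≤ X := by omega
        nlinarith
      have h1 : (X : ℝ) ≤ -1 := by exact_mod_cast hX1
      have h2 : (0 : ℝ) < Y := by exact_mod_cast hYp
      refine le_trans ?_ (neg_le_abs _)
      nlinarith
  have hnorm_lo : ∀ n m : ℕ, 1 ≤ m → m < Q (n + 1) → e n ≤ ‖m • (α : T)‖ := by
    intro n m h1 h2
    rw [norm_nsmul_coe]
    exact hmin n m h1 h2 _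
  have hnorm_up : ∀ n, ‖Q n • (α : T)‖ ≤ e n := by
    intro n
    refine (norm_nsmul_sub_le α (Q n) (P n)).trans (le_of_eq ?_)
    have h1 : |e n| = |(Q n : ℝ) * α - P n| := by
      rw [he]
      simp only
      rw [abs_mul, abs_pow, abs_neg, abs_one, one_pow, one_mul]
    rw [abs_of_pos (hepos n)] at h1
    rw [h1]
    push_cast
    rfl
  refine ⟨α, ?_, ?_⟩
  · -- irrationality
    rintro ⟨r, hr⟩
    have hd0 : (0 : ℝ) < r.den := by exact_mod_cast r.den_pos
    set n := r.den with hn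
    have h1 : e n < 1 / r.den := by
      refine (hup n).trans_lt ?_
      apply one_div_lt_one_div_of_lt hd0
      have h2 := hQge (n + 1)
      have h3 : n < Q (n + 1) := by omega
      exact_mod_cast h3
    have h2 : |e n| = |(Q n : ℝ) * α - P n| := by
      rw [he]
      simp only
      rw [abs_mul, abs_pow, abs_neg, abs_one, one_pow, one_mul]
    have h3 : (Q n : ℝ) * α - P n = ((Q n * r.num - P n * r.den : ℤ) : ℝ) / r.den := by
      rw [← hr, Rat.cast_def]
      push_cast
      field_simp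
    have h4 : (Q n * r.num - P n * r.den : ℤ) ≠ 0 := by
      intro h0
      rw [h0] at h3
      rw [h3, Int.cast_zero, zero_div, abs_zero, abs_of_pos (hepos n)] at h2
      exact (hepos n).ne' h2
    have h5 : (1 : ℝ) ≤ |((Q n * r.num - P n * r.den : ℤ) : ℝ)| := by
      rw [← Int.cast_abs]
      exact_mod_cast Int.one_le_abs h4
    rw [h3, abs_div, abs_of_pos hd0, abs_of_pos (hepos n)] at h2
    rw [h2, div_lt_div_iff_of_pos_right hd0] at h1
    linarith
  · intro q hq
    have hex : ∃ n, q < Q (n + 1) := ⟨q, by have := hQge (q + 1); omega⟩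
    obtain ⟨n, hn1, hn2⟩ : ∃ n, Q n ≤ q ∧ q < Q (n + 1) := by
      refine ⟨Nat.find hex, ?_, Nat.find_spec hex⟩
      by_contra hc
      push Not at hc
      rcases Nat.eq_zero_or_pos (Nat.find hex) with h0 | h0
      · rw [h0, hQ0] at hc
        have := hq.1
        omega
      · apply Nat.find_min hex (m := Nat.find hex - 1) (by omega)
        have : Nat.find hex - 1 + 1 = Nat.find hex := by omega
        rw [this]
        exact hc
    have hqn : q = Q n := by
      rcases Nat.eq_or_lt_of_le hn1 with h1 | h1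
      · exact h1.symm
      · exfalso
        have h2 := hq.2 (Q n) (hQpos n) h1
        have h3 := hnorm_lo n q hq.1 hn2
        have h4 := hnorm_up n
        linarith
    have hg := hgrow n
    have hq0 := hQr n
    have hq1 : (1 : ℝ) ≤ Q n := by exact_mod_cast hQpos n
    have hqτ : (0 : ℝ) < (Q n : ℝ) ^ τ := by positivity
    rw [hqn]
    constructor
    · refine le_trans ?_ (hnorm_lo n (Q n) (hQpos n) (hQlt n))
      refine le_trans ?_ (hlo n)
      have h4 : (Q n : ℝ) ≤ (Q n : ℝ) ^ τ := by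
        calc (Q n : ℝ) = (Q n : ℝ) ^ (1 : ℝ) := (Real.rpow_one _).symm
          _ ≤ _ := Real.rpow_le_rpow_of_exponent_le hq1 hτ
      rw [div_div]
      apply one_div_le_one_div_of_le
      · have := hQr (n + 1); linarith
      · linarith [hg.2]
    · refine (hnorm_up n).trans ((hup n).trans ?_)
      exact one_div_le_one_div_of_le hqτ hg.1

end Pool.Agent.Lib.MP_f73729_an
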