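import Pool.Agent.Lib.MP_f73729_an.Hoelder

/-! Records of the distance of `m α` to the nearest integer. -/

set_option autoImplicit false

namespace Pool.Agent.Lib.MP_f73729_an

open Finset Filter Topology

theorem norm_nsmul_coe (α : ℝ) (m : ℕ) :
    ‖m • (α : T)‖ = |(m : ℝ) * α - round ((m : ℝ) * α)| := by
  rw [← AddCircle.coe_nsmul, nsmul_eq_mul, UnitAddCircle.norm_eq]

theorem norm_nsmul_sub_le (α : ℝ) (m : ℕ) (P : ℤ) : ‖m • (α : T)‖ ≤ |(m : ℝ) * α - P| := by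
  rw [norm_nsmul_coe]
  exact round_le _ _

/-- the next record -/
theorem exists_next (α : ℝ) (hα : Irrational α) (q : ℕ) (hq : 1 ≤ q)
    (hrec : ∀ m : ℕ, 1 ≤ m → m < q → ‖q • (α : T)‖ ≤ ‖m • (α : T)‖) :
    ∃ q' : ℕ, q < q' ∧ ‖q' • (α : T)‖ < ‖q • (α : T)‖ ∧ ‖q • (α : T)‖ * q' ≤ 1 ∧
      1 ≤ ‖q • (α : T)‖ * (q + q') ∧
      ∀ z : T, ∃ m < q', ‖z - m • (α : T)‖ ≤ 2 / q' := by
  classical
  set θ := ‖q • (α : T)‖ with hθ
  have hθ0 : 0 < θ := norm_pos_iff.2 (nsmul_coe_ne_zero hα q hq)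
  have hex : ∃ m : ℕ, 1 ≤ m ∧ ‖m • (α : T)‖ < θ := by
    obtain ⟨N, -, h1, h2⟩ := exists_small α θ hθ0 0
    exact ⟨N, h1, h2⟩
  set q' := Nat.find hex with hq'
  obtain ⟨hq'1, hq'2⟩ := Nat.find_spec hex
  rw [← hq'] at hq'1 hq'2
  have hmin : ∀ m : ℕ, 1 ≤ m → m < q' → θ ≤ ‖m • (α : T)‖ := by
    intro m hm hmq
    have := Nat.find_min hex hmq
    push Not at this
    exact this hm
  have hqq' : q < q' := by
    rcases lt_trichotomy q q' with h | h | h
    · exact h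
    · rw [← h] at hq'2; exact absurd hq'2 (lt_irrefl _)
    · exact absurd hq'2 (not_lt.2 (hrec q' hq'1 h))
  have hq0 : (0 : ℝ) < q := by exact_mod_cast hq
  have hq'0 : (0 : ℝ) < q' := by exact_mod_cast hq'1
  have hθq' : θ * q' ≤ 1 := by
    obtain ⟨k, hk0, hkn, hk⟩ := Real.exists_nat_abs_mul_sub_round_le α (n := q' - 1) (by omega)
    have h1 : θ ≤ ‖k • (α : T)‖ := hmin k hk0 (by omega)
    rw [norm_nsmul_coe] at h1
    have h2 : ((q' - 1 : ℕ) : ℝ) + 1 = q' := by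
      rw [Nat.cast_sub (by omega)]; push_cast; ring
    rw [h2] at hk
    have h3 := h1.trans hk
    rwa [le_div_iff₀ hq'0] at h3
  set P : ℤ := round ((q : ℝ) * α) with hP
  set P' : ℤ := round ((q' : ℝ) * α) with hP'
  have hε : |(q : ℝ) * α - P| = θ := (norm_nsmul_coe α q).symm
  have hε' : |(q' : ℝ) * α - P'| = ‖q' • (α : T)‖ := (norm_nsmul_coe α q').symm
  set ε := (q : ℝ) * α - P with hεd
  set ε' := (q' : ℝ) * α - P' with hεd'
  have hε'θ : |ε'| < θ := by rw [hε']; exact hq'2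
  have hdet : ((P * q' - P' * q : ℤ) : ℝ) = ε' * q - ε * q' := by
    rw [hεd, hεd']; push_cast; ring
  have hsum : 1 ≤ θ * (q + q') := by
    have hne : P * q' - P' * q ≠ 0 := by
      intro h0
      rw [h0] at hdet
      have h1 : ε' * q = ε * q' := by
        have : (0 : ℝ) = ε' * q - ε * q' := by simpa using hdet
        linarith
      have h2 : |ε'| * q = θ * q' := by
        have h3 := congrArg abs h1
        rw [abs_mul, abs_mul, abs_of_pos hq0, abs_of_pos hq'0, hε] at h3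
        exact h3
      have h4 : |ε'| * q < θ * q' := by
        have h5 : (q : ℝ) < q' := by exact_mod_cast hqq'
        have h6 : |ε'| * q ≤ θ * q := mul_le_mul_of_nonneg_right hε'θ.le hq0.le
        nlinarith
      linarith
    have h1 : (1 : ℝ) ≤ |((P * q' - P' * q : ℤ) : ℝ)| := by
      rw [← Int.cast_abs]
      exact_mod_cast Int.one_le_abs hne
    rw [hdet] at h1
    have h2 : |ε' * q - ε * q'| ≤ |ε'| * q + θ * q' := by
      have h3 := abs_sub (ε' * q) (ε * q')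
      rw [abs_mul, abs_mul, abs_of_pos hq0, abs_of_pos hq'0, hε] at h3
      exact h3
    have h4 : |ε'| * q ≤ θ * q := mul_le_mul_of_nonneg_right hε'θ.le hq0.le
    linarith
  refine ⟨q', hqq', hq'2, hθq', hsum, ?_⟩
  -- coprimality
  have hcop : IsCoprime P' (q' : ℤ) := by
    rw [Int.isCoprime_iff_gcd_eq_one]
    by_contra hg
    set g := Int.gcd P' (q' : ℤ) with hgd
    have hg0 : g ≠ 0 := by
      rw [hgd, Ne, Int.gcd_eq_zero_iff]
      push Not
      intro _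
      exact_mod_cast (by omega : q' ≠ 0)
    have hg2 : 2 ≤ g := by omega
    obtain ⟨P₁, hP₁⟩ : (g : ℤ) ∣ P' := Int.gcd_dvd_left _ _
    obtain ⟨q₁', hq₁'⟩ : (g : ℤ) ∣ (q' : ℤ) := Int.gcd_dvd_right _ _
    have hgpos : (0 : ℤ) < g := by exact_mod_cast (by omega : 0 < g)
    have hq₁'pos : 0 < q₁' := by
      have h1 : (0 : ℤ) < g * q₁' := by rw [← hq₁']; exact_mod_cast hq'1
      exact (pos_iff_pos_of_mul_pos h1).1 hgpos
    obtain ⟨q₁, rfl⟩ := Int.eq_ofNat_of_zero_le hq₁'pos.le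
    have hq₁1 : 1 ≤ q₁ := by exact_mod_cast hq₁'pos
    have hq₁q' : q' = g * q₁ := by exact_mod_cast hq₁'
    have hlt : q₁ < q' := by rw [hq₁q']; nlinarith
    have h1 := hmin q₁ hq₁1 hlt
    have h2 := norm_nsmul_sub_le α q₁ P₁
    have hg' : (0 : ℝ) < g := by exact_mod_cast hgpos
    have h3 : (g : ℝ) * ((q₁ : ℝ) * α - P₁) = ε' := by
      rw [hεd', hP₁, hq₁q']; push_cast; ring
    have h4 : (g : ℝ) * |(q₁ : ℝ) * α - P₁| = |ε'| := by
      rw [← h3, abs_mul, abs_of_pos hg']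
    have h5 : (1 : ℝ) ≤ g := by exact_mod_cast (by omega : 1 ≤ g)
    have h6 : |(q₁ : ℝ) * α - P₁| ≤ |ε'| := by
      rw [← h4]
      exact le_mul_of_one_le_left (abs_nonneg _) h5
    linarith
  intro z
  obtain ⟨s, hs, -⟩ := exists_rep z
  set j : ℤ := round (s * q') with hj
  have hjs : |s * q' - j| ≤ 1 / 2 := abs_sub_round _
  obtain ⟨u, v, huv⟩ := hcop
  -- m = j u mod q'
  set m : ℤ := (j * u) % (q' : ℤ) with hm
  have hq'z : (0 : ℤ) < q' := by exact_mod_cast hq'1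
  have hm0 : 0 ≤ m := Int.emod_nonneg _ hq'z.ne'
  have hmq : m < q' := Int.emod_lt_of_pos _ hq'z
  obtain ⟨m', hm'⟩ := Int.eq_ofNat_of_zero_le hm0
  refine ⟨m', by omega, ?_⟩
  obtain ⟨k, hk⟩ : ∃ k : ℤ, m * P' = j + k * q' := by
    refine ⟨-(j * v) - (j * u / q') * P', ?_⟩
    have h1 : m = j * u - q' * (j * u / q') := by
      rw [hm, Int.emod_def]
    rw [h1]
    linear_combination j * huv
  have hkr : (m' : ℝ) * P' = j + k * q' := by
    have : ((m : ℤ) : ℝ) * P' = j + k * q' := by exact_mod_cast hk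
    rw [hm'] at this
    exact_mod_cast this
  have hrep : z - m' • (α : T) = ((s - m' * α + k : ℝ) : T) := by
    rw [AddCircle.coe_add, AddCircle.coe_sub, hs]
    have h1 : ((k : ℝ) : T) = 0 := by
      rw [AddCircle.coe_eq_zero_iff]
      exact ⟨k, by simp⟩
    rw [h1, add_zero, ← nsmul_eq_mul, AddCircle.coe_nsmul]
  rw [hrep]
  refine (norm_coe_le _).trans ?_
  have h2 : s - m' * α + k = (s * q' - j) / q' - m' * (ε' / q') := by
    have h3 : α = (P' + ε') / q' := by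
      rw [hεd']; field_simp; ring
    field_simp
    have h4 : (q' : ℝ) * α = P' + ε' := by rw [hεd']; ring
    linear_combination (-(m' : ℝ)) * h4 - hkr
  rw [h2]
  have h5 : |(s * q' - j) / q'| ≤ 1 / 2 / q' := by
    rw [abs_div, abs_of_pos hq'0]
    gcongr
  have h6 : |(m' : ℝ) * (ε' / q')| ≤ 1 / q' := by
    rw [abs_mul, abs_div, abs_of_pos hq'0, abs_of_nonneg (by positivity : (0 : ℝ) ≤ m')]
    have h7 : (m' : ℝ) ≤ q' := by
      have : (m' : ℤ) < q' := by rw [hm'] at hmq; exact hmq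
      exact_mod_cast this.le
    have h8 : |ε'| ≤ 1 / q' := by
      rw [le_div_iff₀ hq'0]
      exact le_trans (mul_le_mul_of_nonneg_right hε'θ.le hq'0.le) hθq'
    calc (m' : ℝ) * (|ε'| / q') ≤ q' * (|ε'| / q') := by gcongr
      _ = |ε'| := by field_simp
      _ ≤ _ := h8
  have h9 := abs_sub ((s * q' - j) / q') ((m' : ℝ) * (ε' / q'))
  refine h9.trans ((add_le_add h5 h6).trans ?_)
  rw [← add_div]
  gcongr
  norm_num

/-- every index has a record below it -/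
theorem exists_record (α : ℝ) (q : ℕ) (hq : 1 ≤ q) : ∃ r : ℕ, 1 ≤ r ∧ r ≤ q ∧
    ‖r • (α : T)‖ ≤ ‖q • (α : T)‖ ∧
    ∀ m : ℕ, 1 ≤ m → m < r → ‖r • (α : T)‖ ≤ ‖m • (α : T)‖ := by
  obtain ⟨r, hr, hr'⟩ := Finset.exists_min_image (Finset.Icc 1 q)
    (fun m : ℕ => ‖m • (α : T)‖) ⟨1, by simp; omega⟩
  rw [Finset.mem_Icc] at hr
  refine ⟨r, hr.1, hr.2, hr' q (Finset.mem_Icc.2 ⟨hq, le_rfl⟩), fun m h1 h2 => ?_⟩
  exact hr' m (Finset.mem_Icc.2 ⟨h1, by omega⟩)

end Pool.Agent.Lib.MP_f73729_an
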