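import Pool.Agent.Lib.MP_f73729_an.Prof
import Pool.Agent.Lib.MP_f73729_an.Rec

/-! One component of the cocycle: `f x = ± B (P (x + α) - P x)`. -/

set_option autoImplicit false

namespace Pool.Agent.Lib.MP_f73729_an

open Finset Filter Topology

private theorem perq (q : ℕ) (w : ℝ) : Function.Periodic (fun y : ℝ => pf w (q * y)) 1 := by
  intro y
  have h : (q : ℝ) * (y + 1) = q * y + q * 1 := by ring
  have h2 := (pf_periodic w).nat_mul q (q * y)
  change pf w (q * (y + 1)) = pf w (q * y)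
  rw [h]
  exact h2

private noncomputable def PP (q : ℕ) (w : ℝ) : T → ℝ := (perq q w).lift

private theorem PP_coe (q : ℕ) (w y : ℝ) : PP q w (y : T) = pf w (q * y) :=
  Function.Periodic.lift_coe (perq q w) y

private theorem continuous_PP (q : ℕ) (w : ℝ) : Continuous (PP q w) := by
  have hc : Continuous (fun y : ℝ => pf w (q * y)) := by
    unfold pf
    fun_prop
  exact hc.quotient_liftOn' _

private theorem pf_shift (w y : ℝ) (k : ℤ) : pf w (y + k) = pf w y := by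
  have h := (pf_periodic w).int_mul k y
  rw [mul_one] at h
  exact h

private theorem abs_sub_le_four (w a b : ℝ) : |pf w a - pf w b| ≤ 4 := by
  have h1 := abs_le.1 (abs_pf_le w a)
  have h2 := abs_le.1 (abs_pf_le w b)
  rw [abs_le]
  constructor <;> linarith [h1.1, h1.2, h2.1, h2.2]

theorem exists_comp (α : ℝ) (hα : Irrational α) (γ : ℝ) (hγ : 0 < γ) (hγ1 : γ ≤ 1) (q : ℕ) (hq : 1 ≤ q)
    (B w : ℝ) (hB : 0 < B) (hw : 0 < w) (hw1 : w ≤ 1) : ∃ f : T → ℝ, Continuous f ∧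
      (∀ m : ℕ, S (α : T) f m 0 = B * pf w (m * ‖q • (α : T)‖)) ∧
      (∀ m : ℕ, S (α : T) f m (0 - m • (α : T)) = B * pf w (m * ‖q • (α : T)‖)) ∧
      (∀ (m : ℕ) (x : T), |S (α : T) f m x| ≤ 4 * B) ∧
      (∀ x : T, |f x| ≤ 100 * (B * ‖q • (α : T)‖ / w)) ∧
      ∀ u v : T, |f u - f v| ≤
        200 * (B * ‖q • (α : T)‖ / w * ((q : ℝ) / w) ^ γ) * ‖u - v‖ ^ γ := by
  have hθ := norm_nsmul_coe α q
  obtain ⟨θ, hθd⟩ : ∃ θ, θ = ‖q • (α : T)‖ := ⟨_, rfl⟩
  rw [← hθd] at hθ ⊢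
  obtain ⟨R, hR⟩ : ∃ R : ℤ, R = round ((q : ℝ) * α) := ⟨_, rfl⟩
  obtain ⟨e, he⟩ : ∃ e : ℝ, e = (q : ℝ) * α - R := ⟨_, rfl⟩
  rw [← hR, ← he] at hθ
  have hθ0 : 0 ≤ θ := by rw [hθ]; exact abs_nonneg _
  obtain ⟨sg, hsg, hse⟩ : ∃ sg : ℝ, |sg| = 1 ∧ ∀ m : ℕ, sg * pf w (m * e) = pf w (m * θ) := by
    rcases le_total 0 e with h | h
    · refine ⟨1, by simp, fun m => ?_⟩
      rw [hθ, abs_of_nonneg h, one_mul]
    · refine ⟨-1, by simp, fun m => ?_⟩
      rw [hθ, abs_of_nonpos h]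
      have h1 : (m : ℝ) * -e = -(m * e) := by ring
      rw [h1, pf_neg]
      ring
  have hcoe : ∀ (m : ℕ), m • (α : T) = (((m : ℝ) * α : ℝ) : T) := by
    intro m
    rw [← nsmul_eq_mul, AddCircle.coe_nsmul]
  obtain ⟨f, hf⟩ : ∃ f : T → ℝ, f = fun x => sg * B * (PP q w (x + (α : T)) - PP q w x) := ⟨_, rfl⟩
  have hS : ∀ (m : ℕ) (x : T), S (α : T) f m x = sg * B * (PP q w (x + m • (α : T)) - PP q w x) := by
    intro m x
    unfold S
    rw [hf]
    simp only
    rw [← Finset.mul_sum]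
    congr 1
    have h1 := Finset.sum_range_sub (fun j : ℕ => PP q w (x + j • (α : T))) m
    simp only [zero_smul, add_zero] at h1
    rw [← h1]
    apply Finset.sum_congr rfl
    intro j _
    rw [add_smul, one_smul, ← add_assoc]
  have hP0 : PP q w 0 = 0 := by
    have h1 := PP_coe q w 0
    rw [mul_zero, pf_zero] at h1
    exact h1
  have hPm : ∀ m : ℕ, PP q w (m • (α : T)) = pf w (m * e) := by
    intro m
    rw [hcoe, PP_coe]
    have h1 : (q : ℝ) * (m * α) = m * e + ((m * R : ℤ) : ℝ) := by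
      rw [he]; push_cast; ring
    rw [h1, pf_shift]
  have hPm' : ∀ m : ℕ, PP q w (0 - m • (α : T)) = -pf w (m * e) := by
    intro m
    have h0 : (0 : T) - m • (α : T) = ((-((m : ℝ) * α) : ℝ) : T) := by
      rw [hcoe, zero_sub, AddCircle.coe_neg]
    rw [h0, PP_coe]
    have h1 : (q : ℝ) * -(m * α) = -(m * e) + ((-(m * R) : ℤ) : ℝ) := by
      rw [he]; push_cast; ring
    rw [h1, pf_shift, pf_neg]
  have hfs : ∀ s : ℝ, f (s : T) = sg * B * (pf w (q * s + e) - pf w (q * s)) := by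
    intro s
    rw [hf]
    simp only
    rw [← AddCircle.coe_add, PP_coe, PP_coe]
    have h1 : (q : ℝ) * (s + α) = (q * s + e) + (R : ℝ) := by
      rw [he]; ring
    rw [h1, pf_shift]
  have hsB : |sg * B| = B := by rw [abs_mul, hsg, abs_of_pos hB, one_mul]
  refine ⟨f, ?_, ?_, ?_, ?_, ?_, ?_⟩
  · rw [hf]
    have hc := continuous_PP q w
    fun_prop
  · intro m
    rw [hS, zero_add, hPm, hP0, ← hse m]
    ring
  · intro m
    rw [hS, sub_add_cancel, hP0, hPm', ← hse m]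
    ring
  · intro m x
    rw [hS, abs_mul, hsB, mul_comm]
    apply mul_le_mul_of_nonneg_right _ hB.le
    obtain ⟨s, hs, -⟩ := exists_rep x
    obtain ⟨t, ht, -⟩ := exists_rep (x + m • (α : T))
    rw [← ht, PP_coe, ← hs, PP_coe]
    exact abs_sub_le_four _ _ _
  · intro x
    obtain ⟨s, hs, -⟩ := exists_rep x
    rw [← hs, hfs, abs_mul, hsB]
    have h1 := pf_diff hw (q * s) e
    rw [← hθ] at h1
    calc B * |pf w (q * s + e) - pf w (q * s)| ≤ B * (100 * θ / w) :=
          mul_le_mul_of_nonneg_left h1 hB.le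
      _ = 100 * (B * θ / w) := by ring
  · intro u v
    obtain ⟨r, hr, hrn⟩ := exists_rep (u - v)
    obtain ⟨s, hs, -⟩ := exists_rep v
    have hu : u = ((s + r : ℝ) : T) := by
      rw [AddCircle.coe_add, hs, hr]
      abel
    rw [← hrn, ← hs, hu, hfs, hfs]
    obtain ⟨D, hD⟩ : ∃ D, D = |r| := ⟨_, rfl⟩
    have hD0 : 0 ≤ D := by rw [hD]; exact abs_nonneg _
    rw [← hD]
    have hq0 : (0 : ℝ) < q := by exact_mod_cast hq
    have h1 := pf_diff2 hw hw1 (q * (s + r)) (q * s) e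
    have e1 : |(q : ℝ) * (s + r) - q * s| = q * D := by
      have : (q : ℝ) * (s + r) - q * s = q * r := by ring
      rw [this, abs_mul, abs_of_pos hq0, hD]
    rw [e1, ← hθ] at h1
    have h2 := pf_diff hw (q * (s + r)) e
    have h3 := pf_diff hw (q * s) e
    rw [← hθ] at h2 h3
    have h4 : |(pf w (q * (s + r) + e) - pf w (q * (s + r))) - (pf w (q * s + e) - pf w (q * s))| ≤
        200 * θ / w := by
      have h5 := abs_sub (pf w (q * (s + r) + e) - pf w (q * (s + r)))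
        (pf w (q * s + e) - pf w (q * s))
      calc _ ≤ _ := h5
        _ ≤ 100 * θ / w + 100 * θ / w := add_le_add h2 h3
        _ = 200 * θ / w := by ring
    rw [← mul_sub, abs_mul, hsB]
    obtain ⟨x, hx⟩ : ∃ x, x = (q : ℝ) / w * D := ⟨_, rfl⟩
    have hx0 : 0 ≤ x := by rw [hx]; positivity
    have hxγ : ((q : ℝ) / w) ^ γ * D ^ γ = x ^ γ := by
      rw [hx, Real.mul_rpow (by positivity) hD0]
    have hgoal : 200 * (B * θ / w * ((q : ℝ) / w) ^ γ) * D ^ γ = 200 * (B * θ / w) * x ^ γ := by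
      rw [← hxγ]; ring
    rw [hgoal]
    have hc0 : 0 ≤ B * θ / w := by positivity
    rcases le_total x 1 with h | h
    · have h5 : x ≤ x ^ γ := Real.self_le_rpow_of_le_one hx0 h hγ1
      calc B * |(pf w (q * (s + r) + e) - pf w (q * (s + r))) - (pf w (q * s + e) - pf w (q * s))|
          ≤ B * (100 * θ * (q * D) / w ^ 2) := mul_le_mul_of_nonneg_left h1 hB.le
        _ = 100 * (B * θ / w) * x := by
            rw [hx]; field_simp
        _ ≤ 200 * (B * θ / w) * x ^ γ := by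
            apply mul_le_mul _ h5 hx0 (by positivity)
            linarith
    · have h5 : 1 ≤ x ^ γ := Real.one_le_rpow h hγ.le
      calc B * |(pf w (q * (s + r) + e) - pf w (q * (s + r))) - (pf w (q * s + e) - pf w (q * s))|
          ≤ B * (200 * θ / w) := mul_le_mul_of_nonneg_left h4 hB.le
        _ = 200 * (B * θ / w) * 1 := by ring
        _ ≤ 200 * (B * θ / w) * x ^ γ := by
            apply mul_le_mul_of_nonneg_left h5 (by positivity)

end Pool.Agent.Lib.MP_f73729_an
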