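import Mathlib

/-! Sums over lacunary sets. -/

set_option autoImplicit false

namespace Pool.Agent.Lib.MP_f73729_an

open Finset Filter Topology

theorem lac_sum (s : ℝ) (hs : 0 < s) : ∃ K : ℝ, 0 < K ∧ ∀ F : Finset ℕ, (∀ i ∈ F, 1 ≤ i) →
    (∀ i ∈ F, ∀ j ∈ F, i < j → 3 * i < j) → ∑ i ∈ F, (i : ℝ) ^ (-s) ≤ K := by
  set r : ℝ := (3 : ℝ) ^ (-s) with hr
  have hr0 : 0 < r := by positivity
  have hr1 : r < 1 := Real.rpow_lt_one_of_one_lt_of_neg (by norm_num) (by linarith)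
  have hsum : Summable (fun k : ℕ => r ^ k) := summable_geometric_of_lt_one hr0.le hr1
  refine ⟨∑' k : ℕ, r ^ k, ?_, ?_⟩
  · rw [tsum_geometric_of_lt_one hr0.le hr1]
    exact inv_pos.2 (by linarith)
  · intro F h1 h2
    have hinj : Set.InjOn (Nat.log 3) (F : Set ℕ) := by
      intro i hi j hj hij
      rw [Finset.mem_coe] at hi hj
      by_contra hne
      rcases Nat.lt_or_gt_of_ne hne with h | h
      · have h3 := h2 i hi j hj h
        have h4 : Nat.log 3 (3 * i) ≤ Nat.log 3 j := Nat.log_mono_right h3.le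
        rw [mul_comm, Nat.log_mul_base (by norm_num) (by have := h1 i hi; omega)] at h4
        omega
      · have h3 := h2 j hj i hi h
        have h4 : Nat.log 3 (3 * j) ≤ Nat.log 3 i := Nat.log_mono_right h3.le
        rw [mul_comm, Nat.log_mul_base (by norm_num) (by have := h1 j hj; omega)] at h4
        omega
    calc ∑ i ∈ F, (i : ℝ) ^ (-s) ≤ ∑ i ∈ F, r ^ (Nat.log 3 i) := by
          apply Finset.sum_le_sum
          intro i hi
          have h3 : 3 ^ Nat.log 3 i ≤ i := Nat.pow_log_le_self 3 (by have := h1 i hi; omega)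
          have h4 : ((3 : ℝ) ^ Nat.log 3 i) ≤ i := by exact_mod_cast h3
          have h5 : (i : ℝ) ^ (-s) ≤ ((3 : ℝ) ^ Nat.log 3 i) ^ (-s) :=
            Real.rpow_le_rpow_of_nonpos (by positivity) h4 (by linarith)
          refine h5.trans (le_of_eq ?_)
          rw [hr, ← Real.rpow_natCast, ← Real.rpow_mul (by norm_num), ← Real.rpow_natCast,
            ← Real.rpow_mul (by norm_num), mul_comm]
      _ = ∑ k ∈ F.image (Nat.log 3), r ^ k := by
          rw [Finset.sum_image]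
          exact fun i hi j hj => hinj hi hj
      _ ≤ ∑' k : ℕ, r ^ k := hsum.sum_le_tsum _ (fun k _ => by positivity)

/-- A family supported on a lacunary set and decaying like a power is summable. -/
theorem summable_of_lac (s K : ℝ) (hK : ∀ F : Finset ℕ, (∀ i ∈ F, 1 ≤ i) →
    (∀ i ∈ F, ∀ j ∈ F, i < j → 3 * i < j) → ∑ i ∈ F, (i : ℝ) ^ (-s) ≤ K)
    (N : Set ℕ) (hN1 : ∀ i ∈ N, 1 ≤ i) (hN2 : ∀ i ∈ N, ∀ j ∈ N, i < j → 3 * i < j)
    (f : ℕ → ℝ) (C : ℝ) (hC : 0 ≤ C) (hf0 : ∀ i, 0 ≤ f i) (hf1 : ∀ i, i ∉ N → f i = 0)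
    (hf2 : ∀ i ∈ N, f i ≤ C * (i : ℝ) ^ (-s)) : Summable f ∧ ∑' i, f i ≤ C * K := by
  classical
  have hb : ∀ F : Finset ℕ, ∑ i ∈ F, f i ≤ C * K := by
    intro F
    have h1 : ∑ i ∈ F, f i = ∑ i ∈ F.filter (· ∈ N), f i := by
      rw [Finset.sum_filter]
      apply Finset.sum_congr rfl
      intro i _
      split_ifs with h
      · rfl
      · exact hf1 i h
    rw [h1]
    calc ∑ i ∈ F.filter (· ∈ N), f i ≤ ∑ i ∈ F.filter (· ∈ N), C * (i : ℝ) ^ (-s) :=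
          Finset.sum_le_sum fun i hi => hf2 i (Finset.mem_filter.1 hi).2
      _ = C * ∑ i ∈ F.filter (· ∈ N), (i : ℝ) ^ (-s) := by rw [Finset.mul_sum]
      _ ≤ C * K := by
          apply mul_le_mul_of_nonneg_left _ hC
          apply hK
          · intro i hi; exact hN1 i (Finset.mem_filter.1 hi).2
          · intro i hi j hj; exact hN2 i (Finset.mem_filter.1 hi).2 j (Finset.mem_filter.1 hj).2
  exact ⟨summable_of_sum_le hf0 hb, Real.tsum_le_of_sum_le hf0 hb⟩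

/-- coefficient bound -/
theorem coef_le (ε : ℝ) (hε : 0 < ε) : ∃ C : ℝ, 0 < C ∧ ∀ i : ℕ, 1 ≤ i →
    Real.log (i + 1) / i ≤ C * (i : ℝ) ^ (-(1 - ε)) := by
  refine ⟨2 ^ ε / ε, by positivity, ?_⟩
  intro i hi
  have hi0 : (0 : ℝ) < i := by exact_mod_cast hi
  have hi1 : (1 : ℝ) ≤ i := by exact_mod_cast hi
  have h1 : Real.log (i + 1) ≤ ((i : ℝ) + 1) ^ ε / ε :=
    Real.log_le_rpow_div (by positivity) hε
  have h2 : ((i : ℝ) + 1) ^ ε ≤ (2 * i) ^ ε :=
    Real.rpow_le_rpow (by positivity) (by linarith) hε.le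
  have h3 : (2 * (i : ℝ)) ^ ε = 2 ^ ε * (i : ℝ) ^ ε :=
    Real.mul_rpow (by norm_num) hi0.le
  have h4 : (i : ℝ) ^ (-(1 - ε)) = (i : ℝ) ^ ε / i := by
    rw [show -(1 - ε) = ε - 1 by ring, Real.rpow_sub hi0, Real.rpow_one]
  rw [h4]
  calc Real.log (i + 1) / i ≤ (((i : ℝ) + 1) ^ ε / ε) / i := by gcongr
    _ ≤ ((2 ^ ε * (i : ℝ) ^ ε) / ε) / i := by rw [← h3]; gcongr
    _ = 2 ^ ε / ε * ((i : ℝ) ^ ε / i) := by ring

end Pool.Agent.Lib.MP_f73729_an
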