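import Pool.Agent.Lib.MP_f73729_an.Cyl
import Pool.Agent.Lib.MP_f73729_an.Lac

/-! Construction of the cocycle. -/

set_option autoImplicit false

namespace Pool.Agent.Lib.MP_f73729_an

open Finset Filter Topology

/-- tent function of half width `w` -/
noncomputable def tent (w : ℝ) (u : T) : ℝ := max 0 (1 - ‖u‖ / w)

theorem tent_nonneg (w : ℝ) (u : T) : 0 ≤ tent w u := le_max_left _ _

theorem tent_le_one {w : ℝ} (hw : 0 < w) (u : T) : tent w u ≤ 1 := by
  unfold tent
  apply max_le zero_le_one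
  have : 0 ≤ ‖u‖ / w := by positivity
  linarith

theorem tent_zero (w : ℝ) : tent w 0 = 1 := by simp [tent]

theorem tent_neg (w : ℝ) (u : T) : tent w (-u) = tent w u := by simp [tent]

theorem tent_eq_zero {w : ℝ} (hw : 0 < w) {u : T} (hu : w ≤ ‖u‖) : tent w u = 0 := by
  unfold tent
  rw [max_eq_left]
  have : 1 ≤ ‖u‖ / w := by rwa [le_div_iff₀ hw, one_mul]
  linarith

theorem tent_sub_le {w : ℝ} (hw : 0 < w) (u v : T) :
    |tent w u - tent w v| ≤ ‖u - v‖ / w := by
  have h1 : 1 - ‖u‖ / w - (1 - ‖v‖ / w) = -((‖u‖ - ‖v‖) / w) := by ring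
  have h0 : |(1 - ‖u‖ / w) - (1 - ‖v‖ / w)| ≤ ‖u - v‖ / w := by
    rw [h1, abs_neg, abs_div, abs_of_pos hw]
    gcongr
    exact abs_norm_sub_norm_le u v
  have h2 := abs_max_sub_max_le_abs (1 - ‖u‖ / w) (1 - ‖v‖ / w) 0
  unfold tent
  rw [max_comm 0 (1 - ‖u‖ / w), max_comm 0 (1 - ‖v‖ / w)]
  exact h2.trans h0

theorem tent_sub_le_one {w : ℝ} (hw : 0 < w) (u v : T) : |tent w u - tent w v| ≤ 1 := by
  have h1 := tent_nonneg w u
  have h2 := tent_nonneg w v
  have h3 := tent_le_one hw u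
  have h4 := tent_le_one hw v
  rw [abs_le]
  constructor <;> linarith

theorem continuous_tent (w : ℝ) : Continuous (tent w) := by
  unfold tent
  fun_prop

/-- widths -/
structure Wid (α : T) (w : ℕ → ℝ) : Prop where
  pos : ∀ i, 1 ≤ i → 0 < w i
  le : ∀ i, 1 ≤ i → ∀ m : ℕ, 1 ≤ m → m ≤ 4 * i → 2 * w i ≤ ‖m • α‖
  eq : ∀ i, 1 ≤ i → ∃ m : ℕ, 1 ≤ m ∧ m ≤ 4 * i ∧ 2 * w i = ‖m • α‖

theorem exists_wid (α : T) (hα : ∀ m : ℕ, 1 ≤ m → m • α ≠ 0) : ∃ w, Wid α w := by
  have h : ∀ i : ℕ, ∃ w : ℝ, 1 ≤ i → 0 < w ∧ (∀ m : ℕ, 1 ≤ m → m ≤ 4 * i → 2 * w ≤ ‖m • α‖) ∧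
      ∃ m : ℕ, 1 ≤ m ∧ m ≤ 4 * i ∧ 2 * w = ‖m • α‖ := by
    intro i
    by_cases hi : 1 ≤ i
    · obtain ⟨m, hm, hm'⟩ := Finset.exists_min_image (Finset.Icc 1 (4 * i))
        (fun m : ℕ => ‖m • α‖) ⟨1, by simp; omega⟩
      rw [Finset.mem_Icc] at hm
      refine ⟨‖m • α‖ / 2, fun _ => ⟨half_pos (norm_pos_iff.2 (hα m hm.1)), ?_, ?_⟩⟩
      · intro k hk1 hk2
        rw [mul_div_cancel₀ _ two_ne_zero]
        exact hm' k (Finset.mem_Icc.2 ⟨hk1, hk2⟩)
      · exact ⟨m, hm.1, hm.2, mul_div_cancel₀ _ two_ne_zero⟩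
    · exact ⟨0, fun h => absurd h hi⟩
  choose w hw using h
  exact ⟨w, ⟨fun i hi => (hw i hi).1, fun i hi => (hw i hi).2.1, fun i hi => (hw i hi).2.2⟩⟩

theorem Wid.anti {α : T} {w : ℕ → ℝ} (h : Wid α w) {i j : ℕ} (hi : 1 ≤ i) (hij : i ≤ j) :
    w j ≤ w i := by
  obtain ⟨m, h1, h2, h3⟩ := h.eq i hi
  have h4 := h.le j (hi.trans hij) m h1 (by omega)
  linarith

theorem Wid.far {α : T} {w : ℕ → ℝ} (h : Wid α w) {i k : ℕ} (hi : 1 ≤ i) (hk : 1 ≤ k)
    (hk' : ‖k • α‖ < 2 * w i) : 4 * i < k := by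
  by_contra hcon
  have := h.le i hi k hk (by omega)
  linarith

/-- the indices whose bumps see `u` -/
def hits (α : T) (w : ℕ → ℝ) (u : T) : Set ℕ :=
  {i | 1 ≤ i ∧ (‖u - i • α‖ < w i ∨ ‖u + i • α‖ < w i)}

theorem nsmul_sub_nsmul (α : T) {i j : ℕ} (h : i ≤ j) : (j - i) • α = j • α - i • α := by
  rw [eq_sub_iff_add_eq, ← add_smul]
  congr 1
  omega

theorem Wid.lac {α : T} {w : ℕ → ℝ} (h : Wid α w) (u : T) :
    ∀ i ∈ hits α w u, ∀ j ∈ hits α w u, i < j → 3 * i < j := by
  rintro i ⟨hi, hi'⟩ j ⟨hj, hj'⟩ hij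
  have hw := h.anti hi hij.le
  rcases hi' with hi' | hi' <;> rcases hj' with hj' | hj'
  · have h1 : ‖(j - i) • α‖ < 2 * w i := by
      rw [nsmul_sub_nsmul α hij.le]
      have h2 : j • α - i • α = (u - i • α) - (u - j • α) := by abel
      rw [h2]
      exact (norm_sub_le _ _).trans_lt (by linarith)
    have := h.far hi (by omega) h1
    omega
  · have h1 : ‖(j + i) • α‖ < 2 * w i := by
      have h2 : (j + i) • α = (u + j • α) - (u - i • α) := by rw [add_smul]; abel
      rw [h2]
      exact (norm_sub_le _ _).trans_lt (by linarith)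
    have := h.far hi (by omega) h1
    omega
  · have h1 : ‖(j + i) • α‖ < 2 * w i := by
      have h2 : (j + i) • α = (u + i • α) - (u - j • α) := by rw [add_smul]; abel
      rw [h2]
      exact (norm_sub_le _ _).trans_lt (by linarith)
    have := h.far hi (by omega) h1
    omega
  · have h1 : ‖(j - i) • α‖ < 2 * w i := by
      rw [nsmul_sub_nsmul α hij.le]
      have h2 : j • α - i • α = (u + j • α) - (u + i • α) := by abel
      rw [h2]
      exact (norm_sub_le _ _).trans_lt (by linarith)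
    have := h.far hi (by omega) h1
    omega

/-- coefficients -/
noncomputable def coef (i : ℕ) : ℝ := Real.log (i + 1) / i

theorem coef_zero : coef 0 = 0 := by simp [coef]

theorem coef_nonneg (i : ℕ) : 0 ≤ coef i := by
  unfold coef
  apply div_nonneg _ (Nat.cast_nonneg _)
  apply Real.log_nonneg
  have : (0 : ℝ) ≤ i := Nat.cast_nonneg _
  linarith

/-- one pair of bumps -/
noncomputable def term (α : T) (w : ℕ → ℝ) (i : ℕ) (u : T) : ℝ :=
  coef i * (tent (w i) (u - i • α) - tent (w i) (u + i • α))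

theorem continuous_term (α : T) (w : ℕ → ℝ) (i : ℕ) : Continuous (term α w i) := by
  unfold term
  have := continuous_tent (w i)
  fun_prop

theorem Wid.term_eq_zero {α : T} {w : ℕ → ℝ} (h : Wid α w) {u : T} {i : ℕ}
    (hi : i ∉ hits α w u) : term α w i u = 0 := by
  unfold term
  rcases Nat.eq_zero_or_pos i with rfl | hi0
  · rw [coef_zero, zero_mul]
  · have h1 : ¬ (‖u - i • α‖ < w i ∨ ‖u + i • α‖ < w i) := fun h2 => hi ⟨hi0, h2⟩
    push Not at h1
    rw [tent_eq_zero (h.pos i hi0) h1.1, tent_eq_zero (h.pos i hi0) h1.2, sub_zero, mul_zero]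

theorem Wid.abs_term_le {α : T} {w : ℕ → ℝ} (h : Wid α w) (u : T) (i : ℕ) :
    |term α w i u| ≤ coef i := by
  unfold term
  rcases Nat.eq_zero_or_pos i with rfl | hi0
  · rw [coef_zero, zero_mul, abs_zero]
  · rw [abs_mul, abs_of_nonneg (coef_nonneg i)]
    exact mul_le_of_le_one_right (coef_nonneg i) (tent_sub_le_one (h.pos i hi0) _ _)

/-- the cocycle -/
noncomputable def phi (α : T) (w : ℕ → ℝ) (u : T) : ℝ := ∑' i, term α w i u

theorem Wid.summable_term {α : T} {w : ℕ → ℝ} (h : Wid α w) (u : T) :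
    Summable (fun i => term α w i u) := by
  obtain ⟨K, -, hK⟩ := lac_sum (1 / 2) (by norm_num)
  obtain ⟨C, hC, hC'⟩ := coef_le (1 / 2) (by norm_num)
  have h1 := (summable_of_lac (1 / 2) K hK (hits α w u) (fun i hi => hi.1) (h.lac u)
    (fun i => |term α w i u|) C hC.le (fun i => abs_nonneg _)
    (fun i hi => by rw [h.term_eq_zero hi, abs_zero])
    (fun i hi => (h.abs_term_le u i).trans (by
      have := hC' i hi.1
      rw [show -(1 - 1 / 2 : ℝ) = -(1 / 2) by norm_num] at this
      exact this))).1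
  exact h1.of_abs

theorem Wid.tail {α : T} {w : ℕ → ℝ} (h : Wid α w) : ∃ C : ℝ, 0 < C ∧ ∀ I : ℕ, 1 ≤ I →
    ∀ u, |phi α w u - ∑ i ∈ range I, term α w i u| ≤ C * (I : ℝ) ^ (-(1 / 4) : ℝ) := by
  classical
  obtain ⟨K, hK0, hK⟩ := lac_sum (1 / 4) (by norm_num)
  obtain ⟨C, hC, hC'⟩ := coef_le (1 / 2) (by norm_num)
  refine ⟨C * K, by positivity, fun I hI u => ?_⟩
  have hI0 : (0 : ℝ) < I := by exact_mod_cast hI
  set g : ℕ → ℝ := fun i => if i ∈ range I then term α w i u else 0 with hg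
  have hgz : ∀ i, i ∉ range I → g i = 0 := fun i hi => if_neg hi
  have hgs : Summable g := summable_of_ne_finset_zero (s := range I) hgz
  have hgt : ∑' i, g i = ∑ i ∈ range I, term α w i u := by
    rw [tsum_eq_sum (s := range I) hgz]
    apply Finset.sum_congr rfl
    intro i hi
    exact if_pos hi
  have h1 : phi α w u - ∑ i ∈ range I, term α w i u = ∑' i, (term α w i u - g i) := by
    rw [(h.summable_term u).tsum_sub hgs, hgt, phi]
  rw [h1]
  have h2 := summable_of_lac (1 / 4) K hK (hits α w u) (fun i hi => hi.1) (h.lac u)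
    (fun i => |term α w i u - g i|) (C * (I : ℝ) ^ (-(1 / 4) : ℝ)) (by positivity)
    (fun i => abs_nonneg _)
    (fun i hi => by
      have h3 := h.term_eq_zero hi
      simp only [hg, h3]
      simp)
    (fun i hi => by
      by_cases hiI : i ∈ range I
      · simp only [hg, hiI, if_true, sub_self, abs_zero]
        positivity
      · simp only [hg, hiI, if_false, sub_zero]
        refine (h.abs_term_le u i).trans ((hC' i hi.1).trans ?_)
        have hi0 : (0 : ℝ) < i := by exact_mod_cast hi.1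
        have hIi : (I : ℝ) ≤ i := by
          rw [Finset.mem_range, not_lt] at hiI
          exact_mod_cast hiI
        have h4 : (i : ℝ) ^ (-(1 - 1 / 2) : ℝ) = (i : ℝ) ^ (-(1 / 4) : ℝ) * (i : ℝ) ^ (-(1 / 4) : ℝ) := by
          rw [← Real.rpow_add hi0]
          norm_num
        rw [h4, ← mul_assoc]
        have h5 : (i : ℝ) ^ (-(1 / 4) : ℝ) ≤ (I : ℝ) ^ (-(1 / 4) : ℝ) :=
          Real.rpow_le_rpow_of_nonpos hI0 hIi (by norm_num)
        gcongr)
  have h3 : |∑' i, (term α w i u - g i)| ≤ ∑' i, |term α w i u - g i| := by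
    have := norm_tsum_le_tsum_norm (f := fun i => term α w i u - g i)
      (by simpa only [Real.norm_eq_abs] using h2.1)
    simpa only [Real.norm_eq_abs] using this
  refine h3.trans (h2.2.trans (le_of_eq ?_))
  ring

theorem Wid.continuous_phi {α : T} {w : ℕ → ℝ} (h : Wid α w) : Continuous (phi α w) := by
  obtain ⟨C, hC, hC'⟩ := h.tail
  apply continuous_of_uniform_approx_of_continuous
  intro V hV
  obtain ⟨ε, hε, hε'⟩ := Metric.mem_uniformity_dist.1 hV
  have h1 : Tendsto (fun I : ℕ => C * (I : ℝ) ^ (-(1 / 4) : ℝ)) atTop (𝓝 (C * 0)) :=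
    ((tendsto_rpow_neg_atTop (by norm_num : (0 : ℝ) < 1 / 4)).comp
      tendsto_natCast_atTop_atTop).const_mul C
  rw [mul_zero] at h1
  obtain ⟨I, hI1, hI2⟩ := ((h1.eventually_lt_const hε).and (eventually_ge_atTop 1)).exists
  refine ⟨fun u => ∑ i ∈ range I, term α w i u, ?_, fun u => ?_⟩
  · exact continuous_finsetSum _ fun i _ => continuous_term α w i
  · apply hε'
    rw [Real.dist_eq]
    exact (hC' I hI2 u).trans_lt hI1

theorem phi_neg (α : T) (w : ℕ → ℝ) (u : T) : phi α w (-u) = -phi α w u := by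
  unfold phi
  rw [← tsum_neg]
  congr 1
  funext i
  unfold term
  have h1 : -u - i • α = -(u + i • α) := by abel
  have h2 : -u + i • α = -(u - i • α) := by abel
  rw [h1, h2, tent_neg, tent_neg]
  ring

/-- contribution of the `i`-th pair to the Birkhoff sum at `0` -/
noncomputable def D (α : T) (w : ℕ → ℝ) (i n : ℕ) : ℝ :=
  ∑ j ∈ range n, (tent (w i) (j • α - i • α) - tent (w i) (j • α + i • α))

theorem Wid.beta_zero {α : T} {w : ℕ → ℝ} (h : Wid α w) {i m : ℕ} (hi : 1 ≤ i) (hm : 1 ≤ m)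
    (hm' : m ≤ 4 * i) : tent (w i) (m • α) = 0 := by
  apply tent_eq_zero (h.pos i hi)
  have h1 := h.le i hi m hm hm'
  have h2 := h.pos i hi
  linarith

theorem Wid.D_facts {α : T} {w : ℕ → ℝ} (h : Wid α w) (i n : ℕ) (hi : 1 ≤ i) :
    0 ≤ D α w i n ∧ (i < n → n ≤ 2 * i → D α w i n = 1) := by
  have hw := h.pos i hi
  set β : ℕ → ℝ := fun m => tent (w i) (m • α) with hβ
  have hβ0 : β 0 = 1 := by simp [hβ, tent_zero]
  have hβz : ∀ m, 1 ≤ m → m ≤ 4 * i → β m = 0 := fun m h1 h2 => h.beta_zero hi h1 h2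
  have hβ1 : ∀ m, β m ≤ 1 := fun m => tent_le_one hw _
  have hβn : ∀ m, 0 ≤ β m := fun m => tent_nonneg _ _
  have hD : D α w i n = (∑ j ∈ range n, tent (w i) (j • α - i • α)) -
      ∑ m ∈ Ico i (i + n), β m := by
    unfold D
    rw [Finset.sum_sub_distrib]
    congr 1
    rw [Finset.sum_Ico_eq_sum_range, Nat.add_sub_cancel_left]
    apply Finset.sum_congr rfl
    intro j _
    simp only [hβ]
    rw [add_smul, add_comm]
  have hback : ∀ j, j < i → tent (w i) (j • α - i • α) = 0 := by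
    intro j hj
    have h1 : j • α - i • α = -((i - j) • α) := by
      rw [nsmul_sub_nsmul α hj.le]; abel
    rw [h1, tent_neg]
    exact hβz (i - j) (by omega) (by omega)
  rcases Nat.lt_or_ge i n with hin | hin
  · -- i < n
    have hA : ∑ j ∈ range n, tent (w i) (j • α - i • α) = 1 + ∑ m ∈ Ico 1 (n - i), β m := by
      rw [← Finset.sum_range_add_sum_Ico _ (by omega : i + 1 ≤ n), Finset.sum_range_succ,
        Finset.sum_eq_zero (fun j hj => hback j (Finset.mem_range.1 hj)), zero_add, sub_self,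
        tent_zero]
      congr 1
      rw [Finset.sum_Ico_eq_sum_range, Finset.sum_Ico_eq_sum_range,
        show n - i - 1 = n - (i + 1) by omega]
      apply Finset.sum_congr rfl
      intro k _
      simp only [hβ]
      rw [← nsmul_sub_nsmul α (by omega : i ≤ i + 1 + k)]
      congr 2
      omega
    rcases Nat.lt_or_ge (2 * i) n with hn | hn
    · -- 2 i < n
      have h1 : ∑ m ∈ Ico 1 (n - i), β m = ∑ m ∈ Ico i (n - i), β m := by
        rw [← Finset.sum_Ico_consecutive β hi (by omega : i ≤ n - i),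
          Finset.sum_eq_zero (s := Ico 1 i), zero_add]
        intro m hm
        rw [Finset.mem_Ico] at hm
        exact hβz m hm.1 (by omega)
      have h2 : ∑ m ∈ Ico i (i + n), β m =
          ∑ m ∈ Ico i (n - i), β m + ∑ m ∈ Ico (n - i) (i + n), β m := by
        rw [Finset.sum_Ico_consecutive β (by omega) (by omega)]
      have h3 : ∑ m ∈ Ico (n - i) (i + n), β m ≤ 1 := by
        by_cases hex : ∃ m₀ ∈ Ico (n - i) (i + n), β m₀ ≠ 0
        · obtain ⟨m₀, hm₀, hm₀'⟩ := hex
          rw [Finset.sum_eq_single m₀]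
          · exact hβ1 m₀
          · intro m hm hne
            by_contra hcon
            rw [Finset.mem_Ico] at hm hm₀
            have hlt : ∀ k, β k ≠ 0 → ‖k • α‖ < w i := by
              intro k hk
              by_contra h4
              exact hk (tent_eq_zero hw (not_lt.1 h4))
            rcases Nat.lt_or_gt_of_ne hne with h4 | h4
            · have h5 : ‖(m₀ - m) • α‖ < 2 * w i := by
                rw [nsmul_sub_nsmul α h4.le]
                exact (norm_sub_le _ _).trans_lt (by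
                  have := hlt m hcon
                  have := hlt m₀ hm₀'
                  linarith)
              have := h.far hi (by omega) h5
              omega
            · have h5 : ‖(m - m₀) • α‖ < 2 * w i := by
                rw [nsmul_sub_nsmul α h4.le]
                exact (norm_sub_le _ _).trans_lt (by
                  have := hlt m hcon
                  have := hlt m₀ hm₀'
                  linarith)
              have := h.far hi (by omega) h5
              omega
          · intro hcon; exact absurd hm₀ hcon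
        · push Not at hex
          rw [Finset.sum_eq_zero hex]
          exact zero_le_one
      refine ⟨?_, fun _ h4 => absurd h4 (by omega)⟩
      rw [hD, hA, h1, h2]
      linarith
    · -- n ≤ 2 i
      have h1 : ∑ m ∈ Ico 1 (n - i), β m = 0 := by
        apply Finset.sum_eq_zero
        intro m hm
        rw [Finset.mem_Ico] at hm
        exact hβz m hm.1 (by omega)
      have h2 : ∑ m ∈ Ico i (i + n), β m = 0 := by
        apply Finset.sum_eq_zero
        intro m hm
        rw [Finset.mem_Ico] at hm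
        exact hβz m (by omega) (by omega)
      have h3 : D α w i n = 1 := by rw [hD, hA, h1, h2]; norm_num
      exact ⟨by rw [h3]; exact zero_le_one, fun _ _ => h3⟩
  · -- n ≤ i
    have hA : ∑ j ∈ range n, tent (w i) (j • α - i • α) = 0 :=
      Finset.sum_eq_zero fun j hj => hback j (by have := Finset.mem_range.1 hj; omega)
    have h2 : ∑ m ∈ Ico i (i + n), β m = 0 := by
      apply Finset.sum_eq_zero
      intro m hm
      rw [Finset.mem_Ico] at hm
      exact hβz m (by omega) (by omega)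
    refine ⟨?_, fun h4 => absurd h4 (by omega)⟩
    rw [hD, hA, h2, sub_zero]

theorem Wid.S_eq {α : T} {w : ℕ → ℝ} (h : Wid α w) (n : ℕ) :
    Summable (fun i => coef i * D α w i n) ∧
      S α (phi α w) n 0 = ∑' i, coef i * D α w i n := by
  have h1 : ∀ i, coef i * D α w i n = ∑ j ∈ range n, term α w i (0 + j • α) := by
    intro i
    unfold D term
    rw [Finset.mul_sum]
    apply Finset.sum_congr rfl
    intro j _
    rw [zero_add]
  constructor
  · simp_rw [h1]
    exact summable_sum fun j _ => h.summable_term _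
  · simp_rw [h1]
    rw [Summable.tsum_finsetSum fun j _ => h.summable_term _]
    rfl

theorem Wid.le_S {α : T} {w : ℕ → ℝ} (h : Wid α w) (n : ℕ) (hn : 2 ≤ n) :
    1 / 4 * Real.log (n / 2) ≤ S α (phi α w) n 0 := by
  obtain ⟨h1, h2⟩ := h.S_eq n
  rw [h2]
  have hn' : (2 : ℝ) ≤ n := by exact_mod_cast hn
  have h3 : ∑ i ∈ Ico ((n + 1) / 2) n, coef i * D α w i n ≤ ∑' i, coef i * D α w i n := by
    apply h1.sum_le_tsum
    intro i _
    rcases Nat.eq_zero_or_pos i with rfl | hi
    · rw [coef_zero, zero_mul]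
    · exact mul_nonneg (coef_nonneg i) (h.D_facts i n hi).1
  refine le_trans ?_ h3
  have hlog : 0 ≤ Real.log ((n : ℝ) / 2) := Real.log_nonneg (by linarith)
  have h4 : ∀ i ∈ Ico ((n + 1) / 2) n, Real.log ((n : ℝ) / 2) / n ≤ coef i * D α w i n := by
    intro i hi
    rw [Finset.mem_Ico] at hi
    have hi1 : 1 ≤ i := by omega
    have hi2 : n ≤ 2 * i := by omega
    rw [(h.D_facts i n hi1).2 hi.2 hi2, mul_one]
    unfold coef
    have hi3 : (0 : ℝ) < i := by exact_mod_cast hi1
    have hi4 : (i : ℝ) ≤ n := by exact_mod_cast hi.2.le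
    have hi5 : (n : ℝ) ≤ 2 * i := by exact_mod_cast hi2
    have h5 : Real.log ((n : ℝ) / 2) ≤ Real.log (i + 1) :=
      Real.log_le_log (by linarith) (by linarith)
    have h6 : 0 ≤ Real.log ((i : ℝ) + 1) := hlog.trans h5
    gcongr
  have h5 := Finset.card_nsmul_le_sum _ _ _ h4
  refine le_trans ?_ h5
  rw [Nat.card_Ico, nsmul_eq_mul]
  have h6 : (n : ℝ) / 4 ≤ ((n - (n + 1) / 2 : ℕ) : ℝ) := by
    have h7 : n ≤ 4 * (n - (n + 1) / 2) := by omega
    have h8 : (n : ℝ) ≤ 4 * ((n - (n + 1) / 2 : ℕ) : ℝ) := by exact_mod_cast h7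
    linarith
  calc 1 / 4 * Real.log (n / 2) = (n : ℝ) / 4 * (Real.log ((n : ℝ) / 2) / n) := by
        field_simp
    _ ≤ _ := by
        apply mul_le_mul_of_nonneg_right h6
        positivity

theorem Wid.tendsto_S {α : T} {w : ℕ → ℝ} (h : Wid α w) :
    Tendsto (fun n => S α (phi α w) n 0) atTop atTop := by
  have h1 : Tendsto (fun n : ℕ => 1 / 4 * Real.log ((n : ℝ) / 2)) atTop atTop := by
    apply Tendsto.const_mul_atTop (by norm_num)
    apply Real.tendsto_log_atTop.comp
    exact tendsto_natCast_atTop_atTop.atTop_div_const (by norm_num)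
  apply tendsto_atTop_mono' _ _ h1
  filter_upwards [eventually_ge_atTop 2] with n hn
  exact h.le_S n hn

end Pool.Agent.Lib.MP_f73729_an
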