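import Pool.Agent.Lib.MP_f73729_an.Neg

/-! From the Besicovitch property to the hypotheses of `neg_main`. -/

set_option autoImplicit false

namespace Pool.Agent.Lib.MP_f73729_an

open Finset Filter Topology

theorem abs_S_le {α : T} {φ : T → ℝ} {Φ : ℝ} (hΦ : ∀ y, |φ y| ≤ Φ) (n : ℕ) (y : T) :
    |S α φ n y| ≤ n * Φ := by
  unfold S
  refine (Finset.abs_sum_le_sum_abs _ _).trans ?_
  refine (Finset.sum_le_card_nsmul _ _ Φ (fun j _ => hΦ _)).trans ?_
  rw [Finset.card_range, nsmul_eq_mul]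

theorem S_mul_ge {α : T} {φ : T → ℝ} {κ : ℝ} {n : ℕ} (hκ : ∀ y, κ ≤ S α φ n y) (k : ℕ) (y : T) :
    k * κ ≤ S α φ (n * k) y := by
  induction k generalizing y with
  | zero => simp [S_zero]
  | succ k ih =>
    rw [Nat.mul_succ, S_add]
    have h1 := ih y
    have h2 := hκ (y + (n * k) • α)
    push_cast
    linarith

theorem S_large {α : T} {φ : T → ℝ} {κ Φ : ℝ} (hκ0 : 0 < κ) (hΦ : ∀ y, |φ y| ≤ Φ) {n : ℕ}
    (hn : 1 ≤ n) (hκ : ∀ y, κ ≤ S α φ n y) : ∃ B : ℕ, ∀ N, B ≤ N → ∀ y, 1 ≤ S α φ N y := by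
  obtain ⟨K, hK⟩ := exists_nat_gt ((n * Φ + 1) / κ)
  have hΦ0 : 0 ≤ Φ := (abs_nonneg _).trans (hΦ 0)
  refine ⟨n * K, fun N hN y => ?_⟩
  have h1 : N = n * (N / n) + N % n := (Nat.div_add_mod N n).symm
  have h2 : K ≤ N / n := (Nat.le_div_iff_mul_le (by omega)).2 (by rw [mul_comm]; exact hN)
  rw [h1, S_add]
  have h3 := S_mul_ge hκ (N / n) y
  have h4 := abs_S_le (α := α) hΦ (N % n) (y + (n * (N / n)) • α)
  have h5 : ((N % n : ℕ) : ℝ) ≤ n := by exact_mod_cast (Nat.mod_lt N (by omega)).le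
  have h6 : ((N % n : ℕ) : ℝ) * Φ ≤ n * Φ := mul_le_mul_of_nonneg_right h5 hΦ0
  have h7 : (K : ℝ) * κ ≤ ((N / n : ℕ) : ℝ) * κ := by
    have : (K : ℝ) ≤ ((N / n : ℕ) : ℝ) := by exact_mod_cast h2
    exact mul_le_mul_of_nonneg_right this hκ0.le
  rw [div_lt_iff₀ hκ0] at hK
  have h8 := (abs_le.1 h4).1
  linarith

/-- a dense orbit forces sign changes of all Birkhoff sums -/
theorem exists_nonpos {α : T} {φ : T → ℝ} (hφ : Continuous φ)
    (hd : ∃ p, Dense (orbit α φ p)) (n : ℕ) (hn : 1 ≤ n) : ∃ y, S α φ n y ≤ 0 := by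
  by_contra hcon
  push Not at hcon
  obtain ⟨y₀, -, hy₀⟩ := isCompact_univ.exists_isMinOn (s := (Set.univ : Set T)) ⟨0, trivial⟩
    (continuous_S α hφ n).continuousOn
  have hκ : ∀ y, S α φ n y₀ ≤ S α φ n y := fun y => hy₀ (Set.mem_univ y)
  obtain ⟨y₁, -, hy₁⟩ := isCompact_univ.exists_isMaxOn (s := (Set.univ : Set T)) ⟨0, trivial⟩
    hφ.abs.continuousOn
  obtain ⟨B, hB⟩ := S_large (hcon y₀) (fun y => hy₁ (Set.mem_univ y)) hn hκ
  obtain ⟨p, hp⟩ := hd
  let F : Set (T × ℝ) := (fun n : ℤ => (cyl α φ ^ n) p) '' Set.Icc (-(B : ℤ)) B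
  have hF : F.Finite := (Set.finite_Icc _ _).image _
  have hlarge : ∀ N : ℤ, (B : ℤ) < |N| → 1 ≤ |((cyl α φ ^ N) p).2 - p.2| := by
    intro N hN
    rcases Int.eq_nat_or_neg N with ⟨k, rfl | rfl⟩
    · rw [zpow_natCast, cyl_pow]
      have h1 : B ≤ k := by
        rw [Nat.abs_cast] at hN
        omega
      have h2 := hB k h1 p.1
      simp only [add_sub_cancel_left]
      exact h2.trans (le_abs_self _)
    · rw [cyl_pow_neg]
      have h1 : B ≤ k := by
        rw [abs_neg, Nat.abs_cast] at hN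
        omega
      have h2 := hB k h1 (p.1 - k • α)
      have h3 : p.2 - S α φ k (p.1 - k • α) - p.2 = -S α φ k (p.1 - k • α) := by ring
      simp only [h3, abs_neg]
      exact h2.trans (le_abs_self _)
  -- the strip
  have hopen : IsOpen ({z : T × ℝ | |z.2 - p.2| < 1} ∩ Fᶜ) :=
    (isOpen_lt (by fun_prop) continuous_const).inter hF.isClosed.isOpen_compl
  have hne : ({z : T × ℝ | |z.2 - p.2| < 1} ∩ Fᶜ).Nonempty := by
    by_contra hemp
    rw [Set.not_nonempty_iff_eq_empty] at hemp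
    have hsub : (fun t : ℝ => ((0 : T), t)) '' Set.Ioo (p.2 - 1) (p.2 + 1) ⊆ F := by
      rintro _ ⟨t, ht, rfl⟩
      by_contra hnF
      have : ((0 : T), t) ∈ ({z : T × ℝ | |z.2 - p.2| < 1} ∩ Fᶜ) := by
        refine ⟨?_, hnF⟩
        change |t - p.2| < 1
        rw [abs_lt]
        constructor <;> linarith [ht.1, ht.2]
      rw [hemp] at this
      exact this
    have hinf : ((fun t : ℝ => ((0 : T), t)) '' Set.Ioo (p.2 - 1) (p.2 + 1)).Infinite :=
      (Set.Ioo_infinite (by linarith)).image (fun a _ b _ hab => (Prod.mk.inj hab).2)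
    exact hinf (hF.subset hsub)
  obtain ⟨z, ⟨hz1, hz2⟩, ⟨N, hN⟩⟩ := hp.inter_open_nonempty _ hopen hne
  apply hz2
  refine ⟨N, ?_, hN⟩
  by_contra hc
  have h1 : (B : ℤ) < |N| := by
    rw [Set.mem_Icc, ← abs_le] at hc
    omega
  have h2 := hlarge N h1
  simp only at hN
  rw [hN] at h2
  have h3 : |z.2 - p.2| < 1 := hz1
  linarith

theorem nsmul_inj {α : ℝ} (hα : Irrational α) : Function.Injective (fun n : ℕ => n • (α : T)) := by
  intro m n hmn
  simp only at hmn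
  by_contra hne
  rcases Nat.lt_or_gt_of_ne hne with h | h
  · apply nsmul_coe_ne_zero hα (n - m) (by omega)
    rw [nsmul_sub_nsmul _ h.le, hmn, sub_self]
  · apply nsmul_coe_ne_zero hα (m - n) (by omega)
    rw [nsmul_sub_nsmul _ h.le, hmn, sub_self]

/-- along a discrete orbit the Birkhoff sums tend to infinity -/
theorem abs_S_large {α : ℝ} (hα : Irrational α) {φ : T → ℝ} (p : T × ℝ)
    (hp : ∀ z, ¬ AccPt z (𝓟 (orbit (α : T) φ p))) (R : ℝ) :
    ∃ n₀ : ℕ, ∀ n, n₀ ≤ n → R ≤ |S (α : T) φ n p.1| := by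
  by_contra hcon
  push Not at hcon
  let s : Set ℕ := {n | |S (α : T) φ n p.1| < R}
  have hs : s.Infinite := by
    rw [Set.infinite_iff_exists_gt]
    intro a
    obtain ⟨n, hn1, hn2⟩ := hcon (a + 1)
    exact ⟨n, hn2, by omega⟩
  let A : Set (T × ℝ) := (fun n : ℕ => (cyl (α : T) φ ^ n) p) '' s
  have hA : A.Infinite := hs.image (by
    intro m _ n _ hmn
    simp only [cyl_pow] at hmn
    have h1 := (Prod.mk.inj hmn).1
    exact nsmul_inj hα (add_left_cancel h1))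
  have hAK : A ⊆ (Set.univ : Set T) ×ˢ Set.Icc (p.2 - R) (p.2 + R) := by
    rintro _ ⟨n, hn, rfl⟩
    have hn' : |S (α : T) φ n p.1| < R := hn
    rw [abs_lt] at hn'
    simp only [cyl_pow]
    refine ⟨trivial, ?_, ?_⟩
    · change p.2 - R ≤ p.2 + S (α : T) φ n p.1
      linarith
    · change p.2 + S (α : T) φ n p.1 ≤ p.2 + R
      linarith
  obtain ⟨z, -, hz⟩ := hA.exists_accPt_of_subset_isCompact
    (isCompact_univ.prod isCompact_Icc) hAK
  apply hp z
  refine hz.mono ?_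
  rw [Filter.principal_mono]
  rintro _ ⟨n, -, rfl⟩
  exact ⟨(n : ℤ), by simp⟩

/-- Main negative theorem. -/
theorem negative (α : ℝ) (hα : Irrational α) (φ : T → ℝ) (γ : ℝ) (hγ : 0 < γ) (hγ1 : γ ≤ 1)
    (hH : ∃ C, ∀ u v, |φ u - φ v| ≤ C * ‖u - v‖ ^ γ)
    (hB : (∃ p, Dense (orbit (α : T) φ p)) ∧ ∃ p, ∀ z, ¬ AccPt z (𝓟 (orbit (α : T) φ p))) :
    ∃ c > 0, ∀ q : ℕ, 0 < q → c / (q : ℝ) ^ (1 / γ ^ 2) ≤ ‖q • (α : T)‖ := by
  obtain ⟨C₀, hC₀⟩ := hH
  set C := max C₀ 1 with hC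
  have hH : ∀ u v, |φ u - φ v| ≤ C * ‖u - v‖ ^ γ := fun u v =>
    (hC₀ u v).trans (mul_le_mul_of_nonneg_right (le_max_left _ _) (by positivity))
  have hC1 : 1 ≤ C := le_max_right _ _
  have hφ : Continuous φ := by
    rw [Metric.continuous_iff]
    intro b ε hε
    have h1 : Tendsto (fun t : ℝ => C * t ^ γ) (𝓝 0) (𝓝 (C * 0 ^ γ)) :=
      ((Real.continuous_rpow_const hγ.le).tendsto 0).const_mul C
    rw [Real.zero_rpow hγ.ne', mul_zero] at h1
    obtain ⟨δ, hδ, hδ'⟩ := Metric.eventually_nhds_iff.1 (h1.eventually_lt_const hε)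
    refine ⟨δ, hδ, fun a hab => ?_⟩
    rw [Real.dist_eq]
    refine (hH a b).trans_lt (hδ' ?_)
    rw [dist_eq_norm] at hab
    rwa [Real.dist_eq, sub_zero, abs_of_nonneg (norm_nonneg _)]
  obtain ⟨hdense, p, hp⟩ := hB
  obtain ⟨y₁, -, hy₁⟩ := isCompact_univ.exists_isMaxOn (s := (Set.univ : Set T)) ⟨0, trivial⟩
    hφ.abs.continuousOn
  set Φ := |φ y₁| with hΦd
  have hΦ : ∀ y, |φ y| ≤ Φ := fun y => hy₁ (Set.mem_univ y)
  have hΦ0 : 0 ≤ Φ := abs_nonneg _
  obtain ⟨n₀, hn₀⟩ := abs_S_large hα p hp (Φ + 1)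
  have hstep : ∀ n, S (α : T) φ (n + 1) p.1 = S (α : T) φ n p.1 + φ (p.1 + n • (α : T)) := by
    intro n
    rw [S_add, S_one]
  rcases le_or_gt 0 (S (α : T) φ n₀ p.1) with hsign | hsign
  · -- positive case
    have hpos : ∀ n, n₀ ≤ n → Φ + 1 ≤ S (α : T) φ n p.1 := by
      intro n hn
      induction n, hn using Nat.le_induction with
      | base =>
        have h1 := hn₀ n₀ le_rfl
        rwa [abs_of_nonneg hsign] at h1
      | succ n hn ih =>
        have h1 := hn₀ (n + 1) (by omega)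
        have h2 := (abs_le.1 (hΦ (p.1 + n • (α : T)))).1
        have h3 : 0 ≤ S (α : T) φ (n + 1) p.1 := by rw [hstep]; linarith
        rwa [abs_of_nonneg h3] at h1
    exact neg_main α hα φ C γ hC1 hγ hγ1 hH
      (fun n hn => exists_nonpos hφ hdense n hn) p.1 n₀
      (fun n hn => by have := hpos n hn; linarith)
  · -- negative case
    have hneg : ∀ n, n₀ ≤ n → S (α : T) φ n p.1 ≤ -(Φ + 1) := by
      intro n hn
      induction n, hn using Nat.le_induction with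
      | base =>
        have h1 := hn₀ n₀ le_rfl
        rw [abs_of_neg hsign] at h1
        linarith
      | succ n hn ih =>
        have h1 := hn₀ (n + 1) (by omega)
        have h2 := (abs_le.1 (hΦ (p.1 + n • (α : T)))).2
        have h3 : S (α : T) φ (n + 1) p.1 < 0 := by rw [hstep]; linarith
        rw [abs_of_neg h3] at h1
        linarith
    have hSneg : ∀ n x, S (α : T) (fun x => -φ x) n x = -S (α : T) φ n x := by
      intro n x
      unfold S
      rw [← Finset.sum_neg_distrib]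
    have hcyl : ∀ N : ℤ, ∀ z : T × ℝ, (cyl (α : T) (fun x => -φ x) ^ N) (z.1, -z.2) =
        (((cyl (α : T) φ ^ N) z).1, -((cyl (α : T) φ ^ N) z).2) := by
      intro N z
      rcases Int.eq_nat_or_neg N with ⟨k, rfl | rfl⟩
      · rw [zpow_natCast, zpow_natCast, cyl_pow, cyl_pow]
        simp only [hSneg]
        rw [neg_add]
      · rw [cyl_pow_neg, cyl_pow_neg]
        simp only [hSneg]
        congr 1
        ring
    have hdense' : ∃ p, Dense (orbit (α : T) (fun x => -φ x) p) := by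
      obtain ⟨p', hp'⟩ := hdense
      refine ⟨(p'.1, -p'.2), ?_⟩
      let e : (T × ℝ) ≃ₜ (T × ℝ) := (Homeomorph.refl T).prodCongr (Homeomorph.neg ℝ)
      have h1 : orbit (α : T) (fun x => -φ x) (p'.1, -p'.2) = e '' orbit (α : T) φ p' := by
        unfold orbit
        rw [← Set.range_comp]
        congr 1
        funext N
        rw [hcyl N p']
        rfl
      rw [h1]
      exact e.surjective.denseRange.dense_image e.continuous hp'
    have hH' : ∀ u v, |(-φ u) - (-φ v)| ≤ C * ‖u - v‖ ^ γ := by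
      intro u v
      have h1 : -φ u - -φ v = -(φ u - φ v) := by ring
      rw [h1, abs_neg]
      exact hH u v
    exact neg_main α hα (fun x => -φ x) C γ hC1 hγ hγ1 hH'
      (fun n hn => exists_nonpos hφ.neg hdense' n hn) p.1 n₀
      (fun n hn => by
        have := hneg n hn
        rw [hSneg]
        linarith)

end Pool.Agent.Lib.MP_f73729_an
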