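import Pool.Agent.Lib.MP_f73729_an.Cyl

/-! Topological transitivity and discrete orbits of cylindrical transformations without oddness
of the function. -/

set_option autoImplicit false

namespace Pool.Agent.Lib.MP_f73729_an

open Finset Filter Topology

/-- Birkhoff sums on returns to a given arc take every value `r + η`, `r ≥ 0`, `η > 0`. -/
private theorem essential2 (α : ℝ) (hα : Irrational α) (φ : T → ℝ) (hφ : Continuous φ)
    (hz : ∀ n : ℕ, ∃ y, S (α : T) φ n y ≤ 0)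
    (hS : Tendsto (fun n => S (α : T) φ n 0) atTop atTop)
    (u₀ : T) (ρ : ℝ) (hρ : 0 < ρ) (r η : ℝ) (hr0 : 0 ≤ r) (hη : 0 < η) :
    ∃ (n : ℕ) (u : T), ‖u - u₀‖ < ρ ∧ ‖u + n • (α : T) - u₀‖ < ρ ∧
      S (α : T) φ n u = r + η := by
  -- finitely many translates
  obtain ⟨M, hM⟩ : ∃ M : ℕ, ∀ z : T, ∃ m < M, ‖z - m • (α : T) - u₀‖ < ρ / 2 := by
    obtain ⟨t, ht⟩ := isCompact_univ.elim_finite_subcover
      (fun m : ℕ => {z : T | ‖z - m • (α : T) - u₀‖ < ρ / 2})
      (fun m => isOpen_lt (by fun_prop) continuous_const)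
      (by
        intro z _
        obtain ⟨m, hm⟩ := exists_close α hα (z - u₀) (ρ / 2) (half_pos hρ)
        rw [Set.mem_iUnion]
        refine ⟨m, ?_⟩
        have h1 : z - m • (α : T) - u₀ = z - u₀ - m • (α : T) := by abel
        change ‖z - m • (α : T) - u₀‖ < ρ / 2
        rw [h1]; exact hm)
    refine ⟨t.sup id + 1, fun z => ?_⟩
    have h1 := ht (Set.mem_univ z)
    rw [Set.mem_iUnion₂] at h1
    obtain ⟨m, hm, hz⟩ := h1
    exact ⟨m, Nat.lt_succ_of_le (Finset.le_sup (f := id) hm), hz⟩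
  -- uniform continuity
  obtain ⟨κ, hκ, hκu⟩ : ∃ κ > 0, ∀ h : T, ‖h‖ < κ → ∀ m ∈ Finset.range M, ∀ u : T,
      |S (α : T) φ m (u + h) - S (α : T) φ m u| < η := by
    have h1 : ∀ᶠ h : T in 𝓝 0, ∀ m ∈ Finset.range M, ∀ u : T,
        |S (α : T) φ m (u + h) - S (α : T) φ m u| < η := by
      rw [Filter.eventually_all_finset]
      intro m _
      have h2 := CompactSpace.uniformContinuous_of_continuous (continuous_S (α : T) hφ m)
      rw [Metric.uniformContinuous_iff] at h2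
      obtain ⟨δ, hδ, h3⟩ := h2 η hη
      rw [Metric.eventually_nhds_iff]
      refine ⟨δ, hδ, fun h hh u => ?_⟩
      have h4 := @h3 (u + h) u (by
        rw [dist_eq_norm, add_sub_cancel_left]
        rwa [dist_zero_right] at hh)
      rwa [Real.dist_eq] at h4
    rw [Metric.eventually_nhds_iff] at h1
    obtain ⟨κ, hκ, h2⟩ := h1
    exact ⟨κ, hκ, fun h hh => h2 (by rwa [dist_zero_right])⟩
  obtain ⟨B, hB⟩ := eventually_atTop.1 (hS.eventually_ge_atTop (r + 2 * η))
  obtain ⟨n, hn1, hn2, hn3⟩ := exists_small α (min κ (ρ / 2)) (lt_min hκ (half_pos hρ)) B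
  have hV := hB n hn1
  -- two points
  obtain ⟨m₁, hm₁, hz₁⟩ := hM 0
  obtain ⟨y, hy⟩ := hz n
  obtain ⟨m₂, hm₂, hz₂⟩ := hM y
  set u₁ : T := 0 - m₁ • (α : T) with hu₁
  set u₂ : T := y - m₂ • (α : T) with hu₂
  have hs₁ : r + η < S (α : T) φ n u₁ := by
    have h1 := S_comm (α : T) φ m₁ n u₁
    have h2 := hκu (n • (α : T)) (hn3.trans_le (min_le_left _ _)) m₁ (Finset.mem_range.2 hm₁) u₁
    rw [← h1] at h2
    have h3 : u₁ + m₁ • (α : T) = 0 := by rw [hu₁]; abel
    rw [h3] at h2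
    have h4 := (abs_lt.1 h2).2
    linarith
  have hs₂ : S (α : T) φ n u₂ < r + η := by
    have h1 := S_comm (α : T) φ m₂ n u₂
    have h2 := hκu (n • (α : T)) (hn3.trans_le (min_le_left _ _)) m₂ (Finset.mem_range.2 hm₂) u₂
    rw [← h1] at h2
    have h3 : u₂ + m₂ • (α : T) = y := by rw [hu₂]; abel
    rw [h3] at h2
    have h4 := (abs_lt.1 h2).1
    linarith
  obtain ⟨s₁, hs₁u, hs₁n⟩ := exists_rep (u₁ - u₀)
  obtain ⟨s₂, hs₂u, hs₂n⟩ := exists_rep (u₂ - u₀)
  have hg : Continuous (fun s : ℝ => S (α : T) φ n (u₀ + (s : T))) :=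
    (continuous_S (α : T) hφ n).comp (continuous_const.add (AddCircle.continuous_mk' 1))
  have hivt := intermediate_value_uIcc (a := s₂) (b := s₁)
    (f := fun s : ℝ => S (α : T) φ n (u₀ + (s : T))) hg.continuousOn
  have hr : r + η ∈ Set.uIcc (S (α : T) φ n (u₀ + (s₂ : T))) (S (α : T) φ n (u₀ + (s₁ : T))) := by
    rw [hs₂u, hs₁u, add_sub_cancel, add_sub_cancel]
    exact Set.Icc_subset_uIcc ⟨hs₂.le, hs₁.le⟩
  obtain ⟨s, hs, hsr⟩ := hivt hr
  have hsabs : |s| < ρ / 2 := by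
    have h1 : |s₁| < ρ / 2 := by rw [hs₁n]; exact hz₁
    have h2 : |s₂| < ρ / 2 := by rw [hs₂n]; exact hz₂
    rw [abs_lt] at *
    rcases Set.mem_uIcc.1 hs with h | h
    · exact ⟨by linarith [h.1], by linarith [h.2]⟩
    · exact ⟨by linarith [h.1], by linarith [h.2]⟩
  refine ⟨n, u₀ + (s : T), ?_, ?_, hsr⟩
  · rw [add_sub_cancel_left]
    exact (norm_coe_le s).trans_lt (by linarith)
  · have h1 : u₀ + (s : T) + n • (α : T) - u₀ = (s : T) + n • (α : T) := by abel
    rw [h1]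
    have h2 := norm_add_le (s : T) (n • (α : T))
    have h3 := norm_coe_le s
    have h4 := hn3.trans_le (min_le_right _ _)
    linarith

/-- topological transitivity with integer powers, open sets version -/
private theorem transitive2 (α : ℝ) (hα : Irrational α) (φ : T → ℝ) (hφ : Continuous φ)
    (hz : ∀ n : ℕ, ∃ y, S (α : T) φ n y ≤ 0)
    (hS : Tendsto (fun n => S (α : T) φ n 0) atTop atTop)
    (A B : Set (T × ℝ)) (hA : IsOpen A) (hB : IsOpen B) (hA' : A.Nonempty) (hB' : B.Nonempty) :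
    ∃ N : ℤ, ∃ p ∈ A, (cyl (α : T) φ ^ N) p ∈ B := by
  obtain ⟨⟨a, y⟩, ha⟩ := hA'
  obtain ⟨⟨b, y'⟩, hb⟩ := hB'
  obtain ⟨ρ₁, hρ₁, h₁⟩ := Metric.isOpen_iff.1 hA _ ha
  obtain ⟨ρ₂, hρ₂, h₂⟩ := Metric.isOpen_iff.1 hB _ hb
  obtain ⟨m, hm⟩ := exists_close α hα (b - a) (ρ₂ / 2) (half_pos hρ₂)
  have hc := continuous_S (α : T) hφ m
  obtain ⟨δ, hδ, h₃⟩ := Metric.continuousAt_iff.1 (hc.continuousAt (x := a)) (ρ₂ / 2)
    (half_pos hρ₂)
  set κ := min (min ρ₁ (ρ₂ / 2)) δ with hκ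
  have hκ0 : 0 < κ := lt_min (lt_min hρ₁ (half_pos hρ₂)) hδ
  have hκ1 : κ ≤ ρ₁ := (min_le_left _ _).trans (min_le_left _ _)
  have hκ2 : κ ≤ ρ₂ / 2 := (min_le_left _ _).trans (min_le_right _ _)
  have hκ3 : κ ≤ δ := min_le_right _ _
  rcases le_or_gt 0 (y' - y - S (α : T) φ m a) with h0 | h0
  · obtain ⟨n, u, hu1, hu2, hu3⟩ := essential2 α hα φ hφ hz hS a κ hκ0
      (y' - y - S (α : T) φ m a) (ρ₂ / 4) h0 (by linarith)
    refine ⟨((n + m : ℕ) : ℤ), (u, y), h₁ ?_, h₂ ?_⟩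
    · rw [Metric.mem_ball, Prod.dist_eq]
      simp only [dist_self]
      rw [max_lt_iff]
      refine ⟨?_, hρ₁⟩
      rw [dist_eq_norm]
      exact hu1.trans_le hκ1
    · rw [zpow_natCast, cyl_pow, Metric.mem_ball, Prod.dist_eq, max_lt_iff]
      constructor
      · change dist (u + (n + m) • (α : T)) b < ρ₂
        rw [dist_eq_norm]
        have h4 : u + (n + m) • (α : T) - b =
            (u + n • (α : T) - a) - (b - a - m • (α : T)) := by
          rw [add_smul]; abel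
        rw [h4]
        have h5 := norm_sub_le (u + n • (α : T) - a) (b - a - m • (α : T))
        linarith
      · change dist (y + S (α : T) φ (n + m) u) y' < ρ₂
        rw [S_add, hu3, Real.dist_eq]
        have h7 := @h₃ (u + n • (α : T)) (by
          rw [dist_eq_norm]
          exact hu2.trans_le hκ3)
        rw [Real.dist_eq] at h7
        rw [abs_lt] at h7 ⊢
        constructor
        · linarith [h7.1]
        · linarith [h7.2]
  · obtain ⟨n, u, hu1, hu2, hu3⟩ := essential2 α hα φ hφ hz hS a κ hκ0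
      (-(y' - y - S (α : T) φ m a)) (ρ₂ / 4) (by linarith) (by linarith)
    refine ⟨(m : ℤ) + -(n : ℤ), (u + n • (α : T), y), h₁ ?_, h₂ ?_⟩
    · rw [Metric.mem_ball, Prod.dist_eq]
      simp only [dist_self]
      rw [max_lt_iff]
      refine ⟨?_, hρ₁⟩
      rw [dist_eq_norm]
      exact hu2.trans_le hκ1
    · rw [zpow_add, Equiv.Perm.mul_apply, cyl_pow_neg, zpow_natCast, cyl_pow, Metric.mem_ball,
        Prod.dist_eq, max_lt_iff]
      simp only [add_sub_cancel_right]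
      constructor
      · rw [dist_eq_norm]
        have h4 : u + m • (α : T) - b = (u - a) - (b - a - m • (α : T)) := by abel
        rw [h4]
        have h5 := norm_sub_le (u - a) (b - a - m • (α : T))
        linarith
      · rw [hu3, Real.dist_eq]
        have h7 := @h₃ u (by
          rw [dist_eq_norm]
          exact hu1.trans_le hκ3)
        rw [Real.dist_eq] at h7
        rw [abs_lt] at h7 ⊢
        constructor
        · linarith [h7.1]
        · linarith [h7.2]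

private theorem continuous_cyl_zpow (α : T) (φ : T → ℝ) (hφ : Continuous φ) (n : ℤ) :
    Continuous (fun p => (cyl α φ ^ n) p) := by
  rcases Int.eq_nat_or_neg n with ⟨k, rfl | rfl⟩
  · have h : (fun p => (cyl α φ ^ (k : ℤ)) p) = fun p => (cyl α φ ^ k) p := by
      funext p; rw [zpow_natCast]
    rw [h]
    exact continuous_cyl_pow α φ hφ k
  · have h : (fun p => (cyl α φ ^ (-(k : ℤ))) p) =
        fun p => (p.1 - k • α, p.2 - S α φ k (p.1 - k • α)) := by
      funext p; exact cyl_pow_neg α φ k p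
    rw [h]
    have h2 := continuous_S α hφ k
    fun_prop

theorem exists_dense2 (α : ℝ) (hα : Irrational α) (φ : T → ℝ) (hφ : Continuous φ)
    (hz : ∀ n : ℕ, ∃ y, S (α : T) φ n y ≤ 0)
    (hS : Tendsto (fun n => S (α : T) φ n 0) atTop atTop) :
    ∃ p, Dense (orbit (α : T) φ p) := by
  have htr := transitive2 α hα φ hφ hz hS
  let X := T × ℝ
  let bas := TopologicalSpace.countableBasis X
  have hbas : TopologicalSpace.IsTopologicalBasis bas :=
    TopologicalSpace.isBasis_countableBasis X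
  have hcount : bas.Countable := TopologicalSpace.countable_countableBasis X
  let O : Set X → Set X := fun b => ⋃ N : ℤ, (fun p => (cyl (α : T) φ ^ N) p) ⁻¹' b
  have hO1 : ∀ b ∈ bas, IsOpen (O b) := by
    intro b hb
    exact isOpen_iUnion fun N => (hbas.isOpen hb).preimage (continuous_cyl_zpow (α : T) φ hφ N)
  have hO2 : ∀ b ∈ bas, Dense (O b) := by
    intro b hb
    rw [dense_iff_inter_open]
    intro U hU hU'
    obtain ⟨N, p, hp, hpb⟩ := htr U b hU (hbas.isOpen hb) hU'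
      (TopologicalSpace.nonempty_of_mem_countableBasis hb)
    exact ⟨p, hp, Set.mem_iUnion.2 ⟨N, hpb⟩⟩
  have hd := dense_biInter_of_isOpen hO1 hcount hO2
  obtain ⟨p, hp⟩ := hd.nonempty
  refine ⟨p, ?_⟩
  rw [hbas.dense_iff]
  intro b hb _
  have h1 := Set.mem_iInter₂.1 hp b hb
  obtain ⟨N, hN⟩ := Set.mem_iUnion.1 h1
  exact ⟨(cyl (α : T) φ ^ N) p, hN, ⟨N, rfl⟩⟩

theorem exists_discrete2 (α : T) (φ : T → ℝ)
    (hS : Tendsto (fun n => S α φ n 0) atTop atTop)
    (hS' : Tendsto (fun n : ℕ => S α φ n (0 - n • α)) atTop atTop) :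
    ∃ p, ∀ z, ¬ AccPt z (𝓟 (orbit α φ p)) := by
  refine ⟨(0, 0), fun z hz => ?_⟩
  obtain ⟨B₁, hB₁⟩ := eventually_atTop.1 (hS.eventually_ge_atTop (z.2 + 1))
  obtain ⟨B₂, hB₂⟩ := eventually_atTop.1 (hS'.eventually_ge_atTop (-z.2 + 1))
  set B := max B₁ B₂ with hBdef
  have hlarge : ∀ n : ℤ, (B : ℤ) < |n| →
      z.2 + 1 ≤ ((cyl α φ ^ n) (0, 0)).2 ∨ ((cyl α φ ^ n) (0, 0)).2 ≤ z.2 - 1 := by
    intro n hn
    rcases Int.eq_nat_or_neg n with ⟨k, rfl | rfl⟩
    · left
      rw [zpow_natCast, cyl_pow]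
      have h1 : B ≤ k := by
        rw [Nat.abs_cast] at hn
        omega
      simpa using hB₁ k ((le_max_left _ _).trans h1)
    · right
      rw [cyl_pow_neg]
      have h1 : B ≤ k := by
        rw [abs_neg, Nat.abs_cast] at hn
        omega
      have h2 := hB₂ k ((le_max_right _ _).trans h1)
      simp only at h2 ⊢
      linarith
  let F : Set (T × ℝ) := (fun n : ℤ => (cyl α φ ^ n) (0, 0)) '' Set.Icc (-(B : ℤ)) B
  have hF : F.Finite := (Set.finite_Icc _ _).image _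
  have hF' : IsClosed (F \ {z}) := (hF.subset Set.sdiff_subset).isClosed
  rw [accPt_iff_nhds] at hz
  obtain ⟨y, ⟨⟨⟨hy1, hy1'⟩, hy2⟩, ⟨n, hn⟩⟩, hy4⟩ :=
    hz (({p : T × ℝ | p.2 < z.2 + 1} ∩ {p : T × ℝ | z.2 - 1 < p.2}) ∩ (F \ {z})ᶜ)
    (Filter.inter_mem (Filter.inter_mem ((isOpen_lt continuous_snd continuous_const).mem_nhds
      (by change z.2 < z.2 + 1; linarith)) ((isOpen_lt continuous_const continuous_snd).mem_nhds
      (by change z.2 - 1 < z.2; linarith))) (hF'.isOpen_compl.mem_nhds (by simp)))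
  apply hy2
  refine ⟨⟨n, ?_, hn⟩, hy4⟩
  by_contra hcon
  have h1 : (B : ℤ) < |n| := by
    rw [Set.mem_Icc, ← abs_le] at hcon
    omega
  have h2 := hlarge n h1
  simp only at hn
  rw [hn] at h2
  have h3 : y.2 < z.2 + 1 := hy1
  have h4 : z.2 - 1 < y.2 := hy1'
  rcases h2 with h2 | h2
  · linarith
  · linarith

end Pool.Agent.Lib.MP_f73729_an
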