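import Pool.Agent.Lib.MP_f73729_an.Comp
import Pool.Agent.Lib.MP_f73729_an.TransB
import Pool.Agent.Lib.MP_f73729_an.NegMain

/-! The sum of the components, with separate time scales. -/

set_option autoImplicit false

namespace Pool.Agent.Lib.MP_f73729_an

open Finset Filter Topology

theorem constructT (α : ℝ) (hα : Irrational α) (γ : ℝ) (hγ : 0 < γ) (hγ1 : γ ≤ 1)
    (Q t : ℕ → ℕ) (B w D : ℕ → ℝ) (hQ1 : ∀ k, 1 ≤ Q k) (htm : StrictMono t)
    (hB : ∀ k, 0 < B k) (hw : ∀ k, 0 < w k) (hw1 : ∀ k, w k ≤ 1)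
    (hθ : ∀ k, ‖Q k • (α : T)‖ * t (k + 1) ≤ 1)
    (hi : ∀ k : ℕ, 2 * ∑ j ∈ range k, B j + (k : ℝ) ≤
      B k / 2 * min (t k * ‖Q k • (α : T)‖ / (4 * w k)) 1)
    (hD : ∀ k, B k * ‖Q k • (α : T)‖ / w k * ((Q k : ℝ) / w k) ^ γ ≤ D k) (hDs : Summable D) :
    ∃ φ : T → ℝ, Continuous φ ∧ (∃ C, ∀ u v, |φ u - φ v| ≤ C * ‖u - v‖ ^ γ) ∧
      (∃ p, Dense (orbit (α : T) φ p)) ∧ ∃ p, ∀ z, ¬ AccPt z (𝓟 (orbit (α : T) φ p)) := by
  classical
  choose f hfc hf0 hfb hfS hfs hfH using fun k =>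
    exists_comp α hα γ hγ hγ1 (Q k) (hQ1 k) (B k) (w k) (hB k) (hw k) (hw1 k)
  have hθ0 : ∀ k, 0 < ‖Q k • (α : T)‖ := fun k => norm_pos_iff.2 (nsmul_coe_ne_zero hα _ (hQ1 k))
  have hQr : ∀ k, (1 : ℝ) ≤ Q k := fun k => by exact_mod_cast hQ1 k
  have hfD : ∀ k x, |f k x| ≤ 100 * D k := by
    intro k x
    refine (hfs k x).trans ?_
    have h1 : 1 ≤ ((Q k : ℝ) / w k) ^ γ := by
      apply Real.one_le_rpow _ hγ.le
      rw [le_div_iff₀ (hw k)]
      linarith [hw1 k, hQr k]
    have h2 : 0 ≤ B k * ‖Q k • (α : T)‖ / w k := by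
      have := hB k; have := hw k; have := hθ0 k
      positivity
    have h3 : B k * ‖Q k • (α : T)‖ / w k ≤ D k :=
      (le_mul_of_one_le_right h2 h1).trans (hD k)
    linarith
  have hDs' : Summable (fun k => 100 * D k) := hDs.mul_left 100
  have hsum : ∀ x, Summable (fun k => f k x) := fun x =>
    Summable.of_norm_bounded hDs' (fun k => by rw [Real.norm_eq_abs]; exact hfD k x)
  set φ : T → ℝ := fun x => ∑' k, f k x with hφ
  have hφc : Continuous φ :=
    continuous_tsum hfc hDs' (fun k x => by rw [Real.norm_eq_abs]; exact hfD k x)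
  have hHS : ∀ (m : ℕ) (x : T), HasSum (fun k => S (α : T) (f k) m x) (S (α : T) φ m x) := by
    intro m x
    unfold S
    exact hasSum_sum fun j _ => (hsum _).hasSum
  -- lower bound
  have hlow : ∀ (m K : ℕ) (a : ℝ), t K ≤ 4 * m → 4 * m ≤ t (K + 1) →
      HasSum (fun k => B k * pf (w k) (m * ‖Q k • (α : T)‖)) a → (K : ℝ) ≤ a := by
    intro m K a h1 h2 ha
    have h1r : (t K : ℝ) ≤ 4 * m := by exact_mod_cast h1
    have h2r : (4 : ℝ) * m ≤ t (K + 1) := by exact_mod_cast h2
    have hsmall : ∀ k, K ≤ k → (m : ℝ) * ‖Q k • (α : T)‖ ≤ 1 / 4 := by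
      intro k hk
      have h3 : (t (K + 1) : ℝ) ≤ t (k + 1) := by exact_mod_cast htm.monotone (by omega)
      have h4 : ‖Q k • (α : T)‖ * (4 * m) ≤ ‖Q k • (α : T)‖ * t (k + 1) :=
        mul_le_mul_of_nonneg_left (h2r.trans h3) (hθ0 k).le
      have h5 := hθ k
      linarith
    have hnn : ∀ k, 0 ≤ (m : ℝ) * ‖Q k • (α : T)‖ := fun k => by positivity
    refine le_trans ?_ (sum_le_hasSum (range (K + 1)) (fun k hk => ?_) ha)
    · rw [Finset.sum_range_succ]
      have h3 : -(2 * ∑ j ∈ range K, B j) ≤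
          ∑ k ∈ range K, B k * pf (w k) (m * ‖Q k • (α : T)‖) := by
        rw [Finset.mul_sum, ← Finset.sum_neg_distrib]
        apply Finset.sum_le_sum
        intro k _
        have h4 := (abs_le.1 (abs_pf_le (w k) (m * ‖Q k • (α : T)‖))).1
        nlinarith [hB k]
      have h4 := pf_lower (hw K) (hnn K) (hsmall K le_rfl)
      have h5 : min (t K * ‖Q K • (α : T)‖ / (4 * w K)) 1 ≤
          min (m * ‖Q K • (α : T)‖ / w K) 1 := by
        apply min_le_min _ le_rfl
        rw [div_le_div_iff₀ (by have := hw K; positivity) (hw K)]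
        have h6 : t K * ‖Q K • (α : T)‖ ≤ 4 * m * ‖Q K • (α : T)‖ :=
          mul_le_mul_of_nonneg_right h1r (hθ0 K).le
        nlinarith [hw K]
      have h6 := hi K
      have h7 : B K / 2 * min (t K * ‖Q K • (α : T)‖ / (4 * w K)) 1 ≤
          B K * pf (w K) (m * ‖Q K • (α : T)‖) := by
        have h8 := hB K
        calc B K / 2 * min (t K * ‖Q K • (α : T)‖ / (4 * w K)) 1
            ≤ B K / 2 * min (m * ‖Q K • (α : T)‖ / w K) 1 :=
              mul_le_mul_of_nonneg_left h5 (by linarith)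
          _ = B K * (min (m * ‖Q K • (α : T)‖ / w K) 1 / 2) := by ring
          _ ≤ _ := mul_le_mul_of_nonneg_left h4 h8.le
      linarith
    · rw [Finset.mem_range, not_lt] at hk
      exact mul_nonneg (hB k).le (pf_nonneg (hw k) (hnn k) (hsmall k (by omega)))
  have hid : ∀ n, n ≤ t n := fun n => htm.le_apply
  have htend : ∀ F : ℕ → ℝ,
      (∀ m : ℕ, HasSum (fun k => B k * pf (w k) ((m : ℝ) * ‖Q k • (α : T)‖)) (F m)) →
      Tendsto F atTop atTop := by
    intro F hF
    rw [tendsto_atTop]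
    intro R
    obtain ⟨K₀, hK₀⟩ := exists_nat_ge R
    filter_upwards [eventually_ge_atTop (t K₀)] with m hm
    have hex : ∃ K, 4 * m < t (K + 1) := ⟨4 * m, by have := hid (4 * m + 1); omega⟩
    have h1 := Nat.find_spec hex
    have h2 : K₀ ≤ Nat.find hex := by
      by_contra hc
      push Not at hc
      have h3 : t (Nat.find hex + 1) ≤ t K₀ := htm.monotone (by omega)
      omega
    have h3 : t (Nat.find hex) ≤ 4 * m := by
      by_contra hc
      push Not at hc
      rcases Nat.eq_zero_or_pos (Nat.find hex) with h0 | h0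
      · rw [h0] at hc
        have h4 : t 0 ≤ t K₀ := htm.monotone (by omega)
        omega
      · apply Nat.find_min hex (m := Nat.find hex - 1) (by omega)
        have : Nat.find hex - 1 + 1 = Nat.find hex := by omega
        rw [this]
        exact hc
    have h4 := hlow m (Nat.find hex) (F m) h3 h1.le (hF m)
    have h5 : (K₀ : ℝ) ≤ Nat.find hex := by exact_mod_cast h2
    linarith
  have hS0 : Tendsto (fun n => S (α : T) φ n 0) atTop atTop := by
    apply htend
    intro m
    have h1 := hHS m 0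
    simp only [hf0] at h1
    exact h1
  have hSb : Tendsto (fun n : ℕ => S (α : T) φ n (0 - n • (α : T))) atTop atTop := by
    apply htend
    intro m
    have h1 := hHS m (0 - m • (α : T))
    simp only [hfb] at h1
    exact h1
  -- no sum is positive everywhere
  have hz : ∀ n : ℕ, ∃ y, S (α : T) φ n y ≤ 0 := by
    intro n
    rcases Nat.eq_zero_or_pos n with h0 | hn
    · exact ⟨0, by rw [h0, S_zero]⟩
    by_contra hcon
    push Not at hcon
    obtain ⟨y₀, -, hy₀⟩ := isCompact_univ.exists_isMinOn (s := (Set.univ : Set T)) ⟨0, trivial⟩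
      (continuous_S (α : T) hφc n).continuousOn
    set κ := S (α : T) φ n y₀ with hκ
    have hκ0 : 0 < κ := hcon y₀
    have hκy : ∀ y, κ ≤ S (α : T) φ n y := fun y => hy₀ (Set.mem_univ y)
    have hnr : (0 : ℝ) < n := by exact_mod_cast hn
    -- the tail
    have htail := tendsto_sum_nat_add (fun k => 100 * D k)
    have h1 : ∀ᶠ K : ℕ in atTop, ∑' k, 100 * D (k + K) < κ / (2 * n) :=
      htail.eventually_lt_const (by positivity)
    obtain ⟨K, hK⟩ := h1.exists
    set C₀ : ℝ := ∑ k ∈ range K, 4 * B k with hC₀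
    have hup : ∀ N : ℕ, ∀ y, S (α : T) φ N y ≤ C₀ + N * (κ / (2 * n)) := by
      intro N y
      have h2 := (hHS N y).summable
      have h3 : S (α : T) φ N y = ∑' k, S (α : T) (f k) N y := (hHS N y).tsum_eq.symm
      rw [h3, ← h2.sum_add_tsum_nat_add K]
      apply add_le_add
      · exact Finset.sum_le_sum fun k _ => (le_abs_self _).trans (hfS k N y)
      · have h4 : ∀ k, S (α : T) (f (k + K)) N y ≤ N * (100 * D (k + K)) := fun k =>
          (le_abs_self _).trans (abs_S_le (fun x => hfD (k + K) x) N y)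
        have h5 : Summable (fun k => 100 * D (k + K)) := (summable_nat_add_iff K).2 hDs'
        have h6 : Summable (fun k => (N : ℝ) * (100 * D (k + K))) := h5.mul_left _
        have h7 : Summable (fun k => S (α : T) (f (k + K)) N y) := (summable_nat_add_iff K).2 h2
        calc ∑' k, S (α : T) (f (k + K)) N y ≤ ∑' k, (N : ℝ) * (100 * D (k + K)) :=
              h7.tsum_le_tsum h4 h6
          _ = N * ∑' k, 100 * D (k + K) := tsum_mul_left
          _ ≤ N * (κ / (2 * n)) := mul_le_mul_of_nonneg_left hK.le (by positivity)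
    obtain ⟨k, hk⟩ := exists_nat_gt (C₀ / (κ / 2))
    rw [div_lt_iff₀ (by positivity)] at hk
    have h2 := S_mul_ge hκy k 0
    have h3 := hup (n * k) 0
    have h4 : ((n * k : ℕ) : ℝ) * (κ / (2 * n)) = k * (κ / 2) := by
      push_cast
      field_simp
    rw [h4] at h3
    linarith
  refine ⟨φ, hφc, ⟨200 * ∑' k, D k, fun u v => ?_⟩, exists_dense2 α hα φ hφc hz hS0,
    exists_discrete2 (α : T) φ hS0 hSb⟩
  have h1 : φ u - φ v = ∑' k, (f k u - f k v) := by
    rw [(hsum u).tsum_sub (hsum v)]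
  rw [h1, ← Real.norm_eq_abs]
  have h2 : HasSum (fun k => 200 * D k * ‖u - v‖ ^ γ) (200 * ∑' k, D k * 1 * ‖u - v‖ ^ γ) := by
    have h3 := (hDs.hasSum.mul_left 200).mul_right (‖u - v‖ ^ γ)
    have h4 : 200 * ∑' k, D k * 1 * ‖u - v‖ ^ γ = 200 * (∑' k, D k) * ‖u - v‖ ^ γ := by
      simp only [mul_one]
      rw [tsum_mul_right]
      ring
    rw [h4]
    exact h3
  refine (tsum_of_norm_bounded h2 (fun k => ?_)).trans (le_of_eq ?_)
  · rw [Real.norm_eq_abs]
    refine (hfH k u v).trans ?_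
    apply mul_le_mul_of_nonneg_right _ (by positivity)
    exact mul_le_mul_of_nonneg_left (hD k) (by norm_num)
  · simp only [mul_one]
    rw [tsum_mul_right]
    ring

end Pool.Agent.Lib.MP_f73729_an
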