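import Pool.Agent.Lib.MP_f73729_an.Window

/-! The critical case: `‖qα‖ ≤ A q^{-1/γ}` at all large best approximation denominators. -/

set_option autoImplicit false

namespace Pool.Agent.Lib.MP_f73729_an

open Finset Filter Topology

/-- the step in the critical case -/
theorem crit_step (α : ℝ) (hα : Irrational α) (φ : T → ℝ) (C γ : ℝ) (hC : 1 ≤ C)
    (hγ : 0 < γ) (hγ1 : γ ≤ 1) (h : ∀ u v, |φ u - φ v| ≤ C * ‖u - v‖ ^ γ) (x : T) (n₀ : ℕ)
    (hpos : ∀ n, n₀ ≤ n → 1 ≤ S (α : T) φ n x) (A B : ℝ) (hA : 1 ≤ A)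
    (hB : 16 * C * A ^ γ ≤ B) (l : ℝ) (hl0 : 0 ≤ l) (hl1 : l ≤ 1 - γ) (q q' : ℕ)
    (hcs : Consec α q q') (hqn : n₀ ≤ q) (hθ : ‖q • (α : T)‖ ≤ A * (q : ℝ) ^ (-(1 / γ)))
    (hSB : B ≤ S (α : T) φ q x) (hS : (q : ℝ) ^ l ≤ S (α : T) φ q x)
    (hSu : S (α : T) φ q x ≤ 3 * C * (q : ℝ) ^ (1 - γ)) :
    (16 * C) ^ (-(1 / γ)) / 8 / (2 * A) * (q' : ℝ) ^ (l * (1 + γ)) ≤ S (α : T) φ q' x := by
  have hC0 : 0 < C := by linarith
  have hA0 : 0 < A := by linarith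
  have hq : 1 ≤ q := hcs.rec1.1
  have hq0 : (0 : ℝ) < q := by exact_mod_cast hq
  have hq1 : (1 : ℝ) ≤ q := by exact_mod_cast hq
  have hqq' : (q : ℝ) ≤ q' := by exact_mod_cast hcs.lt.le
  have hq'0 : (0 : ℝ) < q' := lt_of_lt_of_le hq0 hqq'
  have hs0 : 0 < S (α : T) φ q x := lt_of_lt_of_le (by positivity) (hB.trans hSB)
  set s := S (α : T) φ q x with hs
  have hθκ : ‖q • (α : T)‖ ≤ (s / (16 * C * q)) ^ (1 / γ) := by
    refine hθ.trans ?_
    have h1 : A * (q : ℝ) ^ (-(1 / γ)) = (A ^ γ * (q : ℝ)⁻¹) ^ (1 / γ) := by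
      rw [Real.mul_rpow (by positivity) (by positivity), ← Real.rpow_mul hA0.le,
        mul_one_div_cancel hγ.ne', Real.rpow_one, Real.inv_rpow hq0.le, ← Real.rpow_neg hq0.le]
    rw [h1]
    apply Real.rpow_le_rpow (by positivity) _ (by positivity)
    rw [le_div_iff₀ (by positivity)]
    have h2 : A ^ γ * (q : ℝ)⁻¹ * (16 * C * q) = 16 * C * A ^ γ := by field_simp
    rw [h2]
    exact hB.trans hSB
  have hstep := step_ineq α hα φ C γ hC hγ hγ1 h x n₀ hpos q q' hcs hqn s hs0 le_rfl hSu hθκ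
  set e : ℝ := l + (l - 1) / γ with he
  have he0 : e ≤ 0 := by
    have h1 : e = (l * (1 + γ) - 1) / γ := by rw [he]; field_simp; ring
    rw [h1]
    apply div_nonpos_of_nonpos_of_nonneg _ hγ.le
    nlinarith
  have hγe : γ * e = l * (1 + γ) - 1 := by rw [he]; field_simp; ring
  have hκ : ((q : ℝ) ^ l / (16 * C * q)) ^ (1 / γ) * q' * (q : ℝ) ^ l / 8 =
      (16 * C) ^ (-(1 / γ)) * (q' : ℝ) * (q : ℝ) ^ e / 8 := by
    have h1 : (q : ℝ) ^ l / (16 * C * q) = (16 * C)⁻¹ * (q : ℝ) ^ (l - 1) := by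
      rw [Real.rpow_sub_one hq0.ne']
      field_simp
    rw [h1, Real.mul_rpow (by positivity) (by positivity), ← Real.rpow_mul hq0.le,
      Real.inv_rpow (by positivity), ← Real.rpow_neg (by positivity), he]
    have h2 : (q : ℝ) ^ (l + (l - 1) / γ) = (q : ℝ) ^ l * (q : ℝ) ^ ((l - 1) * (1 / γ)) := by
      rw [← Real.rpow_add hq0]
      congr 1
      ring
    rw [h2]
    ring
  have hstep' : (16 * C) ^ (-(1 / γ)) * (q' : ℝ) * (q : ℝ) ^ e / 8 ≤ S (α : T) φ q' x := by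
    rw [← hκ]
    refine le_trans ?_ hstep
    have h1 : (q : ℝ) ^ l / (16 * C * q) ≤ s / (16 * C * q) := by gcongr
    have h2 : ((q : ℝ) ^ l / (16 * C * q)) ^ (1 / γ) ≤ (s / (16 * C * q)) ^ (1 / γ) :=
      Real.rpow_le_rpow (by positivity) h1 (by positivity)
    gcongr
  -- q in terms of q'
  have hqτ : (q : ℝ) ^ (1 / γ) ≤ 2 * A * q' := by
    have h1 := hcs.low
    have h2 : ‖q • (α : T)‖ * (q + q') ≤ A * (q : ℝ) ^ (-(1 / γ)) * (2 * q') := by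
      apply mul_le_mul hθ (by linarith) (by positivity) (by positivity)
    have h3 : (q : ℝ) ^ (1 / γ) * (q : ℝ) ^ (-(1 / γ)) = 1 := by
      rw [← Real.rpow_add hq0, add_neg_cancel, Real.rpow_zero]
    have h4 : (q : ℝ) ^ (1 / γ) * 1 ≤
        (q : ℝ) ^ (1 / γ) * (A * (q : ℝ) ^ (-(1 / γ)) * (2 * q')) :=
      mul_le_mul_of_nonneg_left (h1.trans h2) (by positivity)
    have h5 : (q : ℝ) ^ (1 / γ) * (A * (q : ℝ) ^ (-(1 / γ)) * (2 * q')) =
        2 * A * q' * ((q : ℝ) ^ (1 / γ) * (q : ℝ) ^ (-(1 / γ))) := by ring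
    rw [h5, h3] at h4
    linarith
  have hqle : (q : ℝ) ≤ (2 * A * q') ^ γ := by
    have h1 : (q : ℝ) = ((q : ℝ) ^ (1 / γ)) ^ γ := by
      rw [← Real.rpow_mul hq0.le, one_div_mul_cancel hγ.ne', Real.rpow_one]
    calc (q : ℝ) = ((q : ℝ) ^ (1 / γ)) ^ γ := h1
      _ ≤ (2 * A * q') ^ γ := Real.rpow_le_rpow (by positivity) hqτ hγ.le
  have hqe : (2 * A * (q' : ℝ)) ^ (γ * e) ≤ (q : ℝ) ^ e := by
    have h1 : ((2 * A * (q' : ℝ)) ^ γ) ^ e ≤ (q : ℝ) ^ e :=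
      Real.rpow_le_rpow_of_nonpos hq0 hqle he0
    rwa [← Real.rpow_mul (by positivity)] at h1
  have h2e : 1 / (2 * A) ≤ (2 * A) ^ (γ * e) := by
    have h1 : (-1 : ℝ) ≤ γ * e := by
      rw [hγe]
      nlinarith
    have h2 : (2 * A) ^ (-1 : ℝ) ≤ (2 * A) ^ (γ * e) :=
      Real.rpow_le_rpow_of_exponent_le (by linarith) h1
    rw [Real.rpow_neg_one] at h2
    rwa [one_div]
  refine le_trans ?_ hstep'
  have h1 : 1 / (2 * A) * (q' : ℝ) ^ (γ * e) ≤ (q : ℝ) ^ e := by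
    refine le_trans ?_ hqe
    rw [Real.mul_rpow (by positivity) hq'0.le]
    exact mul_le_mul_of_nonneg_right h2e (by positivity)
  have h2 : (q' : ℝ) ^ (l * (1 + γ)) = q' * (q' : ℝ) ^ (γ * e) := by
    have h3 : l * (1 + γ) = 1 + γ * e := by rw [hγe]; ring
    rw [h3, Real.rpow_add hq'0, Real.rpow_one]
  rw [h2]
  have h3 : 0 ≤ (16 * C) ^ (-(1 / γ)) * (q' : ℝ) / 8 := by positivity
  have h4 := mul_le_mul_of_nonneg_left h1 h3
  calc (16 * C) ^ (-(1 / γ)) / 8 / (2 * A) * (q' * (q' : ℝ) ^ (γ * e))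
      = (16 * C) ^ (-(1 / γ)) * (q' : ℝ) / 8 * (1 / (2 * A) * (q' : ℝ) ^ (γ * e)) := by
        field_simp
    _ ≤ (16 * C) ^ (-(1 / γ)) * (q' : ℝ) / 8 * (q : ℝ) ^ e := h4
    _ = _ := by ring

/-- too large Birkhoff sums at all large records are impossible -/
theorem no_large {α : ℝ} (hα : Irrational α) {φ : T → ℝ} {C γ : ℝ} (hC : 1 ≤ C) (hγ : 0 < γ)
    (hγ1 : γ ≤ 1) (h : ∀ u v, |φ u - φ v| ≤ C * ‖u - v‖ ^ γ)
    (hz : ∀ n : ℕ, 1 ≤ n → ∃ y, S (α : T) φ n y ≤ 0) (x : T) (l : ℝ) (hl : 1 - γ < l)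
    (hP : ∃ Q : ℕ, ∀ q, Q ≤ q → IsRec α q → (q : ℝ) ^ l ≤ S (α : T) φ q x) : False := by
  obtain ⟨Q, hQ⟩ := hP
  obtain ⟨M, hM, hM'⟩ := exists_pow_ge (3 * C + 1) (l - (1 - γ)) (by linarith)
  obtain ⟨r, hr1, hr2⟩ := rec_unbounded α hα (max Q (max M 2))
  have hrQ : Q ≤ r := (le_max_left _ _).trans hr1
  have hrM : M ≤ r := (le_max_left _ _).trans ((le_max_right _ _).trans hr1)
  have hr22 : 2 ≤ r := (le_max_right _ _).trans ((le_max_right _ _).trans hr1)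
  obtain ⟨p, hp⟩ := exists_pred α hα r hr2 hr22
  have h1 := top_bound hC hγ hγ1 h hz hp x
  have h2 := hQ r hrQ hr2
  have h3 := hM' r hrM
  have hr0 : (0 : ℝ) < r := by exact_mod_cast hr2.1
  have h4 : (r : ℝ) ^ l = (r : ℝ) ^ (l - (1 - γ)) * (r : ℝ) ^ (1 - γ) := by
    rw [← Real.rpow_add hr0]
    congr 1
    ring
  have h5 : 0 < (r : ℝ) ^ (1 - γ) := by positivity
  have h6 : (3 * C + 1) * (r : ℝ) ^ (1 - γ) ≤ (r : ℝ) ^ l := by
    rw [h4]
    exact mul_le_mul_of_nonneg_right h3 h5.le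
  linarith

theorem crit_main (α : ℝ) (hα : Irrational α) (φ : T → ℝ) (C γ : ℝ) (hC : 1 ≤ C)
    (hγ : 0 < γ) (hγ1 : γ ≤ 1) (h : ∀ u v, |φ u - φ v| ≤ C * ‖u - v‖ ^ γ)
    (hz : ∀ n : ℕ, 1 ≤ n → ∃ y, S (α : T) φ n y ≤ 0) (x : T)
    (hinf : ∀ R : ℝ, ∃ n₀ : ℕ, ∀ n, n₀ ≤ n → R ≤ S (α : T) φ n x)
    (A : ℝ) (hA : 1 ≤ A) (Q₁ : ℕ) :
    ∃ q : ℕ, Q₁ ≤ q ∧ IsRec α q ∧ A * (q : ℝ) ^ (-(1 / γ)) < ‖q • (α : T)‖ := by
  by_contra hcon
  push Not at hcon
  have hC0 : 0 < C := by linarith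
  have hA0 : 0 < A := by linarith
  set d : ℝ := (16 * C) ^ (-(1 / γ)) / 8 / (2 * A) with hd
  have hd0 : 0 < d := by positivity
  -- the constant B
  obtain ⟨B, hB1, hB2, hB3⟩ : ∃ B : ℝ, 2 ≤ B ∧ 16 * C * A ^ γ ≤ B ∧ 1 ≤ d * B ^ γ := by
    refine ⟨max 2 (max (16 * C * A ^ γ) ((1 / d) ^ (1 / γ))), le_max_left _ _,
      (le_max_left _ _).trans (le_max_right _ _), ?_⟩
    have h1 : ((1 / d) ^ (1 / γ)) ≤ max 2 (max (16 * C * A ^ γ) ((1 / d) ^ (1 / γ))) :=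
      (le_max_right _ _).trans (le_max_right _ _)
    have h2 := Real.rpow_le_rpow (by positivity) h1 hγ.le
    rw [← Real.rpow_mul (by positivity), one_div_mul_cancel hγ.ne', Real.rpow_one,
      div_le_iff₀ hd0] at h2
    linarith
  obtain ⟨n₀, hn₀⟩ := hinf B
  have hpos : ∀ n, n₀ ≤ n → 1 ≤ S (α : T) φ n x := fun n hn => by
    have := hn₀ n hn
    linarith
  rcases eq_or_lt_of_le hγ1 with hγe | hγlt
  · -- Lipschitz
    obtain ⟨n₁, hn₁⟩ := hinf (3 * C + 1)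
    obtain ⟨r, hr1, hr2⟩ := rec_unbounded α hα (max n₁ 2)
    obtain ⟨p, hp⟩ := exists_pred α hα r hr2 ((le_max_right _ _).trans hr1)
    have h1 := top_bound hC hγ hγ1 h hz hp x
    have h2 := hn₁ r ((le_max_left _ _).trans hr1)
    rw [hγe, sub_self, Real.rpow_zero] at h1
    linarith
  · -- the step for all λ
    have hstep : ∀ l : ℝ, 0 ≤ l → l ≤ 1 - γ → ∀ q q' : ℕ, Consec α q q' →
        max n₀ (max Q₁ 2) ≤ q → (q : ℝ) ^ l ≤ S (α : T) φ q x →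
        d * (q' : ℝ) ^ (l * (1 + γ)) ≤ S (α : T) φ q' x := by
      intro l hl0 hl1 q q' hcs hq hS
      have hqn : n₀ ≤ q := (le_max_left _ _).trans hq
      have hqQ : Q₁ ≤ q := (le_max_left _ _).trans ((le_max_right _ _).trans hq)
      have hq2 : 2 ≤ q := (le_max_right _ _).trans ((le_max_right _ _).trans hq)
      obtain ⟨p, hp⟩ := exists_pred α hα q hcs.rec1 hq2
      exact crit_step α hα φ C γ hC hγ hγ1 h x n₀ hpos A B hA hB2 l hl0 hl1 q q' hcs hqn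
        (hcon q hqQ hcs.rec1) (hn₀ q hqn) hS (top_bound hC hγ hγ1 h hz hp x)
    -- the start
    obtain ⟨M, hM, hM'⟩ := exists_pow_ge B (1 - γ) (by linarith)
    obtain ⟨q₀, hq₀1, hq₀2⟩ := rec_unbounded α hα (max M (max n₀ (max Q₁ 2)))
    have hq₀M : M ≤ q₀ := (le_max_left _ _).trans hq₀1
    have hq₀n : max n₀ (max Q₁ 2) ≤ q₀ := (le_max_right _ _).trans hq₀1
    have hq₀2' : 2 ≤ q₀ := (le_max_right _ _).trans ((le_max_right _ _).trans hq₀n)
    have hq₀r : (1 : ℝ) < q₀ := by exact_mod_cast (by omega : 1 < q₀)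
    set l₀ : ℝ := Real.logb q₀ B with hl₀
    have hl₀pos : 0 < l₀ := Real.logb_pos hq₀r (by linarith)
    have hpow : (q₀ : ℝ) ^ l₀ = B := Real.rpow_logb (by linarith) (by linarith) (by linarith)
    have hl₀1 : l₀ ≤ 1 - γ := by
      have h1 := hM' q₀ hq₀M
      rw [← hpow] at h1
      exact (Real.rpow_le_rpow_left_iff hq₀r).1 h1
    have hstart : ∀ q : ℕ, q₀ ≤ q → IsRec α q → (q : ℝ) ^ l₀ ≤ S (α : T) φ q x := by
      intro q
      induction q using Nat.strong_induction_on with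
      | _ q ih =>
        intro hq hr
        rcases Nat.eq_or_lt_of_le hq with h1 | h1
        · rw [← h1, hpow]
          exact hn₀ q₀ ((le_max_left _ _).trans hq₀n)
        · obtain ⟨p, hp⟩ := exists_pred α hα q hr (by omega)
          have hqp : q₀ ≤ p := hp.le_of_rec hq₀2 h1
          have h2 := ih p hp.lt hqp hp.rec1
          have h3 := hstep l₀ hl₀pos.le hl₀1 p q hp (hq₀n.trans hqp) h2
          refine le_trans ?_ h3
          have hq0 : (0 : ℝ) < q := by exact_mod_cast hr.1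
          have h4 : (q : ℝ) ^ (l₀ * (1 + γ)) = (q : ℝ) ^ l₀ * ((q : ℝ) ^ l₀) ^ γ := by
            rw [← Real.rpow_mul hq0.le, ← Real.rpow_add hq0]
            congr 1
            ring
          have h5 : B ≤ (q : ℝ) ^ l₀ := by
            rw [← hpow]
            exact Real.rpow_le_rpow (by linarith) (by exact_mod_cast hq) hl₀pos.le
          have h6 : B ^ γ ≤ ((q : ℝ) ^ l₀) ^ γ := Real.rpow_le_rpow (by linarith) h5 hγ.le
          have h7 : 1 ≤ d * ((q : ℝ) ^ l₀) ^ γ :=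
            hB3.trans (mul_le_mul_of_nonneg_left h6 hd0.le)
          rw [h4]
          have h8 : 0 ≤ (q : ℝ) ^ l₀ := by positivity
          calc (q : ℝ) ^ l₀ = (q : ℝ) ^ l₀ * 1 := by ring
            _ ≤ (q : ℝ) ^ l₀ * (d * ((q : ℝ) ^ l₀) ^ γ) := mul_le_mul_of_nonneg_left h7 h8
            _ = _ := by ring
    -- growth of the exponent
    have hgrow : ∀ l : ℝ, 0 < l → l ≤ 1 - γ →
        (∃ Q : ℕ, ∀ q, Q ≤ q → IsRec α q → (q : ℝ) ^ l ≤ S (α : T) φ q x) →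
        ∃ Q : ℕ, ∀ q, Q ≤ q → IsRec α q → (q : ℝ) ^ (l * (1 + γ / 2)) ≤ S (α : T) φ q x := by
      rintro l hl0 hl1 ⟨Q, hQ⟩
      obtain ⟨M', hM1, hM2⟩ := exists_pow_ge (1 / d) (l * (γ / 2)) (by positivity)
      obtain ⟨N, hN2, hN⟩ := pred_large α hα (max Q (max n₀ (max Q₁ 2)))
      refine ⟨max M' N, fun q hq hr => ?_⟩
      have hqM : M' ≤ q := (le_max_left _ _).trans hq
      have hqN : N ≤ q := (le_max_right _ _).trans hq
      obtain ⟨p, hp⟩ := exists_pred α hα q hr (hN2.trans hqN)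
      have hpN := hN p q hp hqN
      have h1 := hQ p ((le_max_left _ _).trans hpN) hp.rec1
      have h2 := hstep l hl0.le hl1 p q hp ((le_max_right _ _).trans hpN) h1
      refine le_trans ?_ h2
      have hq0 : (0 : ℝ) < q := by exact_mod_cast hr.1
      have h3 : (q : ℝ) ^ (l * (1 + γ)) =
          (q : ℝ) ^ (l * (1 + γ / 2)) * (q : ℝ) ^ (l * (γ / 2)) := by
        rw [← Real.rpow_add hq0]
        congr 1
        ring
      have h4 := hM2 q hqM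
      rw [div_le_iff₀ hd0] at h4
      rw [h3]
      have h8 : 0 ≤ (q : ℝ) ^ (l * (1 + γ / 2)) := by positivity
      calc (q : ℝ) ^ (l * (1 + γ / 2)) = (q : ℝ) ^ (l * (1 + γ / 2)) * 1 := by ring
        _ ≤ (q : ℝ) ^ (l * (1 + γ / 2)) * ((q : ℝ) ^ (l * (γ / 2)) * d) :=
          mul_le_mul_of_nonneg_left h4 h8
        _ = _ := by ring
    have hpowk : ∀ k : ℕ, (∀ j < k, l₀ * (1 + γ / 2) ^ j ≤ 1 - γ) →
        ∃ Q : ℕ, ∀ q, Q ≤ q → IsRec α q →
          (q : ℝ) ^ (l₀ * (1 + γ / 2) ^ k) ≤ S (α : T) φ q x := by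
      intro k
      induction k with
      | zero =>
        intro _
        rw [pow_zero, mul_one]
        exact ⟨q₀, hstart⟩
      | succ k ih =>
        intro hk
        have h1 := ih (fun j hj => hk j (by omega))
        have h2 := hgrow _ (by positivity) (hk k (by omega)) h1
        rw [pow_succ, ← mul_assoc]
        exact h2
    classical
    have hex : ∃ k : ℕ, 1 - γ < l₀ * (1 + γ / 2) ^ k := by
      obtain ⟨k, hk⟩ := pow_unbounded_of_one_lt ((1 - γ) / l₀) (by linarith : 1 < 1 + γ / 2)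
      refine ⟨k, ?_⟩
      rw [div_lt_iff₀ hl₀pos] at hk
      linarith
    have hk1 := Nat.find_spec hex
    have hk2 : ∀ j < Nat.find hex, l₀ * (1 + γ / 2) ^ j ≤ 1 - γ := fun j hj => by
      have := Nat.find_min hex hj
      push Not at this
      exact this
    exact no_large hα hC hγ hγ1 h hz x _ hk1 (hpowk _ hk2)

end Pool.Agent.Lib.MP_f73729_an
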