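import Mathlib

/-! Cylindrical transformations over a rotation of the circle: Birkhoff sums, a criterion for
topological transitivity and discrete orbits. -/

set_option autoImplicit false

namespace Pool.Agent.Lib.MP_f73729_an

open Finset Filter Topology

/-- The circle. -/
abbrev T := UnitAddCircle

/-- Birkhoff sums over the rotation by `α`. -/
noncomputable def S (α : T) (φ : T → ℝ) (n : ℕ) (x : T) : ℝ := ∑ j ∈ range n, φ (x + j • α)

/-- The cylindrical transformation. -/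
noncomputable def cyl (α : T) (φ : T → ℝ) : Equiv.Perm (T × ℝ) where
  toFun p := (p.1 + α, p.2 + φ p.1)
  invFun p := (p.1 - α, p.2 - φ (p.1 - α))
  left_inv p := by ext <;> simp
  right_inv p := by ext <;> simp

/-- The two-sided orbit. -/
noncomputable def orbit (α : T) (φ : T → ℝ) (p : T × ℝ) : Set (T × ℝ) :=
  Set.range fun n : ℤ => (cyl α φ ^ n) p

theorem S_zero (α : T) (φ : T → ℝ) (x : T) : S α φ 0 x = 0 := by simp [S]

theorem S_add (α : T) (φ : T → ℝ) (m n : ℕ) (x : T) :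
    S α φ (m + n) x = S α φ m x + S α φ n (x + m • α) := by
  unfold S
  rw [Finset.sum_range_add]
  congr 1
  apply Finset.sum_congr rfl
  intro j _
  rw [add_smul, add_assoc]

theorem S_comm (α : T) (φ : T → ℝ) (m n : ℕ) (x : T) :
    S α φ n (x + m • α) - S α φ n x = S α φ m (x + n • α) - S α φ m x := by
  have h1 := S_add α φ m n x
  have h2 := S_add α φ n m x
  rw [add_comm n m] at h2
  linarith

theorem S_one (α : T) (φ : T → ℝ) (x : T) : S α φ 1 x = φ x := by simp [S]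

theorem continuous_S (α : T) {φ : T → ℝ} (hφ : Continuous φ) (n : ℕ) :
    Continuous (S α φ n) := by
  unfold S
  fun_prop

theorem cyl_pow (α : T) (φ : T → ℝ) (n : ℕ) (p : T × ℝ) :
    (cyl α φ ^ n) p = (p.1 + n • α, p.2 + S α φ n p.1) := by
  induction n with
  | zero => simp [S_zero]
  | succ n ih =>
    rw [pow_succ', Equiv.Perm.mul_apply, ih]
    have h := S_add α φ n 1 p.1
    rw [S_one] at h
    rw [h]
    ext
    · simp only [cyl, Equiv.coe_fn_mk]
      rw [add_smul, one_smul, add_assoc]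
    · simp only [cyl, Equiv.coe_fn_mk]
      ring

theorem cyl_pow_neg (α : T) (φ : T → ℝ) (n : ℕ) (p : T × ℝ) :
    (cyl α φ ^ (-(n : ℤ))) p = (p.1 - n • α, p.2 - S α φ n (p.1 - n • α)) := by
  rw [zpow_neg, zpow_natCast]
  rw [Equiv.Perm.inv_eq_iff_eq]
  rw [cyl_pow]
  ext <;> simp

theorem exists_nat_lt_pow (x y : ℕ) : x ≤ x + y := Nat.le_add_right _ _

/-- multiples of an irrational number close to zero, beyond any bound -/
theorem exists_small (α : ℝ) (ε : ℝ) (hε : 0 < ε) (B : ℕ) :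
    ∃ N : ℕ, B ≤ N ∧ 1 ≤ N ∧ ‖(N : ℕ) • (α : T)‖ < ε := by
  obtain ⟨n, hn⟩ := exists_nat_gt ((B + 1 : ℝ) / ε)
  have hn0 : 0 < n := by
    have : (0 : ℝ) < n := lt_trans (by positivity) hn
    exact_mod_cast this
  obtain ⟨k, hk0, hkn, hk⟩ := Real.exists_nat_abs_mul_sub_round_le α hn0
  refine ⟨(B + 1) * k, ?_, ?_, ?_⟩
  · nlinarith
  · nlinarith
  · have h1 : ‖(k : ℕ) • (α : T)‖ ≤ 1 / (n + 1) := by
      have h2 : (k : ℕ) • (α : T) = (((k : ℝ) * α : ℝ) : T) := by
        rw [← nsmul_eq_mul, AddCircle.coe_nsmul]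
      rw [h2, UnitAddCircle.norm_eq]
      exact hk
    have h3 : ‖((B + 1) * k : ℕ) • (α : T)‖ ≤ (B + 1) * ‖(k : ℕ) • (α : T)‖ := by
      rw [mul_smul]
      refine (norm_nsmul_le).trans ?_
      push_cast
      exact le_rfl
    refine h3.trans_lt ?_
    have h4 : (B + 1 : ℝ) * ‖(k : ℕ) • (α : T)‖ ≤ (B + 1) * (1 / (n + 1)) := by gcongr
    refine h4.trans_lt ?_
    rw [mul_one_div, div_lt_iff₀ (by positivity)]
    rw [div_lt_iff₀ hε] at hn
    nlinarith

/-- forward orbits of irrational rotations are dense -/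
theorem exists_close (α : ℝ) (hα : Irrational α) (z : T) (ε : ℝ) (hε : 0 < ε) :
    ∃ m : ℕ, ‖z - m • (α : T)‖ < ε := by
  have hd : DenseRange (fun n : ℤ => n • (α : T)) := by
    have := (AddCircle.denseRange_zsmul_coe_iff (a := α) (p := 1)).2 (by simpa using hα)
    exact this
  obtain ⟨k, hk⟩ := hd.exists_dist_lt z (half_pos hε)
  obtain ⟨N, hN1, -, hN2⟩ := exists_small α (ε / 2) (half_pos hε) k.natAbs
  have hkN : 0 ≤ k + N := by omega
  refine ⟨(k + N).toNat, ?_⟩
  have h1 : ((k + N).toNat : ℕ) • (α : T) = k • (α : T) + N • (α : T) := by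
    rw [← natCast_zsmul, Int.toNat_of_nonneg hkN, add_smul, natCast_zsmul]
  rw [h1, dist_eq_norm] at *
  calc ‖z - (k • (α : T) + N • (α : T))‖ = ‖(z - k • (α : T)) - N • (α : T)‖ := by
        congr 1; abel
    _ ≤ ‖z - k • (α : T)‖ + ‖N • (α : T)‖ := norm_sub_le _ _
    _ < ε / 2 + ε / 2 := add_lt_add hk hN2
    _ = ε := by ring

theorem exists_rep (v : T) : ∃ s : ℝ, (s : T) = v ∧ |s| = ‖v‖ := by
  induction v using QuotientAddGroup.induction_on with
  | H x =>
    refine ⟨x - round x, ?_, ?_⟩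
    · have : ((x - round x : ℝ) : T) = (x : T) - ((round x : ℝ) : T) := by
        rw [AddCircle.coe_sub]
      rw [this]
      have h2 : ((round x : ℝ) : T) = 0 := by
        rw [AddCircle.coe_eq_zero_iff]
        exact ⟨round x, by simp⟩
      rw [h2, sub_zero]
    · exact (UnitAddCircle.norm_eq (x := x)).symm

theorem norm_coe_le (s : ℝ) : ‖(s : T)‖ ≤ |s| := by
  rw [UnitAddCircle.norm_eq]
  have := round_le s 0
  simpa using this

theorem S_neg (α : T) (φ : T → ℝ) (hodd : ∀ x, φ (-x) = -φ x) (n : ℕ) :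
    S α φ n (α - n • α) = -S α φ n 0 := by
  unfold S
  rw [← Finset.sum_range_reflect, ← Finset.sum_neg_distrib]
  apply Finset.sum_congr rfl
  intro j hj
  rw [Finset.mem_range] at hj
  rw [← hodd]
  congr 1
  have h1 : (n - 1 - j : ℕ) • α + (j + 1) • α = n • α := by
    rw [← add_smul]
    congr 1
    omega
  rw [← h1, add_smul, one_smul]
  abel

/-- Every real number is attained by Birkhoff sums on returns to a given arc. -/
theorem essential (α : ℝ) (hα : Irrational α) (φ : T → ℝ) (hφ : Continuous φ)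
    (hodd : ∀ x, φ (-x) = -φ x) (hS : Tendsto (fun n => S (α : T) φ n 0) atTop atTop)
    (u₀ : T) (ρ : ℝ) (hρ : 0 < ρ) (r : ℝ) :
    ∃ (n : ℕ) (u : T), ‖u - u₀‖ < ρ ∧ ‖u + n • (α : T) - u₀‖ < ρ ∧ S (α : T) φ n u = r := by
  -- finitely many translates
  obtain ⟨M, hM⟩ : ∃ M : ℕ, ∀ z : T, ∃ m < M, ‖z - m • (α : T) - u₀‖ < ρ / 2 := by
    obtain ⟨t, ht⟩ := isCompact_univ.elim_finite_subcover
      (fun m : ℕ => {z : T | ‖z - m • (α : T) - u₀‖ < ρ / 2})
      (fun m => isOpen_lt (by fun_prop) continuous_const)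
      (by
        intro z _
        obtain ⟨m, hm⟩ := exists_close α hα (z - u₀) (ρ / 2) (half_pos hρ)
        rw [Set.mem_iUnion]
        refine ⟨m, ?_⟩
        have h1 : z - m • (α : T) - u₀ = z - u₀ - m • (α : T) := by abel
        change ‖z - m • (α : T) - u₀‖ < ρ / 2
        rw [h1]; exact hm)
    refine ⟨t.sup id + 1, fun z => ?_⟩
    have h1 := ht (Set.mem_univ z)
    rw [Set.mem_iUnion₂] at h1
    obtain ⟨m, hm, hz⟩ := h1
    exact ⟨m, Nat.lt_succ_of_le (Finset.le_sup (f := id) hm), hz⟩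
  -- uniform continuity
  obtain ⟨κ, hκ, hκu⟩ : ∃ κ > 0, ∀ h : T, ‖h‖ < κ → ∀ m ∈ Finset.range M, ∀ u : T,
      |S (α : T) φ m (u + h) - S (α : T) φ m u| < 1 := by
    have h1 : ∀ᶠ h : T in 𝓝 0, ∀ m ∈ Finset.range M, ∀ u : T,
        |S (α : T) φ m (u + h) - S (α : T) φ m u| < 1 := by
      rw [Filter.eventually_all_finset]
      intro m _
      have h2 := CompactSpace.uniformContinuous_of_continuous (continuous_S (α : T) hφ m)
      rw [Metric.uniformContinuous_iff] at h2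
      obtain ⟨δ, hδ, h3⟩ := h2 1 one_pos
      rw [Metric.eventually_nhds_iff]
      refine ⟨δ, hδ, fun h hh u => ?_⟩
      have h4 := @h3 (u + h) u (by
        rw [dist_eq_norm, add_sub_cancel_left]
        rwa [dist_zero_right] at hh)
      rwa [Real.dist_eq] at h4
    rw [Metric.eventually_nhds_iff] at h1
    obtain ⟨κ, hκ, h2⟩ := h1
    exact ⟨κ, hκ, fun h hh => h2 (by rwa [dist_zero_right])⟩
  obtain ⟨B, hB⟩ := eventually_atTop.1 (hS.eventually_ge_atTop (|r| + 1))
  obtain ⟨n, hn1, hn2, hn3⟩ := exists_small α (min κ (ρ / 2)) (lt_min hκ (half_pos hρ)) B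
  have hV := hB n hn1
  -- two points
  obtain ⟨m₁, hm₁, hz₁⟩ := hM 0
  obtain ⟨m₂, hm₂, hz₂⟩ := hM ((α : T) - n • (α : T))
  set u₁ : T := 0 - m₁ • (α : T) with hu₁
  set u₂ : T := (α : T) - n • (α : T) - m₂ • (α : T) with hu₂
  have hs₁ : r < S (α : T) φ n u₁ := by
    have h1 := S_comm (α : T) φ m₁ n u₁
    have h2 := hκu (n • (α : T)) (hn3.trans_le (min_le_left _ _)) m₁ (Finset.mem_range.2 hm₁) u₁
    rw [← h1] at h2
    have h3 : u₁ + m₁ • (α : T) = 0 := by rw [hu₁]; abel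
    rw [h3] at h2
    have h4 := (abs_lt.1 h2).2
    have h5 := le_abs_self r
    linarith
  have hs₂ : S (α : T) φ n u₂ < r := by
    have h1 := S_comm (α : T) φ m₂ n u₂
    have h2 := hκu (n • (α : T)) (hn3.trans_le (min_le_left _ _)) m₂ (Finset.mem_range.2 hm₂) u₂
    rw [← h1] at h2
    have h3 : u₂ + m₂ • (α : T) = (α : T) - n • (α : T) := by rw [hu₂]; abel
    rw [h3, S_neg _ _ hodd] at h2
    have h4 := (abs_lt.1 h2).1
    have h5 := neg_abs_le r
    linarith
  obtain ⟨s₁, hs₁u, hs₁n⟩ := exists_rep (u₁ - u₀)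
  obtain ⟨s₂, hs₂u, hs₂n⟩ := exists_rep (u₂ - u₀)
  have hg : Continuous (fun s : ℝ => S (α : T) φ n (u₀ + (s : T))) :=
    (continuous_S (α : T) hφ n).comp (continuous_const.add (AddCircle.continuous_mk' 1))
  have hivt := intermediate_value_uIcc (a := s₂) (b := s₁)
    (f := fun s : ℝ => S (α : T) φ n (u₀ + (s : T))) hg.continuousOn
  have hr : r ∈ Set.uIcc (S (α : T) φ n (u₀ + (s₂ : T))) (S (α : T) φ n (u₀ + (s₁ : T))) := by
    rw [hs₂u, hs₁u, add_sub_cancel, add_sub_cancel]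
    exact Set.Icc_subset_uIcc ⟨hs₂.le, hs₁.le⟩
  obtain ⟨s, hs, hsr⟩ := hivt hr
  have hsabs : |s| < ρ / 2 := by
    have h1 : |s₁| < ρ / 2 := by rw [hs₁n]; exact hz₁
    have h2 : |s₂| < ρ / 2 := by rw [hs₂n]; exact hz₂
    rw [abs_lt] at *
    rcases Set.mem_uIcc.1 hs with h | h
    · exact ⟨by linarith [h.1], by linarith [h.2]⟩
    · exact ⟨by linarith [h.1], by linarith [h.2]⟩
  refine ⟨n, u₀ + (s : T), ?_, ?_, hsr⟩
  · rw [add_sub_cancel_left]
    exact (norm_coe_le s).trans_lt (by linarith)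
  · have h1 : u₀ + (s : T) + n • (α : T) - u₀ = (s : T) + n • (α : T) := by abel
    rw [h1]
    have h2 := norm_add_le (s : T) (n • (α : T))
    have h3 := norm_coe_le s
    have h4 := hn3.trans_le (min_le_right _ _)
    linarith

/-- topological transitivity, open sets version -/
theorem transitive (α : ℝ) (hα : Irrational α) (φ : T → ℝ) (hφ : Continuous φ)
    (hodd : ∀ x, φ (-x) = -φ x) (hS : Tendsto (fun n => S (α : T) φ n 0) atTop atTop)
    (A B : Set (T × ℝ)) (hA : IsOpen A) (hB : IsOpen B) (hA' : A.Nonempty) (hB' : B.Nonempty) :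
    ∃ N : ℕ, ∃ p ∈ A, (cyl (α : T) φ ^ N) p ∈ B := by
  obtain ⟨⟨a, y⟩, ha⟩ := hA'
  obtain ⟨⟨b, y'⟩, hb⟩ := hB'
  obtain ⟨ρ₁, hρ₁, h₁⟩ := Metric.isOpen_iff.1 hA _ ha
  obtain ⟨ρ₂, hρ₂, h₂⟩ := Metric.isOpen_iff.1 hB _ hb
  obtain ⟨m, hm⟩ := exists_close α hα (b - a) (ρ₂ / 2) (half_pos hρ₂)
  have hc := continuous_S (α : T) hφ m
  obtain ⟨δ, hδ, h₃⟩ := Metric.continuousAt_iff.1 (hc.continuousAt (x := a)) ρ₂ hρ₂
  set κ := min (min ρ₁ (ρ₂ / 2)) δ with hκ
  have hκ0 : 0 < κ := lt_min (lt_min hρ₁ (half_pos hρ₂)) hδ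
  obtain ⟨n, u, hu1, hu2, hu3⟩ := essential α hα φ hφ hodd hS a κ hκ0
    (y' - y - S (α : T) φ m a)
  refine ⟨n + m, (u, y), h₁ ?_, h₂ ?_⟩
  · rw [Metric.mem_ball, Prod.dist_eq]
    simp only [dist_self]
    rw [max_lt_iff]
    refine ⟨?_, hρ₁⟩
    rw [dist_eq_norm]
    exact hu1.trans_le ((min_le_left _ _).trans (min_le_left _ _))
  · rw [cyl_pow, Metric.mem_ball, Prod.dist_eq, max_lt_iff]
    constructor
    · change dist (u + (n + m) • (α : T)) b < ρ₂
      rw [dist_eq_norm]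
      have h4 : u + (n + m) • (α : T) - b =
          (u + n • (α : T) - a) - (b - a - m • (α : T)) := by
        rw [add_smul]; abel
      rw [h4]
      have h5 := norm_sub_le (u + n • (α : T) - a) (b - a - m • (α : T))
      have h6 : κ ≤ ρ₂ / 2 := (min_le_left _ _).trans (min_le_right _ _)
      linarith
    · change dist (y + S (α : T) φ (n + m) u) y' < ρ₂
      rw [S_add, hu3, Real.dist_eq]
      have h7 := @h₃ (u + n • (α : T)) (by
        rw [dist_eq_norm]
        exact hu2.trans_le (min_le_right _ _))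
      rw [Real.dist_eq] at h7
      have h8 : y + (y' - y - S (α : T) φ m a + S (α : T) φ m (u + n • (α : T))) - y' =
          S (α : T) φ m (u + n • (α : T)) - S (α : T) φ m a := by ring
      rw [h8]
      exact h7

theorem continuous_cyl_pow (α : T) (φ : T → ℝ) (hφ : Continuous φ) (n : ℕ) :
    Continuous (fun p => (cyl α φ ^ n) p) := by
  have h : (fun p => (cyl α φ ^ n) p) = fun p => (p.1 + n • α, p.2 + S α φ n p.1) := by
    funext p; exact cyl_pow α φ n p
  rw [h]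
  have h2 := continuous_S α hφ n
  fun_prop

theorem exists_dense (α : T) (φ : T → ℝ) (hφ : Continuous φ)
    (htr : ∀ A B : Set (T × ℝ), IsOpen A → IsOpen B → A.Nonempty → B.Nonempty →
      ∃ N : ℕ, ∃ p ∈ A, (cyl α φ ^ N) p ∈ B) : ∃ p, Dense (orbit α φ p) := by
  let X := T × ℝ
  let bas := TopologicalSpace.countableBasis X
  have hbas : TopologicalSpace.IsTopologicalBasis bas :=
    TopologicalSpace.isBasis_countableBasis X
  have hcount : bas.Countable := TopologicalSpace.countable_countableBasis X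
  let O : Set X → Set X := fun b => ⋃ N : ℕ, (fun p => (cyl α φ ^ N) p) ⁻¹' b
  have hO1 : ∀ b ∈ bas, IsOpen (O b) := by
    intro b hb
    exact isOpen_iUnion fun N => (hbas.isOpen hb).preimage (continuous_cyl_pow α φ hφ N)
  have hO2 : ∀ b ∈ bas, Dense (O b) := by
    intro b hb
    rw [dense_iff_inter_open]
    intro U hU hU'
    obtain ⟨N, p, hp, hpb⟩ := htr U b hU (hbas.isOpen hb) hU'
      (TopologicalSpace.nonempty_of_mem_countableBasis hb)
    exact ⟨p, hp, Set.mem_iUnion.2 ⟨N, hpb⟩⟩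
  have hd := dense_biInter_of_isOpen hO1 hcount hO2
  obtain ⟨p, hp⟩ := hd.nonempty
  refine ⟨p, ?_⟩
  rw [hbas.dense_iff]
  intro b hb _
  have h1 := Set.mem_iInter₂.1 hp b hb
  obtain ⟨N, hN⟩ := Set.mem_iUnion.1 h1
  exact ⟨(cyl α φ ^ N) p, hN, ⟨(N : ℤ), by
    change (cyl α φ ^ (N : ℤ)) p = _
    rw [zpow_natCast]⟩⟩

theorem exists_discrete (α : T) (φ : T → ℝ) (hodd : ∀ x, φ (-x) = -φ x)
    (hS : Tendsto (fun n => S α φ n 0) atTop atTop) :
    ∃ p, ∀ z, ¬ AccPt z (𝓟 (orbit α φ p)) := by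
  refine ⟨(0, 0), fun z hz => ?_⟩
  obtain ⟨B, hB⟩ := eventually_atTop.1 (hS.eventually_ge_atTop (z.2 + 1))
  have hneg : ∀ n : ℕ, -S α φ n (0 - n • α) = S α φ (n + 1) 0 := by
    intro n
    have h1 : S α φ (n + 1) 0 = φ 0 + S α φ n α := by
      rw [add_comm, S_add, S_one]; simp
    have h0 : φ 0 = 0 := by
      have := hodd 0
      rw [neg_zero] at this
      linarith
    rw [h1, h0, zero_add]
    unfold S
    rw [← Finset.sum_range_reflect, ← Finset.sum_neg_distrib]
    apply Finset.sum_congr rfl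
    intro j hj
    rw [Finset.mem_range] at hj
    rw [← hodd]
    congr 1
    have h2 : (n - 1 - j : ℕ) • α + (j + 1) • α = n • α := by
      rw [← add_smul]
      congr 1
      omega
    rw [← h2, add_smul, one_smul]
    abel
  have hlarge : ∀ n : ℤ, (B : ℤ) < |n| → z.2 + 1 ≤ ((cyl α φ ^ n) (0, 0)).2 := by
    intro n hn
    rcases Int.eq_nat_or_neg n with ⟨k, rfl | rfl⟩
    · rw [zpow_natCast, cyl_pow]
      have : B ≤ k := by
        rw [Nat.abs_cast] at hn
        omega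
      simpa using hB k this
    · rw [cyl_pow_neg]
      have h1 : B ≤ k := by
        rw [abs_neg, Nat.abs_cast] at hn
        omega
      have h2 := hneg k
      simp only
      rw [zero_sub, h2]
      exact hB (k + 1) (by omega)
  let F : Set (T × ℝ) := (fun n : ℤ => (cyl α φ ^ n) (0, 0)) '' Set.Icc (-(B : ℤ)) B
  have hF : F.Finite := (Set.finite_Icc _ _).image _
  have hF' : IsClosed (F \ {z}) := (hF.subset Set.sdiff_subset).isClosed
  rw [accPt_iff_nhds] at hz
  obtain ⟨y, ⟨⟨hy1, hy2⟩, ⟨n, hn⟩⟩, hy4⟩ := hz ({p : T × ℝ | p.2 < z.2 + 1} ∩ (F \ {z})ᶜ)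
    (Filter.inter_mem ((isOpen_lt continuous_snd continuous_const).mem_nhds
      (by change z.2 < z.2 + 1; linarith)) (hF'.isOpen_compl.mem_nhds (by simp)))
  apply hy2
  refine ⟨⟨n, ?_, hn⟩, hy4⟩
  by_contra hcon
  have h1 : (B : ℤ) < |n| := by
    rw [Set.mem_Icc, ← abs_le] at hcon
    omega
  have h2 := hlarge n h1
  simp only at hn
  rw [hn] at h2
  have h3 : y.2 < z.2 + 1 := hy1
  linarith

end Pool.Agent.Lib.MP_f73729_an
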