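import Pool.Agent.Lib.MP_f73729_an.Crit

/-! The exact Hölder exponent over rotations of regular type. -/

set_option autoImplicit false

namespace Pool.Agent.Lib.MP_f73729_an

open Finset Filter Topology

/-- every index has a strict record below it -/
theorem exists_rec_le (α : ℝ) (q : ℕ) (hq : 1 ≤ q) :
    ∃ r : ℕ, r ≤ q ∧ IsRec α r ∧ ‖r • (α : T)‖ ≤ ‖q • (α : T)‖ := by
  classical
  have hex : ∃ r : ℕ, (1 ≤ r ∧ r ≤ q) ∧
      ∀ m : ℕ, 1 ≤ m → m ≤ q → ‖r • (α : T)‖ ≤ ‖m • (α : T)‖ := by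
    obtain ⟨r, hr, hr'⟩ := Finset.exists_min_image (Finset.Icc 1 q)
      (fun m : ℕ => ‖m • (α : T)‖) ⟨1, by simp; omega⟩
    rw [Finset.mem_Icc] at hr
    exact ⟨r, hr, fun m h1 h2 => hr' m (Finset.mem_Icc.2 ⟨h1, h2⟩)⟩
  obtain ⟨⟨h3, h4⟩, h5⟩ := Nat.find_spec hex
  refine ⟨Nat.find hex, h4, ⟨h3, fun m hm hmr => ?_⟩, h5 q hq le_rfl⟩
  by_contra hcon
  push Not at hcon
  exact Nat.find_min hex hmr ⟨⟨hm, hmr.le.trans h4⟩, fun k hk1 hk2 => hcon.trans (h5 k hk1 hk2)⟩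

/-- a lower bound at the records is a lower bound everywhere -/
theorem lower_all (α : ℝ) (τ c : ℝ) (hτ : 0 ≤ τ) (hc : 0 < c)
    (h : ∀ q, IsRec α q → c / (q : ℝ) ^ τ ≤ ‖q • (α : T)‖) (q : ℕ) (hq : 0 < q) :
    c / (q : ℝ) ^ τ ≤ ‖q • (α : T)‖ := by
  obtain ⟨r, hr1, hr2, hr3⟩ := exists_rec_le α q hq
  refine le_trans ?_ ((h r hr2).trans hr3)
  have hr0 : (0 : ℝ) < r := by exact_mod_cast hr2.1
  apply div_le_div_of_nonneg_left hc.le (by positivity)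
  exact Real.rpow_le_rpow hr0.le (by exact_mod_cast hr1) hτ

end Pool.Agent.Lib.MP_f73729_an
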