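import Mathlib

/-! The exponents of the denominators and of the Birkhoff sums: an elementary recursion. -/

set_option autoImplicit false

namespace Pool.Agent.Lib.MP_f73729_an

theorem exists_exponents (γ τ : ℝ) (hγ : 0 < γ) (hγ1 : γ < 1) (hτ1 : 1 < τ)
    (hτ : τ * γ ^ 2 < 1) : ∃ (δ : ℝ) (σ l : ℕ → ℝ), 0 < δ ∧ (∀ k, 1 + δ ≤ σ k) ∧
      (∀ k, σ k ≤ τ) ∧ (∀ k, 0 ≤ l k) ∧ (∀ k, l k ≤ 1 - γ - δ) ∧ (∀ k, l k + δ ≤ σ k * l (k + 1)) ∧
      (∀ k, σ k * (1 - l (k + 1)) ≤ (1 - l k - δ) / γ - l k - δ) ∧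
      ∀ K, ∃ k, K ≤ k ∧ σ k = τ := by
  have hg : 0 < 1 / γ - τ * γ := by
    rw [sub_pos, lt_div_iff₀ hγ]
    nlinarith
  obtain ⟨d, hd0, hd1, hdτ, hdγ, hdg⟩ : ∃ d : ℝ, 0 < d ∧ d ≤ 1 ∧ d ≤ τ - 1 ∧ 3 * d ≤ 1 - γ ∧
      d * (1 / γ + 1 + 2 * τ) ≤ 1 / γ - τ * γ := by
    have hA : 0 < 1 / γ + 1 + 2 * τ := by
      have : 0 < 1 / γ := by positivity
      linarith
    refine ⟨min (min 1 (τ - 1)) (min ((1 - γ) / 3) ((1 / γ - τ * γ) / (1 / γ + 1 + 2 * τ))),
      ?_, ?_, ?_, ?_, ?_⟩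
    · refine lt_min (lt_min one_pos (by linarith)) (lt_min (by linarith) (div_pos hg hA))
    · exact (min_le_left _ _).trans (min_le_left _ _)
    · exact (min_le_left _ _).trans (min_le_right _ _)
    · have := (min_le_right (min 1 (τ - 1))
        (min ((1 - γ) / 3) ((1 / γ - τ * γ) / (1 / γ + 1 + 2 * τ)))).trans (min_le_left _ _)
      linarith
    · have := (min_le_right (min 1 (τ - 1))
        (min ((1 - γ) / 3) ((1 / γ - τ * γ) / (1 / γ + 1 + 2 * τ)))).trans (min_le_right _ _)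
      exact (le_div_iff₀ hA).1 this
  obtain ⟨δ, hδ⟩ : ∃ δ : ℝ, δ = d ^ 2 / 8 := ⟨_, rfl⟩
  obtain ⟨s, hs⟩ : ∃ s : ℝ, s = 1 + d / 2 := ⟨_, rfl⟩
  obtain ⟨L, hL⟩ : ∃ L : ℝ, L = 1 - γ - 2 * d := ⟨_, rfl⟩
  have hδ0 : 0 < δ := by rw [hδ]; positivity
  have hδd : δ ≤ d / 8 := by rw [hδ]; nlinarith
  have hs0 : 0 < s := by rw [hs]; positivity
  have hLd : d ≤ L := by rw [hL]; linarith
  obtain ⟨f, hf⟩ : ∃ f : ℝ → ℝ, f = fun x => if x ≤ d / 2 then L else (x + δ) / s := ⟨_, rfl⟩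
  have hf1 : ∀ x, x ≤ d / 2 → f x = L := fun x hx => by rw [hf]; simp only [if_pos hx]
  have hf2 : ∀ x, ¬ x ≤ d / 2 → f x = (x + δ) / s := fun x hx => by
    rw [hf]; simp only [if_neg hx]
  obtain ⟨l, hl⟩ : ∃ l : ℕ → ℝ, l = fun k => f^[k] L := ⟨_, rfl⟩
  have hl0 : l 0 = L := by rw [hl]; rfl
  have hlS : ∀ k, l (k + 1) = f (l k) := fun k => by
    rw [hl]; exact Function.iterate_succ_apply' f k L
  have hinv : ∀ k, 0 ≤ l k ∧ l k ≤ L := by
    intro k
    induction k with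
    | zero => rw [hl0]; exact ⟨by linarith, le_rfl⟩
    | succ k ih =>
      rw [hlS]
      by_cases h : l k ≤ d / 2
      · rw [hf1 _ h]; exact ⟨by linarith, le_rfl⟩
      · rw [hf2 _ h]
        refine ⟨div_nonneg (by linarith [ih.1]) hs0.le, ?_⟩
        rw [div_le_iff₀ hs0, hs]
        nlinarith [ih.2]
  refine ⟨δ, fun k => if l k ≤ d / 2 then τ else s, l, hδ0, ?_, ?_, fun k => (hinv k).1, ?_, ?_, ?_,
    ?_⟩
  · intro k
    by_cases h : l k ≤ d / 2
    · simp only [if_pos h]; linarith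
    · simp only [if_neg h]; linarith
  · intro k
    by_cases h : l k ≤ d / 2
    · simp only [if_pos h]; exact le_rfl
    · simp only [if_neg h]; linarith
  · intro k
    have := (hinv k).2
    linarith
  · intro k
    by_cases h : l k ≤ d / 2
    · simp only [if_pos h]
      rw [hlS, hf1 _ h]
      nlinarith
    · simp only [if_neg h]
      rw [hlS, hf2 _ h, mul_div_cancel₀ _ hs0.ne']
  · intro k
    by_cases h : l k ≤ d / 2
    · simp only [if_pos h]
      rw [hlS, hf1 _ h]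
      have h1 : (1 - l k - δ) / γ = 1 / γ - (l k + δ) * (1 / γ) := by
        field_simp
        ring
      rw [h1, hL]
      have h2 : 0 < 1 / γ := by positivity
      have h3 : (l k + δ) * (1 / γ) ≤ d * (1 / γ) := mul_le_mul_of_nonneg_right (by linarith) h2.le
      nlinarith
    · simp only [if_neg h]
      rw [hlS, hf2 _ h]
      have h1 : s * (1 - (l k + δ) / s) = s - (l k + δ) := by
        field_simp
      rw [h1]
      have h2 : s ≤ (1 - l k - δ) / γ := by
        rw [le_div_iff₀ hγ, hs]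
        have := (hinv k).2
        nlinarith
      linarith
  · intro K
    by_contra hcon
    push Not at hcon
    have hbig : ∀ k, K ≤ k → ¬ l k ≤ d / 2 := by
      intro k hk h
      exact hcon k hk (by simp only [if_pos h])
    have hrec : ∀ n, l (K + n) - d / 4 = (l K - d / 4) / s ^ n := by
      intro n
      induction n with
      | zero => simp
      | succ n ih =>
        rw [← add_assoc, hlS, hf2 _ (hbig (K + n) (by omega)), pow_succ, ← div_div, ← ih]
        rw [hδ]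
        have : s ≠ 0 := hs0.ne'
        field_simp
        rw [hs]
        ring
    have hs1 : 1 < s := by rw [hs]; linarith
    obtain ⟨n, hn⟩ := pow_unbounded_of_one_lt ((l K - d / 4) / (d / 4)) hs1
    have h1 := hrec n
    have h2 := hbig (K + n) (by omega)
    push Not at h2
    have h3 : (l K - d / 4) / s ^ n < d / 4 := by
      rw [div_lt_iff₀ (by positivity)]
      rw [div_lt_iff₀ (by positivity)] at hn
      linarith
    linarith

end Pool.Agent.Lib.MP_f73729_an
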