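import Pool.Agent.Lib.MP_f73729_an.Constr

/-! Hölder continuity of the cocycle, and the main theorem. -/

set_option autoImplicit false

namespace Pool.Agent.Lib.MP_f73729_an

open Finset Filter Topology

theorem tent_sub_le_rpow {w : ℝ} (hw : 0 < w) {γ : ℝ} (hγ : 0 < γ) (hγ1 : γ ≤ 1) (u v : T) :
    |tent w u - tent w v| ≤ (‖u - v‖ / w) ^ γ := by
  have h1 := tent_sub_le hw u v
  have h2 := tent_sub_le_one hw u v
  set t := ‖u - v‖ / w with ht
  have ht0 : 0 ≤ t := by positivity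
  rcases eq_or_lt_of_le ht0 with h0 | h0
  · rw [← h0, Real.zero_rpow hγ.ne']
    rw [← h0] at h1
    exact h1
  · rcases le_total t 1 with h3 | h3
    · have h4 : t ^ (1 : ℝ) ≤ t ^ γ := Real.rpow_le_rpow_of_exponent_ge h0 h3 hγ1
      rw [Real.rpow_one] at h4
      exact h1.trans h4
    · exact h2.trans (Real.one_le_rpow h3 hγ.le)

theorem Wid.hoelder {α : T} {w : ℕ → ℝ} (h : Wid α w) (c τ γ : ℝ) (hc : 0 < c) (hτ : 0 ≤ τ)
    (hγ : 0 < γ) (hγ1 : γ ≤ 1) (hτγ : τ * γ < 1)
    (hd : ∀ q : ℕ, 0 < q → c / (q : ℝ) ^ τ ≤ ‖q • α‖) :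
    ∃ C, ∀ u v, |phi α w u - phi α w v| ≤ C * ‖u - v‖ ^ γ := by
  classical
  set s : ℝ := (1 - τ * γ) / 2 with hs
  have hs0 : 0 < s := by rw [hs]; linarith
  obtain ⟨K, hK0, hK⟩ := lac_sum s hs0
  obtain ⟨C₁, hC₁, hC₁'⟩ := coef_le s hs0
  set C₂ : ℝ := 2 * (C₁ * ((2 / c) ^ γ * 4 ^ (τ * γ))) with hC₂
  have hC₂0 : 0 < C₂ := by positivity
  refine ⟨2 * (C₂ * K), fun u v => ?_⟩
  set d := ‖u - v‖ with hd'
  have hd0 : 0 ≤ d := norm_nonneg _
  -- bound for one index
  have hone : ∀ i : ℕ, 1 ≤ i → 2 * (coef i * (d / w i) ^ γ) ≤ C₂ * d ^ γ * (i : ℝ) ^ (-s) := by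
    intro i hi
    have hi0 : (0 : ℝ) < i := by exact_mod_cast hi
    have hw := h.pos i hi
    have h1 : (w i)⁻¹ ≤ 2 / c * (4 * i) ^ τ := by
      obtain ⟨m, hm1, hm2, hm3⟩ := h.eq i hi
      have h2 := hd m hm1
      have hm0 : (0 : ℝ) < m := by exact_mod_cast hm1
      have h3 : (m : ℝ) ^ τ ≤ (4 * (i : ℝ)) ^ τ :=
        Real.rpow_le_rpow hm0.le (by exact_mod_cast hm2) hτ
      have h4 : c / (4 * (i : ℝ)) ^ τ ≤ 2 * w i := by
        rw [hm3]
        refine le_trans ?_ h2
        apply div_le_div_of_nonneg_left hc.le (by positivity) h3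
      have h5 : (0 : ℝ) < (4 * (i : ℝ)) ^ τ := by positivity
      rw [inv_le_iff_one_le_mul₀ hw]
      rw [div_le_iff₀ h5] at h4
      have h6 : 2 / c * (4 * (i : ℝ)) ^ τ * w i = (2 * w i * (4 * (i : ℝ)) ^ τ) / c := by ring
      rw [h6, le_div_iff₀ hc, one_mul]
      exact h4
    have h2 : (d / w i) ^ γ ≤ d ^ γ * ((2 / c) ^ γ * 4 ^ (τ * γ) * (i : ℝ) ^ (τ * γ)) := by
      rw [div_eq_mul_inv, Real.mul_rpow hd0 (by positivity)]
      apply mul_le_mul_of_nonneg_left _ (by positivity)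
      have h3 : ((w i)⁻¹) ^ γ ≤ (2 / c * (4 * i) ^ τ) ^ γ :=
        Real.rpow_le_rpow (by positivity) h1 hγ.le
      refine h3.trans (le_of_eq ?_)
      rw [Real.mul_rpow (by positivity) (by positivity), ← Real.rpow_mul (by positivity),
        Real.mul_rpow (by norm_num) hi0.le]
      ring
    have h3 := hC₁' i hi
    have h4 : (i : ℝ) ^ (-(1 - s)) * (i : ℝ) ^ (τ * γ) = (i : ℝ) ^ (-s) := by
      rw [← Real.rpow_add hi0]
      congr 1
      rw [hs]; ring
    calc 2 * (coef i * (d / w i) ^ γ)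
        ≤ 2 * ((C₁ * (i : ℝ) ^ (-(1 - s))) *
            (d ^ γ * ((2 / c) ^ γ * 4 ^ (τ * γ) * (i : ℝ) ^ (τ * γ)))) := by
          have := coef_nonneg i
          unfold coef at this ⊢
          gcongr
      _ = C₂ * d ^ γ * ((i : ℝ) ^ (-(1 - s)) * (i : ℝ) ^ (τ * γ)) := by rw [hC₂]; ring
      _ = _ := by rw [h4]
  -- the majorants
  have hmaj : ∀ x : T, Summable (fun i => if i ∈ hits α w x then 2 * (coef i * (d / w i) ^ γ) else 0) ∧
      ∑' i, (if i ∈ hits α w x then 2 * (coef i * (d / w i) ^ γ) else 0) ≤ C₂ * d ^ γ * K := by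
    intro x
    refine summable_of_lac s K hK (hits α w x) (fun i hi => hi.1) (h.lac x) _ (C₂ * d ^ γ)
      (by positivity) ?_ ?_ ?_
    · intro i
      split_ifs with hi
      · have := h.pos i hi.1
        have := coef_nonneg i
        positivity
      · exact le_rfl
    · intro i hi
      exact if_neg hi
    · intro i hi
      rw [if_pos hi]
      exact hone i hi.1
  have hterm : ∀ i, |term α w i u - term α w i v| ≤
      (if i ∈ hits α w u then 2 * (coef i * (d / w i) ^ γ) else 0) +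
      (if i ∈ hits α w v then 2 * (coef i * (d / w i) ^ γ) else 0) := by
    intro i
    by_cases hi : i ∈ hits α w u ∨ i ∈ hits α w v
    · have hi1 : 1 ≤ i := by rcases hi with hi | hi <;> exact hi.1
      have hw := h.pos i hi1
      have hcoef := coef_nonneg i
      have h1 := tent_sub_le_rpow hw hγ hγ1 (u - i • α) (v - i • α)
      have h2 := tent_sub_le_rpow hw hγ hγ1 (u + i • α) (v + i • α)
      rw [sub_sub_sub_cancel_right] at h1
      rw [add_sub_add_right_eq_sub] at h2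
      have h3 : |term α w i u - term α w i v| ≤ 2 * (coef i * (d / w i) ^ γ) := by
        unfold term
        have h4 : coef i * (tent (w i) (u - i • α) - tent (w i) (u + i • α)) -
            coef i * (tent (w i) (v - i • α) - tent (w i) (v + i • α)) =
            coef i * ((tent (w i) (u - i • α) - tent (w i) (v - i • α)) -
              (tent (w i) (u + i • α) - tent (w i) (v + i • α))) := by ring
        rw [h4, abs_mul, abs_of_nonneg hcoef]
        have h5 := abs_sub (tent (w i) (u - i • α) - tent (w i) (v - i • α))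
          (tent (w i) (u + i • α) - tent (w i) (v + i • α))
        calc _ ≤ coef i * ((d / w i) ^ γ + (d / w i) ^ γ) := by
              apply mul_le_mul_of_nonneg_left _ hcoef
              exact h5.trans (add_le_add h1 h2)
          _ = _ := by ring
      have h6 : 0 ≤ 2 * (coef i * (d / w i) ^ γ) := by positivity
      refine h3.trans ?_
      by_cases hu : i ∈ hits α w u
      · rw [if_pos hu]
        have : (0 : ℝ) ≤ (if i ∈ hits α w v then 2 * (coef i * (d / w i) ^ γ) else 0) := by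
          split_ifs
          · exact h6
          · exact le_rfl
        linarith
      · have hv : i ∈ hits α w v := by tauto
        rw [if_neg hu, if_pos hv, zero_add]
    · push Not at hi
      rw [h.term_eq_zero hi.1, h.term_eq_zero hi.2, if_neg hi.1, if_neg hi.2]
      simp
  have hsum : Summable (fun i => |term α w i u - term α w i v|) :=
    Summable.of_nonneg_of_le (fun i => abs_nonneg _) hterm ((hmaj u).1.add (hmaj v).1)
  have h1 : phi α w u - phi α w v = ∑' i, (term α w i u - term α w i v) := by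
    rw [(h.summable_term u).tsum_sub (h.summable_term v)]
    rfl
  rw [h1]
  have h2 : |∑' i, (term α w i u - term α w i v)| ≤ ∑' i, |term α w i u - term α w i v| := by
    have := norm_tsum_le_tsum_norm (f := fun i => term α w i u - term α w i v)
      (by simpa only [Real.norm_eq_abs] using hsum)
    simpa only [Real.norm_eq_abs] using this
  refine h2.trans ?_
  have h3 := hsum.tsum_le_tsum hterm ((hmaj u).1.add (hmaj v).1)
  rw [(hmaj u).1.tsum_add (hmaj v).1] at h3
  have h4 := (hmaj u).2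
  have h5 := (hmaj v).2
  calc _ ≤ _ := h3
    _ ≤ C₂ * d ^ γ * K + C₂ * d ^ γ * K := add_le_add h4 h5
    _ = 2 * (C₂ * K) * d ^ γ := by ring

theorem nsmul_coe_ne_zero {α : ℝ} (hα : Irrational α) (m : ℕ) (hm : 1 ≤ m) :
    m • (α : T) ≠ 0 := by
  rw [← AddCircle.coe_nsmul, Ne, AddCircle.coe_eq_zero_iff]
  rintro ⟨k, hk⟩
  rw [zsmul_one, nsmul_eq_mul] at hk
  have h1 : Irrational ((m : ℝ) * α) := by
    have := hα.natCast_mul (m := m) (by omega)
    exact this
  exact h1 ⟨(k : ℚ), by rw [← hk]; simp⟩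

/-- Main theorem. -/
theorem main (α : ℝ) (hα : Irrational α) : ∃ φ : T → ℝ, Continuous φ ∧
    ((∃ p, Dense (orbit (α : T) φ p)) ∧ ∃ p, ∀ z, ¬ AccPt z (𝓟 (orbit (α : T) φ p))) ∧
    ∀ τ γ : ℝ, 0 < γ → γ ≤ 1 → τ * γ < 1 →
      (∃ c > 0, ∀ q : ℕ, 0 < q → c / (q : ℝ) ^ τ ≤ ‖q • (α : T)‖) →
      ∃ C, ∀ u v, |φ u - φ v| ≤ C * ‖u - v‖ ^ γ := by
  obtain ⟨w, hw⟩ := exists_wid (α : T) (nsmul_coe_ne_zero hα)
  have hc := hw.continuous_phi
  have hodd := phi_neg (α : T) w
  have hS := hw.tendsto_S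
  refine ⟨phi (α : T) w, hc, ⟨?_, ?_⟩, ?_⟩
  · exact exists_dense (α : T) _ hc (fun A B => transitive α hα _ hc hodd hS A B)
  · exact exists_discrete (α : T) _ hodd hS
  · rintro τ γ hγ hγ1 hτγ ⟨c, hc0, hd⟩
    rcases le_or_gt 0 τ with hτ | hτ
    · exact hw.hoelder c τ γ hc0 hτ hγ hγ1 hτγ hd
    · refine hw.hoelder c 0 γ hc0 le_rfl hγ hγ1 (by linarith) (fun q hq => ?_)
      refine le_trans ?_ (hd q hq)
      have hq1 : (1 : ℝ) ≤ q := by exact_mod_cast hq
      have h1 : (q : ℝ) ^ τ ≤ (q : ℝ) ^ (0 : ℝ) := Real.rpow_le_rpow_of_exponent_le hq1 hτ.le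
      apply div_le_div_of_nonneg_left hc0.le (by positivity) h1

/-- Diophantine property of almost every number -/
theorem ae_diophantine : ∀ᵐ α : ℝ, Irrational α ∧ ∀ τ : ℝ, 1 < τ →
    ∃ c > 0, ∀ q : ℕ, 0 < q → c / (q : ℝ) ^ τ ≤ ‖q • (α : T)‖ := by
  have hirr : ∀ᵐ α : ℝ, Irrational α := by
    have := (Set.countable_range ((↑) : ℚ → ℝ)).ae_notMem MeasureTheory.volume
    filter_upwards [this] with α hα
    exact hα
  filter_upwards [hirr, ae_not_liouvilleWith] with α hα hL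
  refine ⟨hα, fun τ hτ => ?_⟩
  have h1 := hL (τ + 1) (by linarith)
  unfold LiouvilleWith at h1
  push Not at h1
  have h2 := h1 1
  obtain ⟨n₀, hn₀⟩ := eventually_atTop.1 h2
  obtain ⟨w, hw⟩ := exists_wid (α : T) (nsmul_coe_ne_zero hα)
  have hw0 := hw.pos (n₀ + 1) (by omega)
  refine ⟨min 1 (2 * w (n₀ + 1)), lt_min one_pos (by linarith), fun q hq => ?_⟩
  have hq0 : (0 : ℝ) < q := by exact_mod_cast hq
  have hq1 : (1 : ℝ) ≤ q := by exact_mod_cast hq
  have hqτ : (1 : ℝ) ≤ (q : ℝ) ^ τ := Real.one_le_rpow hq1 (by linarith)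
  rcases Nat.lt_or_ge q n₀ with h3 | h3
  · have h4 := hw.le (n₀ + 1) (by omega) q hq (by omega)
    refine le_trans ?_ h4
    refine le_trans ?_ (min_le_right 1 (2 * w (n₀ + 1)))
    exact div_le_self (le_min zero_le_one (by linarith)) hqτ
  · have h4 := hn₀ q h3 (round ((q : ℝ) * α)) (by
      intro hcon
      apply hα
      exact ⟨(round ((q : ℝ) * α) : ℚ) / q, by push_cast; exact hcon.symm⟩)
    have h5 : ‖q • (α : T)‖ = |(q : ℝ) * α - round ((q : ℝ) * α)| := by
      rw [← AddCircle.coe_nsmul, nsmul_eq_mul, UnitAddCircle.norm_eq]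
    have h6 : |α - (round ((q : ℝ) * α) : ℤ) / (q : ℝ)| = ‖q • (α : T)‖ / q := by
      rw [h5, ← abs_of_pos hq0, ← abs_div, abs_of_pos hq0]
      congr 1
      field_simp
    rw [h6, le_div_iff₀ hq0] at h4
    refine le_trans ?_ h4
    refine (div_le_div_of_nonneg_right (min_le_left _ _) (by positivity)).trans (le_of_eq ?_)
    rw [Real.rpow_add hq0, Real.rpow_one]
    field_simp

end Pool.Agent.Lib.MP_f73729_an
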