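import Pool.Agent.Lib.MP_f73729_an.Hoelder

/-! Badly approximable numbers: modulus of continuity `t log² (1/t)`. -/

set_option autoImplicit false

namespace Pool.Agent.Lib.MP_f73729_an

open Finset Filter Topology

/-- scaled lacunary sums -/
theorem lac_sum_ge (F : Finset ℕ) : ∀ A : ℝ, 1 ≤ A → (∀ i ∈ F, A ≤ (i : ℝ)) →
    (∀ i ∈ F, ∀ j ∈ F, i < j → 3 * i < j) →
    ∑ i ∈ F, (i : ℝ) ^ (-(1 / 2) : ℝ) ≤ 3 * A ^ (-(1 / 2) : ℝ) := by
  induction F using Finset.induction_on_min with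
  | empty =>
    intro A hA _ _
    rw [Finset.sum_empty]
    positivity
  | insert a s ha ih =>
    intro A hA h1 h2
    have hna : a ∉ s := fun h => absurd (ha a h) (lt_irrefl _)
    rw [Finset.sum_insert hna]
    have ha1 := h1 a (Finset.mem_insert_self _ _)
    have ha0 : (1 : ℝ) ≤ a := hA.trans ha1
    have h3 := ih (3 * a) (by linarith) (by
      intro i hi
      have := h2 a (Finset.mem_insert_self _ _) i (Finset.mem_insert_of_mem hi) (ha i hi)
      exact_mod_cast this.le) (fun i hi j hj => h2 i (Finset.mem_insert_of_mem hi) j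
        (Finset.mem_insert_of_mem hj))
    have h4 : (3 * (a : ℝ)) ^ (-(1 / 2) : ℝ) = 3 ^ (-(1 / 2) : ℝ) * (a : ℝ) ^ (-(1 / 2) : ℝ) :=
      Real.mul_rpow (by norm_num) (by linarith)
    have h5 : (3 : ℝ) ^ (-(1 / 2) : ℝ) ≤ 2 / 3 := by
      rw [Real.rpow_neg (by norm_num), ← Real.sqrt_eq_rpow]
      rw [inv_le_comm₀ (by positivity) (by norm_num)]
      apply Real.le_sqrt_of_sq_le
      norm_num
    have h6 : (a : ℝ) ^ (-(1 / 2) : ℝ) ≤ A ^ (-(1 / 2) : ℝ) :=
      Real.rpow_le_rpow_of_nonpos (by linarith) ha1 (by norm_num)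
    have h7 : 0 ≤ (a : ℝ) ^ (-(1 / 2) : ℝ) := by positivity
    rw [h4] at h3
    nlinarith

theorem lac_card (F : Finset ℕ) (A : ℕ) (h0 : ∀ i ∈ F, 1 ≤ i) (h1 : ∀ i ∈ F, i ≤ A)
    (h2 : ∀ i ∈ F, ∀ j ∈ F, i < j → 3 * i < j) : F.card ≤ Nat.log 3 A + 1 := by
  have hinj : Set.InjOn (Nat.log 3) (F : Set ℕ) := by
    intro i hi j hj hij
    rw [Finset.mem_coe] at hi hj
    by_contra hne
    rcases Nat.lt_or_gt_of_ne hne with h | h
    · have h3 := h2 i hi j hj h
      have h4 : Nat.log 3 (3 * i) ≤ Nat.log 3 j := Nat.log_mono_right h3.le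
      rw [mul_comm, Nat.log_mul_base (by norm_num) (by have := h0 i hi; omega)] at h4
      omega
    · have h3 := h2 j hj i hi h
      have h4 : Nat.log 3 (3 * j) ≤ Nat.log 3 i := Nat.log_mono_right h3.le
      rw [mul_comm, Nat.log_mul_base (by norm_num) (by have := h0 j hj; omega)] at h4
      omega
  have h3 : F.image (Nat.log 3) ⊆ Finset.range (Nat.log 3 A + 1) := by
    intro k hk
    obtain ⟨i, hi, rfl⟩ := Finset.mem_image.1 hk
    rw [Finset.mem_range]
    have := Nat.log_mono_right (b := 3) (h1 i hi)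
    omega
  have h4 := Finset.card_le_card h3
  rw [Finset.card_image_of_injOn hinj, Finset.card_range] at h4
  exact h4

theorem coef_le_scaled (A i : ℕ) (hA : 1 ≤ A) (hi : A ≤ i) :
    coef i ≤ (2 + Real.log (A + 1)) * (A : ℝ) ^ (-(1 / 2) : ℝ) * (i : ℝ) ^ (-(1 / 2) : ℝ) := by
  have hA0 : (0 : ℝ) < A := by exact_mod_cast hA
  have hA1 : (1 : ℝ) ≤ A := by exact_mod_cast hA
  have hAi : (A : ℝ) ≤ i := by exact_mod_cast hi
  have hi0 : (0 : ℝ) < i := hA0.trans_le hAi
  have hr1 : 1 ≤ (i : ℝ) / A := by rwa [le_div_iff₀ hA0, one_mul]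
  have h1 : Real.log (i + 1) ≤ Real.log ((i : ℝ) / A) + Real.log (A + 1) := by
    rw [← Real.log_mul (by positivity) (by positivity)]
    apply Real.log_le_log (by positivity)
    rw [div_mul_eq_mul_div, le_div_iff₀ hA0]
    nlinarith
  have h2 : Real.log ((i : ℝ) / A) ≤ ((i : ℝ) / A) ^ (1 / 2 : ℝ) / (1 / 2) :=
    Real.log_le_rpow_div (by positivity) (by norm_num)
  have h3 : 1 ≤ ((i : ℝ) / A) ^ (1 / 2 : ℝ) := Real.one_le_rpow hr1 (by norm_num)
  have h4 : 0 ≤ Real.log ((A : ℝ) + 1) := Real.log_nonneg (by linarith)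
  have h5 : Real.log (i + 1) ≤ (2 + Real.log (A + 1)) * ((i : ℝ) / A) ^ (1 / 2 : ℝ) := by
    nlinarith
  have h6 : ((i : ℝ) / A) ^ (1 / 2 : ℝ) / i = (A : ℝ) ^ (-(1 / 2) : ℝ) * (i : ℝ) ^ (-(1 / 2) : ℝ) := by
    rw [Real.div_rpow hi0.le hA0.le, Real.rpow_neg hA0.le, Real.rpow_neg hi0.le]
    have h7 : (i : ℝ) = (i : ℝ) ^ (1 / 2 : ℝ) * (i : ℝ) ^ (1 / 2 : ℝ) := by
      rw [← Real.rpow_add hi0]; norm_num
    have h8 : (0 : ℝ) < (i : ℝ) ^ (1 / 2 : ℝ) := by positivity
    have h9 : (0 : ℝ) < (A : ℝ) ^ (1 / 2 : ℝ) := by positivity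
    nth_rewrite 2 [h7]
    field_simp
  unfold coef
  calc Real.log (i + 1) / i ≤ (2 + Real.log (A + 1)) * ((i : ℝ) / A) ^ (1 / 2 : ℝ) / i := by
        gcongr
    _ = (2 + Real.log (A + 1)) * (((i : ℝ) / A) ^ (1 / 2 : ℝ) / i) := by ring
    _ = _ := by rw [h6]; ring

/-- the function of one point whose sums bound the oscillation -/
noncomputable def gb (α : T) (w : ℕ → ℝ) (d : ℝ) (x : T) (i : ℕ) : ℝ :=
  open Classical in if i ∈ hits α w x then 2 * (coef i * min 1 (d / w i)) else 0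

theorem Wid.gb_sum {α : T} {w : ℕ → ℝ} (h : Wid α w) (c : ℝ) (hc : 0 < c) (hc1 : c ≤ 1)
    (hd : ∀ q : ℕ, 0 < q → c / (q : ℝ) ≤ ‖q • α‖) (d : ℝ) (hd0 : 0 < d) (hd1 : d ≤ 1 / 2)
    (x : T) (F : Finset ℕ) :
    ∑ i ∈ F, gb α w d x i ≤ 200 / c * (d * (1 + |Real.log d|) ^ 2) := by
  classical
  set A : ℕ := ⌈1 / d⌉₊ with hA
  have hAge : 1 / d ≤ (A : ℝ) := Nat.le_ceil _
  have hAle : (A : ℝ) ≤ 1 / d + 1 := (Nat.ceil_lt_add_one (by positivity)).le
  have hd2 : 2 ≤ 1 / d := by rw [le_div_iff₀ hd0]; linarith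
  have hA2 : (2 : ℝ) ≤ A := hd2.trans hAge
  have hA1 : 1 ≤ A := by
    have : (1 : ℝ) ≤ A := by linarith
    exact_mod_cast this
  have hA0 : (0 : ℝ) < A := by linarith
  set L : ℝ := 1 + |Real.log d| with hL
  have hL1 : 1 ≤ L := by
    have := abs_nonneg (Real.log d)
    linarith
  have hlogd : |Real.log d| = Real.log (1 / d) := by
    rw [one_div, Real.log_inv, abs_of_neg (Real.log_neg hd0 (by linarith))]
  have hlogA : Real.log (A + 1) ≤ 1 + L := by
    have h1 : (A : ℝ) + 1 ≤ 2 * (1 / d) := by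
      have : (2 : ℝ) ≤ 1 / d := hd2
      linarith
    have h2 : Real.log (A + 1) ≤ Real.log (2 * (1 / d)) :=
      Real.log_le_log (by positivity) h1
    rw [Real.log_mul (by norm_num) (by positivity)] at h2
    have h3 : Real.log 2 ≤ 1 := by
      have := Real.log_two_lt_d9
      linarith
    rw [← hlogd] at h2
    linarith
  have hlog3A : ((Nat.log 3 A : ℕ) : ℝ) ≤ 1 + L := by
    have h1 : ((Nat.log 3 A : ℕ) : ℝ) ≤ Real.log (A + 1) := by
      have h2 : 3 ^ Nat.log 3 A ≤ A := Nat.pow_log_le_self 3 (by omega)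
      have h3 : ((3 : ℝ) ^ Nat.log 3 A) ≤ A := by exact_mod_cast h2
      have h4 : Real.log ((3 : ℝ) ^ Nat.log 3 A) ≤ Real.log (A + 1) :=
        Real.log_le_log (by positivity) (by linarith)
      rw [Real.log_pow] at h4
      have h5 : 1 ≤ Real.log 3 := by
        rw [Real.le_log_iff_exp_le (by norm_num)]
        have := Real.exp_one_lt_d9
        linarith
      have h6 : (0 : ℝ) ≤ ((Nat.log 3 A : ℕ) : ℝ) := by positivity
      nlinarith
    linarith
  have hinvA : 1 / (A : ℝ) ≤ d := by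
    rw [div_le_iff₀ hA0]
    rw [div_le_iff₀ hd0] at hAge
    linarith
  -- restrict to the hits
  have h1 : ∑ i ∈ F, gb α w d x i = ∑ i ∈ F.filter (· ∈ hits α w x), 2 * (coef i * min 1 (d / w i)) := by
    rw [Finset.sum_filter]
    rfl
  rw [h1, ← Finset.sum_filter_add_sum_filter_not (F.filter (· ∈ hits α w x)) (· < A)]
  set F₁ := (F.filter (· ∈ hits α w x)).filter (· < A) with hF₁
  set F₂ := (F.filter (· ∈ hits α w x)).filter (fun i => ¬ i < A) with hF₂
  have hF₁' : ∀ i ∈ F₁, i ∈ hits α w x ∧ i < A := by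
    intro i hi
    rw [hF₁, Finset.mem_filter, Finset.mem_filter] at hi
    exact ⟨hi.1.2, hi.2⟩
  have hF₂' : ∀ i ∈ F₂, i ∈ hits α w x ∧ A ≤ i := by
    intro i hi
    rw [hF₂, Finset.mem_filter, Finset.mem_filter] at hi
    exact ⟨hi.1.2, not_lt.1 hi.2⟩
  have hw : ∀ i, 1 ≤ i → c / (8 * i) ≤ w i := by
    intro i hi
    obtain ⟨m, hm1, hm2, hm3⟩ := h.eq i hi
    have h2 := hd m hm1
    have hi0 : (0 : ℝ) < i := by exact_mod_cast hi
    have hm0 : (0 : ℝ) < m := by exact_mod_cast hm1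
    have hm4 : (m : ℝ) ≤ 4 * i := by exact_mod_cast hm2
    have h3 : c / (4 * i) ≤ c / m := div_le_div_of_nonneg_left hc.le hm0 hm4
    have h4 : c / (8 * i) = c / (4 * i) / 2 := by field_simp; norm_num
    rw [h4]
    linarith
  -- small indices
  have hS₁ : ∑ i ∈ F₁, 2 * (coef i * min 1 (d / w i)) ≤ 16 / c * d * (1 + L) * (2 + L) := by
    have h2 : ∀ i ∈ F₁, 2 * (coef i * min 1 (d / w i)) ≤ 16 / c * d * (1 + L) := by
      intro i hi
      obtain ⟨hi1, hi2⟩ := hF₁' i hi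
      have hi0 : (0 : ℝ) < i := by exact_mod_cast hi1.1
      have h3 : d / w i ≤ d * (8 * i) / c := by
        rw [div_le_div_iff₀ (h.pos i hi1.1) hc]
        have h4 := hw i hi1.1
        rw [div_le_iff₀ (by positivity)] at h4
        nlinarith
      have h4 : min 1 (d / w i) ≤ d * (8 * i) / c := (min_le_right _ _).trans h3
      have h5 := coef_nonneg i
      have h6 : Real.log ((i : ℝ) + 1) ≤ 1 + L := by
        refine le_trans ?_ hlogA
        apply Real.log_le_log (by positivity)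
        have : (i : ℝ) ≤ A := by exact_mod_cast hi2.le
        linarith
      calc 2 * (coef i * min 1 (d / w i)) ≤ 2 * (coef i * (d * (8 * i) / c)) := by gcongr
        _ = 16 / c * d * Real.log ((i : ℝ) + 1) := by
            unfold coef
            field_simp
            ring
        _ ≤ _ := by gcongr
    have h3 := Finset.sum_le_card_nsmul _ _ _ h2
    have h4 : (F₁.card : ℝ) ≤ 2 + L := by
      have h5 := lac_card F₁ A (fun i hi => (hF₁' i hi).1.1) (fun i hi => (hF₁' i hi).2.le)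
        (fun i hi j hj => h.lac x i (hF₁' i hi).1 j (hF₁' j hj).1)
      have h6 : (F₁.card : ℝ) ≤ (Nat.log 3 A : ℕ) + 1 := by exact_mod_cast h5
      linarith
    refine h3.trans ?_
    rw [nsmul_eq_mul, mul_comm]
    apply mul_le_mul_of_nonneg_left h4
    positivity
  -- large indices
  have hS₂ : ∑ i ∈ F₂, 2 * (coef i * min 1 (d / w i)) ≤ 6 * (3 + L) * d := by
    have h2 : ∀ i ∈ F₂, 2 * (coef i * min 1 (d / w i)) ≤
        2 * ((3 + L) * (A : ℝ) ^ (-(1 / 2) : ℝ)) * (i : ℝ) ^ (-(1 / 2) : ℝ) := by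
      intro i hi
      obtain ⟨hi1, hi2⟩ := hF₂' i hi
      have h3 := coef_le_scaled A i hA1 hi2
      have h4 : coef i * min 1 (d / w i) ≤ coef i :=
        mul_le_of_le_one_right (coef_nonneg i) (min_le_left _ _)
      have h5 : (2 + Real.log ((A : ℝ) + 1)) * (A : ℝ) ^ (-(1 / 2) : ℝ) * (i : ℝ) ^ (-(1 / 2) : ℝ) ≤
          (3 + L) * (A : ℝ) ^ (-(1 / 2) : ℝ) * (i : ℝ) ^ (-(1 / 2) : ℝ) := by
        have : 2 + Real.log ((A : ℝ) + 1) ≤ 3 + L := by linarith
        gcongr
      linarith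
    refine (Finset.sum_le_sum h2).trans ?_
    rw [← Finset.mul_sum]
    have h3 := lac_sum_ge F₂ (A : ℝ) (by linarith)
      (fun i hi => by exact_mod_cast (hF₂' i hi).2)
      (fun i hi j hj => h.lac x i (hF₂' i hi).1 j (hF₂' j hj).1)
    have h4 : (A : ℝ) ^ (-(1 / 2) : ℝ) * (A : ℝ) ^ (-(1 / 2) : ℝ) = 1 / A := by
      rw [← Real.rpow_add hA0, show (-(1 / 2) + -(1 / 2) : ℝ) = -1 by norm_num,
        Real.rpow_neg_one, one_div]
    calc 2 * ((3 + L) * (A : ℝ) ^ (-(1 / 2) : ℝ)) * ∑ i ∈ F₂, (i : ℝ) ^ (-(1 / 2) : ℝ)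
        ≤ 2 * ((3 + L) * (A : ℝ) ^ (-(1 / 2) : ℝ)) * (3 * (A : ℝ) ^ (-(1 / 2) : ℝ)) := by gcongr
      _ = 6 * (3 + L) * ((A : ℝ) ^ (-(1 / 2) : ℝ) * (A : ℝ) ^ (-(1 / 2) : ℝ)) := by ring
      _ = 6 * (3 + L) * (1 / A) := by rw [h4]
      _ ≤ _ := by gcongr
  refine (add_le_add hS₁ hS₂).trans ?_
  have h2 : 16 / c * d * (1 + L) * (2 + L) ≤ 16 / c * d * (6 * L ^ 2) := by
    have : (1 + L) * (2 + L) ≤ 6 * L ^ 2 := by nlinarith
    rw [mul_assoc]
    gcongr
  have h3 : 6 * (3 + L) * d ≤ 24 / c * d * L ^ 2 := by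
    have h4 : 6 * (3 + L) ≤ 24 * L ^ 2 := by nlinarith
    have h5 : (24 : ℝ) ≤ 24 / c := by rw [le_div_iff₀ hc]; linarith
    calc 6 * (3 + L) * d ≤ 24 * L ^ 2 * d := by gcongr
      _ ≤ 24 / c * L ^ 2 * d := by gcongr
      _ = _ := by ring
  calc 16 / c * d * (1 + L) * (2 + L) + 6 * (3 + L) * d
      ≤ 16 / c * d * (6 * L ^ 2) + 24 / c * d * L ^ 2 := add_le_add h2 h3
    _ = 120 / c * (d * L ^ 2) := by ring
    _ ≤ 200 / c * (d * L ^ 2) := by gcongr; norm_num

theorem Wid.log_mod {α : T} {w : ℕ → ℝ} (h : Wid α w) (c : ℝ) (hc : 0 < c) (hc1 : c ≤ 1)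
    (hd : ∀ q : ℕ, 0 < q → c / (q : ℝ) ≤ ‖q • α‖) (u v : T) :
    |phi α w u - phi α w v| ≤ 400 / c * (‖u - v‖ * (1 + |Real.log ‖u - v‖|) ^ 2) := by
  classical
  rcases eq_or_ne u v with rfl | huv
  · simp
  set d := ‖u - v‖ with hdd
  have hd0 : 0 < d := norm_pos_iff.2 (sub_ne_zero.2 huv)
  have hd1 : d ≤ 1 / 2 := by
    have := AddCircle.norm_le_half_period (p := (1 : ℝ)) (x := u - v) one_ne_zero
    simpa using this
  have hnn : ∀ x i, 0 ≤ gb α w d x i := by
    intro x i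
    unfold gb
    split_ifs with hi
    · have := h.pos i hi.1
      have := coef_nonneg i
      positivity
    · exact le_rfl
  set R := 200 / c * (d * (1 + |Real.log d|) ^ 2) with hR
  have hmaj : ∀ x, Summable (gb α w d x) ∧ ∑' i, gb α w d x i ≤ R := fun x =>
    ⟨summable_of_sum_le (hnn x) (fun F => h.gb_sum c hc hc1 hd d hd0 hd1 x F),
      Real.tsum_le_of_sum_le (hnn x) (fun F => h.gb_sum c hc hc1 hd d hd0 hd1 x F)⟩
  have hterm : ∀ i, |term α w i u - term α w i v| ≤ gb α w d u i + gb α w d v i := by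
    intro i
    by_cases hi : i ∈ hits α w u ∨ i ∈ hits α w v
    · have hi1 : 1 ≤ i := by rcases hi with hi | hi <;> exact hi.1
      have hw := h.pos i hi1
      have hcoef := coef_nonneg i
      have h1 : |tent (w i) (u - i • α) - tent (w i) (v - i • α)| ≤ min 1 (d / w i) := by
        refine le_min (tent_sub_le_one hw _ _) ?_
        have := tent_sub_le hw (u - i • α) (v - i • α)
        rwa [sub_sub_sub_cancel_right] at this
      have h2 : |tent (w i) (u + i • α) - tent (w i) (v + i • α)| ≤ min 1 (d / w i) := by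
        refine le_min (tent_sub_le_one hw _ _) ?_
        have := tent_sub_le hw (u + i • α) (v + i • α)
        rwa [add_sub_add_right_eq_sub] at this
      have h3 : |term α w i u - term α w i v| ≤ 2 * (coef i * min 1 (d / w i)) := by
        unfold term
        have h4 : coef i * (tent (w i) (u - i • α) - tent (w i) (u + i • α)) -
            coef i * (tent (w i) (v - i • α) - tent (w i) (v + i • α)) =
            coef i * ((tent (w i) (u - i • α) - tent (w i) (v - i • α)) -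
              (tent (w i) (u + i • α) - tent (w i) (v + i • α))) := by ring
        rw [h4, abs_mul, abs_of_nonneg hcoef]
        have h5 := abs_sub (tent (w i) (u - i • α) - tent (w i) (v - i • α))
          (tent (w i) (u + i • α) - tent (w i) (v + i • α))
        calc _ ≤ coef i * (min 1 (d / w i) + min 1 (d / w i)) := by
              apply mul_le_mul_of_nonneg_left _ hcoef
              exact h5.trans (add_le_add h1 h2)
          _ = _ := by ring
      refine h3.trans ?_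
      by_cases hu : i ∈ hits α w u
      · have h6 : gb α w d u i = 2 * (coef i * min 1 (d / w i)) := if_pos hu
        rw [h6]
        have := hnn v i
        linarith
      · have hv : i ∈ hits α w v := by tauto
        have h6 : gb α w d v i = 2 * (coef i * min 1 (d / w i)) := if_pos hv
        rw [h6]
        have := hnn u i
        linarith
    · push Not at hi
      rw [h.term_eq_zero hi.1, h.term_eq_zero hi.2, sub_self, abs_zero]
      exact add_nonneg (hnn u i) (hnn v i)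
  have hsum : Summable (fun i => |term α w i u - term α w i v|) :=
    Summable.of_nonneg_of_le (fun i => abs_nonneg _) hterm ((hmaj u).1.add (hmaj v).1)
  have h1 : phi α w u - phi α w v = ∑' i, (term α w i u - term α w i v) := by
    rw [(h.summable_term u).tsum_sub (h.summable_term v)]
    rfl
  rw [h1]
  have h2 : |∑' i, (term α w i u - term α w i v)| ≤ ∑' i, |term α w i u - term α w i v| := by
    have := norm_tsum_le_tsum_norm (f := fun i => term α w i u - term α w i v)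
      (by simpa only [Real.norm_eq_abs] using hsum)
    simpa only [Real.norm_eq_abs] using this
  refine h2.trans ?_
  have h3 := hsum.tsum_le_tsum hterm ((hmaj u).1.add (hmaj v).1)
  rw [(hmaj u).1.tsum_add (hmaj v).1] at h3
  have h4 := (hmaj u).2
  have h5 := (hmaj v).2
  calc _ ≤ _ := h3
    _ ≤ R + R := add_le_add h4 h5
    _ = _ := by rw [hR]; ring

end Pool.Agent.Lib.MP_f73729_an
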