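import Pool.Agent.Lib.MP_f73729_an.Best

/-! The recursion for the Birkhoff sums at the best approximation denominators. -/

set_option autoImplicit false

namespace Pool.Agent.Lib.MP_f73729_an

/-- `M 0 = 1`, `M (j+1) = max (M j) (M j * (M j / q_k)^{1/γ} * q_{k+1})`, `k = a + j`. -/
noncomputable def mseq (γ : ℝ) (q : ℕ → ℕ) (a : ℕ) : ℕ → ℝ
  | 0 => 1
  | j + 1 => max (mseq γ q a j)
      (mseq γ q a j * (mseq γ q a j / q (a + j)) ^ (1 / γ) * q (a + j + 1))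

theorem mseq_succ (γ : ℝ) (q : ℕ → ℕ) (a j : ℕ) : mseq γ q a (j + 1) = max (mseq γ q a j)
    (mseq γ q a j * (mseq γ q a j / q (a + j)) ^ (1 / γ) * q (a + j + 1)) := rfl

theorem one_le_mseq (γ : ℝ) (q : ℕ → ℕ) (a j : ℕ) : 1 ≤ mseq γ q a j := by
  induction j with
  | zero => exact le_rfl
  | succ j ih => exact ih.trans (le_max_left _ _)

theorem mseq_mono (γ : ℝ) (q : ℕ → ℕ) (a : ℕ) : Monotone (mseq γ q a) :=
  monotone_nat_of_le_succ fun _ => le_max_left _ _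

/-- the recursion stays below `q_k^{1-γ}` -/
def Adm (γ : ℝ) (q : ℕ → ℕ) : Prop :=
  ∃ a : ℕ, ∀ j : ℕ, mseq γ q a j ≤ (q (a + j) : ℝ) ^ (1 - γ)

end Pool.Agent.Lib.MP_f73729_an
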