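import Pool.Agent.Lib.MP_f73729_an.Crit
import Pool.Agent.Lib.MP_f73729_an.Mseq

/-! Necessity: the recursion is dominated by the Birkhoff sums along the discrete orbit. -/

set_option autoImplicit false

namespace Pool.Agent.Lib.MP_f73729_an

open Finset Filter Topology

/-- As `step_ineq`, for every record `r` from the next record on. -/
theorem later_ineq (α : ℝ) (hα : Irrational α) (φ : T → ℝ) (C γ : ℝ) (hC : 1 ≤ C)
    (hγ : 0 < γ) (hγ1 : γ ≤ 1) (h : ∀ u v, |φ u - φ v| ≤ C * ‖u - v‖ ^ γ) (x : T) (n₀ : ℕ)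
    (hpos : ∀ n, n₀ ≤ n → 1 ≤ S (α : T) φ n x) (q q' r : ℕ) (hc : Consec α q q')
    (hr : IsRec α r) (hqr : q' ≤ r) (hqn : n₀ ≤ q)
    (L : ℝ) (hL0 : 0 < L) (hLS : L ≤ S (α : T) φ q x) (hLu : L ≤ 3 * C * (q : ℝ) ^ (1 - γ))
    (hθκ : ‖q • (α : T)‖ ≤ (L / (16 * C * q)) ^ (1 / γ)) :
    (L / (16 * C * q)) ^ (1 / γ) * q' * L / 8 ≤ S (α : T) φ r x := by
  have hq : 1 ≤ q := hc.rec1.1
  have hrq : ‖r • (α : T)‖ ≤ ‖q • (α : T)‖ := (hr.2 q hq (hc.lt.trans_le hqr)).le
  have hθq' := hc.up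
  have hsum := hc.low
  have hqq' := hc.lt
  set θ := ‖q • (α : T)‖ with hθ
  have hθ0 : 0 < θ := norm_pos_iff.2 (nsmul_coe_ne_zero hα q hq)
  have hq0 : (0 : ℝ) < q := by exact_mod_cast hq
  have hC0 : 0 < C := by linarith
  have hγi : 1 ≤ 1 / γ := by rw [le_div_iff₀ hγ]; linarith
  set κ : ℝ := (L / (16 * C * q)) ^ (1 / γ) with hκ
  have hκ0 : 0 < κ := by positivity
  have hκγ : q * (C * κ ^ γ) = L / 16 := by
    have h1 : κ ^ γ = L / (16 * C * q) := by
      rw [hκ, ← Real.rpow_mul (by positivity)]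
      have : 1 / γ * γ = 1 := by field_simp
      rw [this, Real.rpow_one]
    rw [h1]
    field_simp
  have hκq : κ * q ≤ 1 / 4 := by
    have h1 : L / (16 * C * q) ≤ 3 / 16 * (q : ℝ) ^ (-γ) := by
      rw [div_le_iff₀ (by positivity)]
      have h2 : (q : ℝ) ^ (1 - γ) = q * (q : ℝ) ^ (-γ) := by
        rw [sub_eq_add_neg, Real.rpow_add hq0, Real.rpow_one]
      rw [h2] at hLu
      calc L ≤ 3 * C * (q * (q : ℝ) ^ (-γ)) := hLu
        _ = 3 / 16 * (q : ℝ) ^ (-γ) * (16 * C * q) := by ring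
    have h3 : κ ≤ (3 / 16 * (q : ℝ) ^ (-γ)) ^ (1 / γ) :=
      Real.rpow_le_rpow (by positivity) h1 (by positivity)
    have h4 : (3 / 16 * (q : ℝ) ^ (-γ)) ^ (1 / γ) = (3 / 16 : ℝ) ^ (1 / γ) * (q : ℝ)⁻¹ := by
      rw [Real.mul_rpow (by norm_num) (by positivity), ← Real.rpow_mul hq0.le]
      have : -γ * (1 / γ) = -1 := by field_simp
      rw [this, Real.rpow_neg_one]
    have h5 : (3 / 16 : ℝ) ^ (1 / γ) ≤ (3 / 16 : ℝ) ^ (1 : ℝ) :=
      Real.rpow_le_rpow_of_exponent_ge (by norm_num) (by norm_num) hγi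
    rw [Real.rpow_one] at h5
    rw [h4] at h3
    calc κ * q ≤ (3 / 16 : ℝ) ^ (1 / γ) * (q : ℝ)⁻¹ * q := by gcongr
      _ = (3 / 16 : ℝ) ^ (1 / γ) := by field_simp
      _ ≤ 3 / 16 := h5
      _ ≤ 1 / 4 := by norm_num
  have hq'0 : (0 : ℝ) < q' := by
    have : 0 < q' := by omega
    exact_mod_cast this
  set I : ℕ := ⌊κ / θ⌋₊ with hI
  have hI1 : 1 ≤ I := by
    rw [hI]
    apply Nat.le_floor
    rw [Nat.cast_one, le_div_iff₀ hθ0, one_mul]
    exact hθκ
  have hIle : (I : ℝ) * θ ≤ κ := by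
    have := Nat.floor_le (show 0 ≤ κ / θ by positivity)
    rw [← hI] at this
    rwa [le_div_iff₀ hθ0] at this
  have hIge : κ ≤ 2 * I * θ := by
    have h1 := Nat.lt_floor_add_one (κ / θ)
    rw [← hI] at h1
    rw [div_lt_iff₀ hθ0] at h1
    have h2 : (1 : ℝ) ≤ I := by exact_mod_cast hI1
    nlinarith
  have hI0 : (0 : ℝ) < I := by exact_mod_cast hI1
  have hb : ∀ i, 1 ≤ i → i ≤ I → L / 2 ≤ S (α : T) φ q (x - (i * q) • (α : T)) := by
    intro i hi hiI
    have h1 := S_hoelder (α := (α : T)) h q (x - (i * q) • (α : T)) x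
    have h2 : ‖x - (i * q) • (α : T) - x‖ ≤ κ := by
      have h3 : x - (i * q) • (α : T) - x = -((i * q) • (α : T)) := by abel
      rw [h3, norm_neg, mul_smul]
      refine norm_nsmul_le.trans ?_
      have h4 : (i : ℝ) ≤ I := by exact_mod_cast hiI
      have h5 : (i : ℝ) * θ ≤ I * θ := mul_le_mul_of_nonneg_right h4 hθ0.le
      linarith
    have h3 : (q : ℝ) * (C * ‖x - (i * q) • (α : T) - x‖ ^ γ) ≤ L / 16 := by
      rw [← hκγ]
      have h4 : ‖x - (i * q) • (α : T) - x‖ ^ γ ≤ κ ^ γ :=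
        Real.rpow_le_rpow (norm_nonneg _) h2 hγ.le
      gcongr
    have h4 := (abs_le.1 h1).1
    linarith
  have hback := back_sumL (α : T) φ q x I (L / 2) hb
  have hsize : I * q + n₀ ≤ r := by
    have h1 : ((I : ℝ) * q + n₀) * θ ≤ 1 / 2 := by
      have h2 : (n₀ : ℝ) ≤ q := by exact_mod_cast hqn
      have h3 : (n₀ : ℝ) * θ ≤ q * κ :=
        mul_le_mul h2 hθκ hθ0.le hq0.le
      have h4 : (I : ℝ) * q * θ ≤ κ * q := by nlinarith
      nlinarith
    have h2 : 3 / 4 ≤ (q' : ℝ) * θ := by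
      have h3 : (q : ℝ) * θ ≤ q * κ := mul_le_mul_of_nonneg_left hθκ hq0.le
      nlinarith
    have h3 : ((I : ℝ) * q + n₀) * θ < q' * θ := by linarith
    have h4 : ((I : ℝ) * q + n₀) < q' := lt_of_mul_lt_mul_right h3 hθ0.le
    have h5 : ((I * q + n₀ : ℕ) : ℝ) < q' := by push_cast; exact h4
    have h6 : I * q + n₀ < q' := by exact_mod_cast h5
    omega
  have hlow : (I : ℝ) * L / 4 ≤ S (α : T) φ r x := by
    have h1 := S_add (α : T) φ (r - I * q) (I * q) x
    have h2 : r - I * q + I * q = r := by omega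
    rw [h2] at h1
    have h3 := hpos (r - I * q) (by omega)
    have h4 := S_hoelder (α := (α : T)) h (I * q) (x + (r - I * q) • (α : T))
      (x - (I * q) • (α : T))
    have h5 : x + (r - I * q) • (α : T) - (x - (I * q) • (α : T)) = r • (α : T) := by
      have h6 : (r - I * q) • (α : T) + (I * q) • (α : T) = r • (α : T) := by
        rw [← add_smul, h2]
      rw [← h6]; abel
    rw [h5] at h4
    have h6 : ‖r • (α : T)‖ ^ γ ≤ κ ^ γ :=
      Real.rpow_le_rpow (norm_nonneg _) (hrq.trans hθκ) hγ.le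
    have h7 : ((I * q : ℕ) : ℝ) * (C * ‖r • (α : T)‖ ^ γ) ≤ I * L / 16 := by
      push_cast
      calc (I : ℝ) * q * (C * ‖r • (α : T)‖ ^ γ) ≤ I * q * (C * κ ^ γ) := by gcongr
        _ = I * (q * (C * κ ^ γ)) := by ring
        _ = I * L / 16 := by rw [hκγ]; ring
    have h8 := (abs_le.1 h4).1
    have h9 : 0 < (I : ℝ) * L := by positivity
    linarith
  have h1 : κ * q' ≤ 2 * I := by
    have h2 : κ * q' ≤ 2 * I * θ * q' := mul_le_mul_of_nonneg_right hIge hq'0.le
    have h3 : 2 * (I : ℝ) * θ * q' = 2 * I * (θ * q') := by ring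
    have h4 : 2 * (I : ℝ) * (θ * q') ≤ 2 * I * 1 :=
      mul_le_mul_of_nonneg_left hθq' (by positivity)
    linarith
  have h2 : κ * q' * L ≤ 2 * I * L := mul_le_mul_of_nonneg_right h1 hL0.le
  linarith

theorem nec (α : ℝ) (hα : Irrational α) (φ : T → ℝ) (C γ : ℝ) (hC : 1 ≤ C)
    (hγ : 0 < γ) (hγ1 : γ ≤ 1) (h : ∀ u v, |φ u - φ v| ≤ C * ‖u - v‖ ^ γ)
    (hz : ∀ n : ℕ, 1 ≤ n → ∃ y, S (α : T) φ n y ≤ 0) (x : T) (n₀ : ℕ)
    (hpos : ∀ n, n₀ ≤ n → 1 ≤ S (α : T) φ n x) (q : ℕ → ℕ)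
    (hq : ∀ k, Consec α (q k) (q (k + 1))) (γ' : ℝ) (hγ' : 0 < γ') (hγγ : γ' < γ) :
    Adm γ' q := by
  have hC0 : 0 < C := by linarith
  have hqm : StrictMono q := strictMono_nat_of_lt_succ fun k => (hq k).lt
  obtain ⟨N₁, hN₁, hN₁'⟩ := exists_pow_ge (3 * C) (γ - γ') (by linarith)
  have he : 0 < 1 - γ' / γ := by
    rw [sub_pos, div_lt_one hγ]; exact hγγ
  obtain ⟨N₂, hN₂, hN₂'⟩ := exists_pow_ge (8 * (16 * C) ^ (1 / γ)) (1 - γ' / γ) he
  set a : ℕ := max n₀ (max N₁ (max N₂ 1)) + 1 with ha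
  have hqa : ∀ j, a ≤ q (a + j) := fun j => by
    have h1 : a + j ≤ q (a + j) := hqm.le_apply
    omega
  have han : n₀ ≤ a := by
    have := le_max_left n₀ (max N₁ (max N₂ 1)); omega
  have haN₁ : N₁ ≤ a := by
    have h1 := le_max_right n₀ (max N₁ (max N₂ 1))
    have h2 := le_max_left N₁ (max N₂ 1); omega
  have haN₂ : N₂ ≤ a := by
    have h1 := le_max_right n₀ (max N₁ (max N₂ 1))
    have h2 := le_max_right N₁ (max N₂ 1)
    have h3 := le_max_left N₂ 1; omega
  have ha1 : 1 ≤ a := by omega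
  have htop : ∀ j, S (α : T) φ (q (a + j)) x ≤ 3 * C * (q (a + j) : ℝ) ^ (1 - γ) := by
    intro j
    have h1 := hq (a + j - 1)
    have h2 : a + j - 1 + 1 = a + j := by omega
    rw [h2] at h1
    exact top_bound hC hγ hγ1 h hz h1 x
  have hq0 : ∀ k, (0 : ℝ) < q k := fun k => by exact_mod_cast (hq k).rec1.1
  have hup : ∀ j, 3 * C * (q (a + j) : ℝ) ^ (1 - γ) ≤ (q (a + j) : ℝ) ^ (1 - γ') := by
    intro j
    have h1 := hN₁' (q (a + j)) (haN₁.trans (hqa j))
    have h2 : (q (a + j) : ℝ) ^ (1 - γ') =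
        (q (a + j) : ℝ) ^ (γ - γ') * (q (a + j) : ℝ) ^ (1 - γ) := by
      rw [← Real.rpow_add (hq0 _)]
      congr 1
      ring
    rw [h2]
    exact mul_le_mul_of_nonneg_right h1 (Real.rpow_nonneg (hq0 _).le _)
  -- main induction
  have hmain : ∀ j i : ℕ, j ≤ i → mseq γ' q a j ≤ S (α : T) φ (q (a + i)) x := by
    intro j
    induction j with
    | zero => exact fun i _ => hpos _ (han.trans (hqa i))
    | succ j ih =>
      intro i hi
      rw [mseq_succ]
      apply max_le (ih i (by omega))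
      set M := mseq γ' q a j with hM
      have hM1 : 1 ≤ M := one_le_mseq _ _ _ _
      have hM0 : 0 < M := by linarith
      set Q : ℝ := (q (a + j) : ℝ) with hQ
      have hQ0 : 0 < Q := hq0 _
      set κ' : ℝ := (M / Q) ^ (1 / γ') with hκ'
      have hκ'0 : 0 < κ' := by positivity
      have hMS := ih j le_rfl
      have hMu : M ≤ 3 * C * Q ^ (1 - γ) := hMS.trans (htop j)
      rcases le_or_gt (κ' * q (a + j + 1)) 1 with hcase | hcase
      · have h1 : M * κ' * q (a + j + 1) ≤ M := by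
          have : M * κ' * q (a + j + 1) = M * (κ' * q (a + j + 1)) := by ring
          rw [this]
          exact mul_le_of_le_one_right hM0.le hcase
        exact h1.trans (ih i (by omega))
      · -- comparison of the two powers
        have hkey : 8 * κ' ≤ (M / (16 * C * Q)) ^ (1 / γ) := by
          have h1 : M / Q ≤ Q ^ (-γ') := by
            rw [div_le_iff₀ hQ0]
            have h2 : Q ^ (1 - γ') = Q ^ (-γ') * Q := by
              rw [sub_eq_neg_add, Real.rpow_add hQ0, Real.rpow_one]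
            rw [← h2]
            exact hMu.trans (hup j)
          have h2 : κ' = (M / Q) ^ (1 / γ) * (M / Q) ^ (1 / γ' - 1 / γ) := by
            rw [hκ', ← Real.rpow_add (by positivity)]
            congr 1
            ring
          have h3 : 0 ≤ 1 / γ' - 1 / γ := by
            rw [sub_nonneg]
            exact one_div_le_one_div_of_le hγ' hγγ.le
          have h4 : (M / Q) ^ (1 / γ' - 1 / γ) ≤ Q ^ (-(1 - γ' / γ)) := by
            calc (M / Q) ^ (1 / γ' - 1 / γ) ≤ (Q ^ (-γ')) ^ (1 / γ' - 1 / γ) :=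
                  Real.rpow_le_rpow (by positivity) h1 h3
              _ = Q ^ (-(1 - γ' / γ)) := by
                  rw [← Real.rpow_mul hQ0.le]
                  congr 1
                  field_simp
          have h5 : (M / (16 * C * Q)) ^ (1 / γ) = (16 * C) ^ (-(1 / γ)) * (M / Q) ^ (1 / γ) := by
            have h6 : M / (16 * C * Q) = (16 * C)⁻¹ * (M / Q) := by field_simp
            rw [h6, Real.mul_rpow (by positivity) (by positivity), Real.inv_rpow (by positivity),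
              ← Real.rpow_neg (by positivity)]
          have h6 := hN₂' (q (a + j)) (haN₂.trans (hqa j))
          have h7 : 8 * Q ^ (-(1 - γ' / γ)) ≤ (16 * C) ^ (-(1 / γ)) := by
            rw [Real.rpow_neg hQ0.le, Real.rpow_neg (by positivity), ← div_eq_mul_inv,
              inv_eq_one_div, div_le_div_iff₀ (by positivity) (by positivity), one_mul]
            exact h6
          rw [h5]
          have h8 : 0 ≤ (M / Q) ^ (1 / γ) := by positivity
          calc 8 * κ' = (M / Q) ^ (1 / γ) * (8 * (M / Q) ^ (1 / γ' - 1 / γ)) := by rw [h2]; ring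
            _ ≤ (M / Q) ^ (1 / γ) * (8 * Q ^ (-(1 - γ' / γ))) := by gcongr
            _ ≤ (M / Q) ^ (1 / γ) * (16 * C) ^ (-(1 / γ)) := mul_le_mul_of_nonneg_left h7 h8
            _ = _ := by ring
        have hθ : ‖q (a + j) • (α : T)‖ ≤ (M / (16 * C * Q)) ^ (1 / γ) := by
          refine le_trans ?_ (le_trans (by linarith : κ' ≤ 8 * κ') hkey)
          have h1 := (hq (a + j)).up
          have h2 := hq0 (a + j + 1)
          have h3 : ‖q (a + j) • (α : T)‖ * q (a + j + 1) < κ' * q (a + j + 1) :=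
            lt_of_le_of_lt h1 hcase
          exact (lt_of_mul_lt_mul_right h3 h2.le).le
        have hl := later_ineq α hα φ C γ hC hγ hγ1 h x n₀ hpos (q (a + j)) (q (a + j + 1))
          (q (a + i)) (hq (a + j)) (hq (a + i)).rec1 (hqm.monotone (by omega))
          (han.trans (hqa j)) M hM0 hMS hMu hθ
        refine le_trans ?_ hl
        have h2 := hq0 (a + j + 1)
        have h3 : 8 * κ' * q (a + j + 1) * M ≤
            (M / (16 * C * Q)) ^ (1 / γ) * q (a + j + 1) * M := by gcongr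
        linarith
  exact ⟨a, fun j => (hmain j j le_rfl).trans ((htop j).trans (hup j))⟩

/-- the enumeration of the records is a chain of consecutive records -/
theorem consec_of_enum (α : ℝ) (hα : Irrational α) (q : ℕ → ℕ) (hqm : StrictMono q)
    (hrec : ∀ r, IsRec α r ↔ ∃ k, q k = r) (k : ℕ) : Consec α (q k) (q (k + 1)) := by
  have h1 : IsRec α (q k) := (hrec _).2 ⟨k, rfl⟩
  have h2 : IsRec α (q (k + 1)) := (hrec _).2 ⟨k + 1, rfl⟩
  have hlt : q k < q (k + 1) := hqm (Nat.lt_succ_self k)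
  obtain ⟨p, hp⟩ := exists_pred α hα (q (k + 1)) h2 (by have := h1.1; omega)
  have h3 : q k ≤ p := hp.le_of_rec h1 hlt
  obtain ⟨i, rfl⟩ := (hrec p).1 hp.rec1
  have h4 : k ≤ i := hqm.le_iff_le.1 h3
  have h5 : i < k + 1 := hqm.lt_iff_lt.1 hp.lt
  have h6 : i = k := by omega
  rw [h6] at hp
  exact hp

end Pool.Agent.Lib.MP_f73729_an
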