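import Pool.Agent.Lib.MP_f73729_an.Nec

/-! Necessity at the Hölder exponent itself, for the recursion with an arbitrary first term. -/

set_option autoImplicit false

namespace Pool.Agent.Lib.MP_f73729_an

open Finset Filter Topology

/-- `mseqA 0 = A`, `mseqA (j+1) = max (mseqA j) (mseqA j * (mseqA j / q_k)^{1/γ} * q_{k+1})`,
`k = a + j`. -/
noncomputable def mseqA (γ : ℝ) (q : ℕ → ℕ) (A : ℝ) (a : ℕ) : ℕ → ℝ
  | 0 => A
  | j + 1 => max (mseqA γ q A a j)
      (mseqA γ q A a j * (mseqA γ q A a j / q (a + j)) ^ (1 / γ) * q (a + j + 1))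

theorem mseqA_succ (γ : ℝ) (q : ℕ → ℕ) (A : ℝ) (a j : ℕ) :
    mseqA γ q A a (j + 1) = max (mseqA γ q A a j)
      (mseqA γ q A a j * (mseqA γ q A a j / q (a + j)) ^ (1 / γ) * q (a + j + 1)) := rfl

theorem le_mseqA (γ : ℝ) (q : ℕ → ℕ) (A : ℝ) (a j : ℕ) : A ≤ mseqA γ q A a j := by
  induction j with
  | zero => exact le_rfl
  | succ j ih => exact ih.trans (le_max_left _ _)

theorem necE (α : ℝ) (hα : Irrational α) (φ : T → ℝ) (C γ : ℝ) (hC : 1 ≤ C)
    (hγ : 0 < γ) (hγ1 : γ ≤ 1) (h : ∀ u v, |φ u - φ v| ≤ C * ‖u - v‖ ^ γ)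
    (hz : ∀ n : ℕ, 1 ≤ n → ∃ y, S (α : T) φ n y ≤ 0) (x : T)
    (hinf : ∀ A : ℝ, ∃ n₀ : ℕ, ∀ n, n₀ ≤ n → A ≤ S (α : T) φ n x) (q : ℕ → ℕ)
    (hq : ∀ k, Consec α (q k) (q (k + 1))) (A : ℝ) (hA : 1 ≤ A) :
    ∃ a : ℕ, ∀ j : ℕ, mseqA γ q A a j ≤ (q (a + j) : ℝ) ^ (1 - γ) := by
  have hC0 : 0 < C := by linarith
  have hqm : StrictMono q := strictMono_nat_of_lt_succ fun k => (hq k).lt
  have hγi : 1 ≤ 1 / γ := by rw [le_div_iff₀ hγ]; linarith
  obtain ⟨n₀, hn₀⟩ := hinf (128 * C * A)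
  have hCA : 1 ≤ C * A := one_le_mul_of_one_le_of_one_le hC hA
  have hpos : ∀ n, n₀ ≤ n → 1 ≤ S (α : T) φ n x := fun n hn => by
    have := hn₀ n hn
    nlinarith
  set a : ℕ := n₀ + 1 with ha
  have hqa : ∀ j, n₀ ≤ q (a + j) := fun j => by
    have h1 : a + j ≤ q (a + j) := hqm.le_apply
    omega
  have htop : ∀ j, S (α : T) φ (q (a + j)) x ≤ 3 * C * (q (a + j) : ℝ) ^ (1 - γ) := by
    intro j
    have h1 := hq (a + j - 1)
    have h2 : a + j - 1 + 1 = a + j := by omega
    rw [h2] at h1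
    exact top_bound hC hγ hγ1 h hz h1 x
  have hq0 : ∀ k, (0 : ℝ) < q k := fun k => by exact_mod_cast (hq k).rec1.1
  have hmain : ∀ j i : ℕ, j ≤ i → 128 * C * mseqA γ q A a j ≤ S (α : T) φ (q (a + i)) x := by
    intro j
    induction j with
    | zero => exact fun i _ => hn₀ _ (hqa i)
    | succ j ih =>
      intro i hi
      rw [mseqA_succ, mul_max_of_nonneg _ _ (by positivity : (0 : ℝ) ≤ 128 * C)]
      apply max_le (ih i (by omega))
      set M := mseqA γ q A a j with hM
      have hM1 : 1 ≤ M := hA.trans (le_mseqA _ _ _ _ _)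
      have hM0 : 0 < M := by linarith
      set Q : ℝ := (q (a + j) : ℝ) with hQ
      have hQ0 : 0 < Q := hq0 _
      set κ' : ℝ := (M / Q) ^ (1 / γ) with hκ'
      have hκ'0 : 0 < κ' := by positivity
      have hMS := ih j le_rfl
      rcases le_or_gt (κ' * q (a + j + 1)) 1 with hcase | hcase
      · have h1 : M * κ' * q (a + j + 1) ≤ M := by
          have : M * κ' * q (a + j + 1) = M * (κ' * q (a + j + 1)) := by ring
          rw [this]
          exact mul_le_of_le_one_right hM0.le hcase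
        have h2 : 128 * C * (M * κ' * q (a + j + 1)) ≤ 128 * C * M :=
          mul_le_mul_of_nonneg_left h1 (by positivity)
        exact h2.trans (ih i (by omega))
      · have hkey : 8 * κ' ≤ (128 * C * M / (16 * C * Q)) ^ (1 / γ) := by
          have h1 : 128 * C * M / (16 * C * Q) = 8 * (M / Q) := by
            field_simp
            ring
          rw [h1, Real.mul_rpow (by norm_num) (by positivity)]
          have h2 : (8 : ℝ) ^ (1 : ℝ) ≤ 8 ^ (1 / γ) :=
            Real.rpow_le_rpow_of_exponent_le (by norm_num) hγi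
          rw [Real.rpow_one] at h2
          exact mul_le_mul_of_nonneg_right h2 hκ'0.le
        have hθ : ‖q (a + j) • (α : T)‖ ≤ (128 * C * M / (16 * C * Q)) ^ (1 / γ) := by
          refine le_trans ?_ (le_trans (by linarith : κ' ≤ 8 * κ') hkey)
          have h1 := (hq (a + j)).up
          have h2 := hq0 (a + j + 1)
          have h3 : ‖q (a + j) • (α : T)‖ * q (a + j + 1) < κ' * q (a + j + 1) :=
            lt_of_le_of_lt h1 hcase
          exact (lt_of_mul_lt_mul_right h3 h2.le).le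
        have hl := later_ineq α hα φ C γ hC hγ hγ1 h x n₀ hpos (q (a + j)) (q (a + j + 1))
          (q (a + i)) (hq (a + j)) (hq (a + i)).rec1 (hqm.monotone (by omega))
          (hqa j) (128 * C * M) (by positivity) hMS (hMS.trans (htop j)) hθ
        refine le_trans ?_ hl
        have h2 := hq0 (a + j + 1)
        have h3 : 8 * κ' * q (a + j + 1) * (128 * C * M) ≤
            (128 * C * M / (16 * C * Q)) ^ (1 / γ) * q (a + j + 1) * (128 * C * M) := by gcongr
        linarith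
  refine ⟨a, fun j => ?_⟩
  have h1 := (hmain j j le_rfl).trans (htop j)
  have h2 : 0 ≤ (q (a + j) : ℝ) ^ (1 - γ) := Real.rpow_nonneg (hq0 _).le _
  have h3 : 128 * C * mseqA γ q A a j ≤ 128 * C * (q (a + j) : ℝ) ^ (1 - γ) := by
    refine h1.trans ?_
    have : 3 * C ≤ 128 * C := by linarith
    exact mul_le_mul_of_nonneg_right this h2
  exact le_of_mul_le_mul_left h3 (by positivity)

end Pool.Agent.Lib.MP_f73729_an
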