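import Pool.Agent.Lib.MP_f73729_an.Rec

/-! Hölder cocycles with a discrete orbit force a Diophantine condition. -/

set_option autoImplicit false

namespace Pool.Agent.Lib.MP_f73729_an

open Finset Filter Topology

theorem S_hoelder {α : T} {φ : T → ℝ} {C γ : ℝ} (h : ∀ u v, |φ u - φ v| ≤ C * ‖u - v‖ ^ γ)
    (n : ℕ) (u v : T) : |S α φ n u - S α φ n v| ≤ n * (C * ‖u - v‖ ^ γ) := by
  unfold S
  rw [← Finset.sum_sub_distrib]
  refine (Finset.abs_sum_le_sum_abs _ _).trans ?_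
  refine (Finset.sum_le_card_nsmul _ _ (C * ‖u - v‖ ^ γ) (fun j _ => ?_)).trans ?_
  · have h1 := h (u + j • α) (v + j • α)
    rwa [add_sub_add_right_eq_sub] at h1
  · rw [Finset.card_range, nsmul_eq_mul]

theorem S_le_of_next {α : T} {φ : T → ℝ} {C γ : ℝ} (hC : 0 ≤ C) (hγ : 0 < γ) (hγ1 : γ ≤ 1)
    (h : ∀ u v, |φ u - φ v| ≤ C * ‖u - v‖ ^ γ) (q' : ℕ) (hq' : 1 ≤ q')
    (hz : ∃ y, S α φ q' y ≤ 0) (hN : ‖q' • α‖ ≤ 1 / q')
    (hd : ∀ z : T, ∃ m < q', ‖z - m • α‖ ≤ 2 / q') (x : T) :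
    S α φ q' x ≤ 3 * C * (q' : ℝ) ^ (1 - γ) := by
  have hq0 : (0 : ℝ) < q' := by exact_mod_cast hq'
  obtain ⟨y, hy⟩ := hz
  obtain ⟨m, hm, hm'⟩ := hd (y - x)
  have hm1 : (m : ℝ) ≤ q' := by exact_mod_cast hm.le
  have h1 := S_hoelder (α := α) h q' (x + m • α) y
  have h2 : ‖x + m • α - y‖ ≤ 2 / q' := by
    have h3 : x + m • α - y = -(y - x - m • α) := by abel
    rw [h3, norm_neg]
    exact hm'
  have h4 : ‖x + m • α - y‖ ^ γ ≤ 2 * (q' : ℝ) ^ (-γ) := by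
    calc ‖x + m • α - y‖ ^ γ ≤ (2 / q') ^ γ := Real.rpow_le_rpow (norm_nonneg _) h2 hγ.le
      _ = 2 ^ γ * (q' : ℝ) ^ (-γ) := by
          rw [Real.div_rpow (by norm_num) hq0.le, Real.rpow_neg hq0.le]; rfl
      _ ≤ 2 * (q' : ℝ) ^ (-γ) := by
          have h5 : (2 : ℝ) ^ γ ≤ 2 ^ (1 : ℝ) :=
            Real.rpow_le_rpow_of_exponent_le (by norm_num) hγ1
          rw [Real.rpow_one] at h5
          gcongr
  have h5 := S_comm α φ m q' x
  have h6 := S_hoelder (α := α) h m (x + q' • α) x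
  rw [add_sub_cancel_left] at h6
  have h7 : ‖q' • α‖ ^ γ ≤ (q' : ℝ) ^ (-γ) := by
    calc ‖q' • α‖ ^ γ ≤ (1 / q') ^ γ := Real.rpow_le_rpow (norm_nonneg _) hN hγ.le
      _ = (q' : ℝ) ^ (-γ) := by
          rw [one_div, Real.inv_rpow hq0.le, Real.rpow_neg hq0.le]
  have h8 : (q' : ℝ) ^ (1 - γ) = q' * (q' : ℝ) ^ (-γ) := by
    rw [sub_eq_add_neg, Real.rpow_add hq0, Real.rpow_one]
  rw [h8]
  have h9 : (0 : ℝ) ≤ (q' : ℝ) ^ (-γ) := by positivity
  have h10 : (q' : ℝ) * (C * ‖x + m • α - y‖ ^ γ) ≤ q' * (C * (2 * (q' : ℝ) ^ (-γ))) := by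
    gcongr
  have h11 : (m : ℝ) * (C * ‖q' • α‖ ^ γ) ≤ q' * (C * (q' : ℝ) ^ (-γ)) := by
    gcongr
  have h12 := (abs_le.1 h1).2
  have h13 := (abs_le.1 h6).1
  nlinarith

theorem back_sum (α : T) (φ : T → ℝ) (q : ℕ) (x : T) (I : ℕ)
    (h : ∀ i, 1 ≤ i → i ≤ I → 1 / 2 ≤ S α φ q (x - (i * q) • α)) :
    (I : ℝ) / 2 ≤ S α φ (I * q) (x - (I * q) • α) := by
  induction I with
  | zero => simp [S_zero]
  | succ I ih =>
    have h1 := ih (fun i h1 h2 => h i h1 (by omega))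
    have h2 := h (I + 1) (by omega) le_rfl
    have h3 : (I + 1) * q = q + I * q := by ring
    have h4 := S_add α φ q (I * q) (x - ((I + 1) * q) • α)
    have h5 : x - ((I + 1) * q) • α + q • α = x - (I * q) • α := by
      rw [h3, add_smul]; abel
    rw [h5, ← h3] at h4
    rw [h4]
    push_cast
    linarith

/-- the key inequality at a record -/
theorem record_bound (α : ℝ) (hα : Irrational α) (φ : T → ℝ) (C γ : ℝ) (hC : 1 ≤ C)
    (hγ : 0 < γ) (hγ1 : γ ≤ 1) (h : ∀ u v, |φ u - φ v| ≤ C * ‖u - v‖ ^ γ)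
    (hz : ∀ n : ℕ, 1 ≤ n → ∃ y, S (α : T) φ n y ≤ 0) (x : T) (n₀ : ℕ)
    (hpos : ∀ n, n₀ ≤ n → 1 ≤ S (α : T) φ n x) (q : ℕ) (hq : 1 ≤ q) (hqn : n₀ ≤ q)
    (hrec : ∀ m : ℕ, 1 ≤ m → m < q → ‖q • (α : T)‖ ≤ ‖m • (α : T)‖) :
    ((4 * C * q) ^ (-(1 / γ)) / (24 * C)) ^ (1 / γ) ≤ ‖q • (α : T)‖ := by
  set θ := ‖q • (α : T)‖ with hθ
  have hθ0 : 0 < θ := norm_pos_iff.2 (nsmul_coe_ne_zero hα q hq)
  have hq0 : (0 : ℝ) < q := by exact_mod_cast hq
  have hq1 : (1 : ℝ) ≤ q := by exact_mod_cast hq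
  have hC0 : 0 < C := by linarith
  have hγi : 1 ≤ 1 / γ := by rw [le_div_iff₀ hγ]; linarith
  set κ : ℝ := (4 * C * q) ^ (-(1 / γ)) with hκ
  have hκ0 : 0 < κ := by positivity
  have hbase : 1 ≤ 4 * C * q := by nlinarith
  have hκ1 : κ ≤ (4 * C * q)⁻¹ := by
    have h1 : κ ≤ (4 * C * q) ^ (-1 : ℝ) :=
      Real.rpow_le_rpow_of_exponent_le hbase (by linarith)
    rwa [Real.rpow_neg_one] at h1
  have hκq : κ * q ≤ 1 / 4 := by
    have h1 : κ * q ≤ (4 * C * q)⁻¹ * q := mul_le_mul_of_nonneg_right hκ1 hq0.le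
    have h2 : (4 * C * q)⁻¹ * q = 1 / (4 * C) := by field_simp
    rw [h2] at h1
    refine h1.trans ?_
    apply div_le_div_of_nonneg_left (by norm_num) (by norm_num) (by linarith)
  have hκle1 : κ ≤ 1 := by nlinarith
  have hκγ : q * (C * κ ^ γ) = 1 / 4 := by
    have h1 : κ ^ γ = (4 * C * q)⁻¹ := by
      rw [hκ, ← Real.rpow_mul (by positivity)]
      have : -(1 / γ) * γ = -1 := by field_simp
      rw [this, Real.rpow_neg_one]
    rw [h1]
    field_simp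
  rcases lt_or_ge κ θ with hcase | hcase
  · -- θ large
    have h1 : κ / (24 * C) ≤ κ := div_le_self hκ0.le (by linarith)
    have h2 : (κ / (24 * C)) ^ (1 / γ) ≤ (κ / (24 * C)) ^ (1 : ℝ) :=
      Real.rpow_le_rpow_of_exponent_ge (by positivity) (h1.trans hκle1) hγi
    rw [Real.rpow_one] at h2
    linarith
  · -- θ small
    obtain ⟨q', hqq', hN', hθq', hsum, hdens⟩ := exists_next α hα q hq hrec
    rw [← hθ] at hN' hθq' hsum
    have hq'0 : (0 : ℝ) < q' := by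
      have : 0 < q' := by omega
      exact_mod_cast this
    set I : ℕ := ⌊κ / θ⌋₊ with hI
    have hI1 : 1 ≤ I := by
      rw [hI]
      apply Nat.le_floor
      rw [Nat.cast_one, le_div_iff₀ hθ0, one_mul]
      exact hcase
    have hIle : (I : ℝ) * θ ≤ κ := by
      have := Nat.floor_le (show 0 ≤ κ / θ by positivity)
      rw [← hI] at this
      rwa [le_div_iff₀ hθ0] at this
    have hIge : κ ≤ 2 * I * θ := by
      have h1 := Nat.lt_floor_add_one (κ / θ)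
      rw [← hI] at h1
      rw [div_lt_iff₀ hθ0] at h1
      have h2 : (1 : ℝ) ≤ I := by exact_mod_cast hI1
      nlinarith
    have hI0 : (0 : ℝ) < I := by exact_mod_cast hI1
    -- sums along backward multiples of q
    have hb : ∀ i, 1 ≤ i → i ≤ I → 1 / 2 ≤ S (α : T) φ q (x - (i * q) • (α : T)) := by
      intro i hi hiI
      have h1 := S_hoelder (α := (α : T)) h q (x - (i * q) • (α : T)) x
      have h2 : ‖x - (i * q) • (α : T) - x‖ ≤ κ := by
        have h3 : x - (i * q) • (α : T) - x = -((i * q) • (α : T)) := by abel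
        rw [h3, norm_neg, mul_smul]
        refine norm_nsmul_le.trans ?_
        have h4 : (i : ℝ) ≤ I := by exact_mod_cast hiI
        have h5 : (i : ℝ) * θ ≤ I * θ := mul_le_mul_of_nonneg_right h4 hθ0.le
        linarith
      have h3 : (q : ℝ) * (C * ‖x - (i * q) • (α : T) - x‖ ^ γ) ≤ 1 / 4 := by
        rw [← hκγ]
        have h4 : ‖x - (i * q) • (α : T) - x‖ ^ γ ≤ κ ^ γ :=
          Real.rpow_le_rpow (norm_nonneg _) h2 hγ.le
        gcongr
      have h4 := (abs_le.1 h1).1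
      have h5 := hpos q hqn
      linarith
    have hback := back_sum (α : T) φ q x I hb
    -- I q + n₀ ≤ q'
    have hsize : I * q + n₀ ≤ q' := by
      have h1 : ((I : ℝ) * q + n₀) * θ ≤ 1 / 2 := by
        have h2 : (n₀ : ℝ) ≤ q := by exact_mod_cast hqn
        have h3 : (n₀ : ℝ) * θ ≤ q * κ :=
          mul_le_mul h2 hcase hθ0.le hq0.le
        have h4 : (I : ℝ) * q * θ ≤ κ * q := by nlinarith
        nlinarith
      have h2 : 3 / 4 ≤ (q' : ℝ) * θ := by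
        have h3 : (q : ℝ) * θ ≤ q * κ := mul_le_mul_of_nonneg_left hcase hq0.le
        nlinarith
      have h3 : ((I : ℝ) * q + n₀) * θ < q' * θ := by linarith
      have h4 : ((I : ℝ) * q + n₀) < q' := lt_of_mul_lt_mul_right h3 hθ0.le
      have h5 : ((I * q + n₀ : ℕ) : ℝ) < q' := by push_cast; exact h4
      exact_mod_cast h5.le
    have hlow : (I : ℝ) / 4 ≤ S (α : T) φ q' x := by
      have h1 := S_add (α : T) φ (q' - I * q) (I * q) x
      have h2 : q' - I * q + I * q = q' := by omega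
      rw [h2] at h1
      have h3 := hpos (q' - I * q) (by omega)
      have h4 := S_hoelder (α := (α : T)) h (I * q) (x + (q' - I * q) • (α : T))
        (x - (I * q) • (α : T))
      have h5 : x + (q' - I * q) • (α : T) - (x - (I * q) • (α : T)) = q' • (α : T) := by
        have h6 : (q' - I * q) • (α : T) + (I * q) • (α : T) = q' • (α : T) := by
          rw [← add_smul, h2]
        rw [← h6]; abel
      rw [h5] at h4
      have h6 : ‖q' • (α : T)‖ ^ γ ≤ κ ^ γ :=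
        Real.rpow_le_rpow (norm_nonneg _) (hN'.le.trans hcase) hγ.le
      have h7 : ((I * q : ℕ) : ℝ) * (C * ‖q' • (α : T)‖ ^ γ) ≤ I / 4 := by
        push_cast
        calc (I : ℝ) * q * (C * ‖q' • (α : T)‖ ^ γ) ≤ I * q * (C * κ ^ γ) := by gcongr
          _ = I * (q * (C * κ ^ γ)) := by ring
          _ = I / 4 := by rw [hκγ]; ring
      have h8 := (abs_le.1 h4).1
      linarith
    have hup := S_le_of_next (α := (α : T)) hC0.le hγ hγ1 h q' (by omega) (hz q' (by omega))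
      (by
        rw [le_div_iff₀ hq'0]
        exact (mul_le_mul_of_nonneg_right hN'.le hq'0.le).trans hθq') hdens x
    have hq'le : (q' : ℝ) ≤ θ⁻¹ := by
      rw [← one_div, le_div_iff₀ hθ0]
      linarith
    have h1 : (q' : ℝ) ^ (1 - γ) ≤ (θ⁻¹) ^ (1 - γ) :=
      Real.rpow_le_rpow hq'0.le hq'le (by linarith)
    have h2 : (θ⁻¹) ^ (1 - γ) * θ = θ ^ γ := by
      rw [Real.inv_rpow hθ0.le, ← Real.rpow_neg hθ0.le]
      nth_rewrite 2 [← Real.rpow_one θ]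
      rw [← Real.rpow_add hθ0]
      congr 1
      ring
    have h3 : κ ≤ 24 * C * θ ^ γ := by
      have h4 : (I : ℝ) / 4 ≤ 3 * C * (θ⁻¹) ^ (1 - γ) :=
        hlow.trans (hup.trans (by gcongr))
      have h5 : (I : ℝ) / 4 * θ ≤ 3 * C * ((θ⁻¹) ^ (1 - γ) * θ) := by
        have := mul_le_mul_of_nonneg_right h4 hθ0.le
        linarith
      rw [h2] at h5
      linarith
    have h4 : κ / (24 * C) ≤ θ ^ γ := by
      rw [div_le_iff₀ (by positivity)]
      linarith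
    calc (κ / (24 * C)) ^ (1 / γ) ≤ (θ ^ γ) ^ (1 / γ) :=
          Real.rpow_le_rpow (by positivity) h4 (by positivity)
      _ = θ := by
          rw [← Real.rpow_mul hθ0.le, mul_one_div_cancel hγ.ne', Real.rpow_one]

theorem neg_main (α : ℝ) (hα : Irrational α) (φ : T → ℝ) (C γ : ℝ) (hC : 1 ≤ C)
    (hγ : 0 < γ) (hγ1 : γ ≤ 1) (h : ∀ u v, |φ u - φ v| ≤ C * ‖u - v‖ ^ γ)
    (hz : ∀ n : ℕ, 1 ≤ n → ∃ y, S (α : T) φ n y ≤ 0) (x : T) (n₀ : ℕ)
    (hpos : ∀ n, n₀ ≤ n → 1 ≤ S (α : T) φ n x) :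
    ∃ c > 0, ∀ q : ℕ, 0 < q → c / (q : ℝ) ^ (1 / γ ^ 2) ≤ ‖q • (α : T)‖ := by
  have hC0 : 0 < C := by linarith
  obtain ⟨w, hw⟩ := exists_wid (α : T) (nsmul_coe_ne_zero hα)
  have hw0 := hw.pos (n₀ + 1) (by omega)
  set c₁ : ℝ := ((4 * C) ^ (-(1 / γ)) / (24 * C)) ^ (1 / γ) with hc₁
  have hc₁0 : 0 < c₁ := by positivity
  refine ⟨min c₁ (2 * w (n₀ + 1)), lt_min hc₁0 (by linarith), fun q hq => ?_⟩
  have hq0 : (0 : ℝ) < q := by exact_mod_cast hq
  have hq1 : (1 : ℝ) ≤ q := by exact_mod_cast hq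
  obtain ⟨r, hr1, hr2, hr3, hr4⟩ := exists_record α q hq
  refine le_trans ?_ hr3
  have hr0 : (0 : ℝ) < r := by exact_mod_cast hr1
  have hrq : (r : ℝ) ≤ q := by exact_mod_cast hr2
  have hexp : 0 ≤ 1 / γ ^ 2 := by positivity
  rcases Nat.lt_or_ge r n₀ with h1 | h1
  · have h2 := hw.le (n₀ + 1) (by omega) r hr1 (by omega)
    refine le_trans ?_ h2
    refine le_trans ?_ (min_le_right c₁ (2 * w (n₀ + 1)))
    exact div_le_self (le_min hc₁0.le (by linarith)) (Real.one_le_rpow hq1 hexp)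
  · have h2 := record_bound α hα φ C γ hC hγ hγ1 h hz x n₀ hpos r hr1 h1 hr4
    refine le_trans ?_ h2
    have h3 : ((4 * C * r) ^ (-(1 / γ)) / (24 * C)) ^ (1 / γ) = c₁ / (r : ℝ) ^ (1 / γ ^ 2) := by
      rw [Real.mul_rpow (by positivity) hr0.le, hc₁]
      have h4 : (4 * C) ^ (-(1 / γ)) * (r : ℝ) ^ (-(1 / γ)) / (24 * C) =
          ((4 * C) ^ (-(1 / γ)) / (24 * C)) * (r : ℝ) ^ (-(1 / γ)) := by ring
      rw [h4, Real.mul_rpow (by positivity) (by positivity), ← Real.rpow_mul hr0.le]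
      have h5 : -(1 / γ) * (1 / γ) = -(1 / γ ^ 2) := by field_simp
      rw [h5, Real.rpow_neg hr0.le]
      rfl
    rw [h3]
    have h4 : (r : ℝ) ^ (1 / γ ^ 2) ≤ (q : ℝ) ^ (1 / γ ^ 2) :=
      Real.rpow_le_rpow hr0.le hrq hexp
    calc min c₁ (2 * w (n₀ + 1)) / (q : ℝ) ^ (1 / γ ^ 2) ≤ c₁ / (q : ℝ) ^ (1 / γ ^ 2) := by
          apply div_le_div_of_nonneg_right (min_le_left _ _) (by positivity)
      _ ≤ c₁ / (r : ℝ) ^ (1 / γ ^ 2) := by
          apply div_le_div_of_nonneg_left hc₁0.le (by positivity) h4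

end Pool.Agent.Lib.MP_f73729_an
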