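import Mathlib

/-! Calculus of the smoothed square wave `arctan (sin (2 π y) / w)`. -/

set_option autoImplicit false

namespace Pool.Agent.Lib.MP_f73729_an

/-- smoothed square wave -/
noncomputable def pf (w y : ℝ) : ℝ := Real.arctan (Real.sin (2 * Real.pi * y) / w)

theorem pf_periodic (w : ℝ) : Function.Periodic (pf w) 1 := by
  intro y
  unfold pf
  rw [mul_add, mul_one, Real.sin_add_two_pi]

theorem pf_neg (w y : ℝ) : pf w (-y) = -pf w y := by
  unfold pf
  rw [mul_neg, Real.sin_neg, neg_div, Real.arctan_neg]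

theorem pf_zero (w : ℝ) : pf w 0 = 0 := by
  unfold pf
  rw [mul_zero, Real.sin_zero, zero_div, Real.arctan_zero]

theorem abs_pf_le (w y : ℝ) : |pf w y| ≤ 2 := by
  unfold pf
  have h1 := Real.arctan_lt_pi_div_two (Real.sin (2 * Real.pi * y) / w)
  have h2 := Real.neg_pi_div_two_lt_arctan (Real.sin (2 * Real.pi * y) / w)
  have h3 := Real.pi_le_four
  rw [abs_le]
  constructor <;> linarith

private theorem sin_ge {y : ℝ} (hy : 0 ≤ y) (hy1 : y ≤ 1 / 4) : 4 * y ≤ Real.sin (2 * Real.pi * y) := by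
  have hp := Real.pi_pos
  have h := Real.mul_le_sin (x := 2 * Real.pi * y) (by positivity) (by nlinarith)
  have h2 : 2 / Real.pi * (2 * Real.pi * y) = 4 * y := by
    field_simp
    ring
  linarith

theorem pf_nonneg {w y : ℝ} (hw : 0 < w) (hy : 0 ≤ y) (hy1 : y ≤ 1 / 4) : 0 ≤ pf w y := by
  unfold pf
  rw [Real.arctan_nonneg]
  have := sin_ge hy hy1
  exact div_nonneg (by linarith) hw.le

private theorem half_le_arctan {x : ℝ} (hx : 0 ≤ x) (hx1 : x ≤ 1) : x / 2 ≤ Real.arctan x := by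
  have hp := Real.pi_gt_three
  have h1 : Real.tan (x / 2) ≤ x := by
    rw [Real.tan_eq_sin_div_cos]
    have h2 := Real.one_sub_sq_div_two_le_cos (x := x / 2)
    have h3 : 1 / 2 ≤ Real.cos (x / 2) := by nlinarith
    have h4 := Real.sin_le (x := x / 2) (by linarith)
    rw [div_le_iff₀ (by linarith)]
    nlinarith
  calc x / 2 = Real.arctan (Real.tan (x / 2)) := (Real.arctan_tan (by linarith) (by linarith)).symm
    _ ≤ Real.arctan x := Real.arctan_mono h1

theorem pf_lower {w y : ℝ} (hw : 0 < w) (hy : 0 ≤ y) (hy1 : y ≤ 1 / 4) :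
    min (y / w) 1 / 2 ≤ pf w y := by
  unfold pf
  have h0 : 0 ≤ y / w := div_nonneg hy hw.le
  have h1 : min (y / w) 1 ≤ Real.sin (2 * Real.pi * y) / w := by
    refine le_trans (min_le_left _ _) ?_
    have := sin_ge hy hy1
    exact div_le_div_of_nonneg_right (by linarith) hw.le
  exact le_trans (half_le_arctan (le_min h0 zero_le_one) (min_le_right _ _)) (Real.arctan_mono h1)

private noncomputable def pfd (w y : ℝ) : ℝ :=
  (1 + (Real.sin (2 * Real.pi * y) / w) ^ 2)⁻¹ * (Real.cos (2 * Real.pi * y) * (2 * Real.pi) / w)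

private theorem hasDerivAt_pf (w y : ℝ) : HasDerivAt (pf w) (pfd w y) y := by
  have h1 : HasDerivAt (fun y : ℝ => 2 * Real.pi * y) (2 * Real.pi) y := by
    simpa using (hasDerivAt_id y).const_mul (2 * Real.pi)
  have h2 := (h1.sin.div_const w).arctan
  have h3 : pf w = fun y => Real.arctan (Real.sin (2 * Real.pi * y) / w) := rfl
  rw [h3]
  convert h2 using 1
  unfold pfd
  rw [one_div]

private theorem inv_lip (u v : ℝ) : |(1 + u ^ 2)⁻¹ - (1 + v ^ 2)⁻¹| ≤ |u - v| := by
  have hu : 0 < 1 + u ^ 2 := by positivity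
  have hv : 0 < 1 + v ^ 2 := by positivity
  rw [inv_sub_inv hu.ne' hv.ne', abs_div, div_le_iff₀ (by positivity), abs_of_pos (mul_pos hu hv)]
  have h1 : 1 + v ^ 2 - (1 + u ^ 2) = -((u - v) * (u + v)) := by ring
  rw [h1, abs_neg, abs_mul]
  refine mul_le_mul_of_nonneg_left ?_ (abs_nonneg _)
  rw [abs_le]
  constructor <;> nlinarith [sq_nonneg (u + v), sq_nonneg (u - v), sq_nonneg (u * v), sq_nonneg (u + 1),
    sq_nonneg (u - 1), sq_nonneg (v + 1), sq_nonneg (v - 1)]

private theorem abs_inv_le (u : ℝ) : |(1 + u ^ 2)⁻¹| ≤ 1 := by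
  have hu : 0 < 1 + u ^ 2 := by positivity
  rw [abs_of_pos (inv_pos.2 hu)]
  exact inv_le_one_of_one_le₀ (by nlinarith [sq_nonneg u])

private theorem abs_pfd_le {w : ℝ} (hw : 0 < w) (y : ℝ) : |pfd w y| ≤ 100 / w := by
  unfold pfd
  have hp := Real.pi_pos
  have hp4 := Real.pi_le_four
  rw [abs_mul, abs_div, abs_mul, abs_of_pos hw, abs_of_pos (by positivity : (0 : ℝ) < 2 * Real.pi)]
  have h1 := abs_inv_le (Real.sin (2 * Real.pi * y) / w)
  have h2 := Real.abs_cos_le_one (2 * Real.pi * y)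
  have h3 : |Real.cos (2 * Real.pi * y)| * (2 * Real.pi) / w ≤ 100 / w := by
    refine div_le_div_of_nonneg_right ?_ hw.le
    nlinarith [abs_nonneg (Real.cos (2 * Real.pi * y))]
  calc _ ≤ 1 * (100 / w) := mul_le_mul h1 h3 (by positivity) zero_le_one
    _ = 100 / w := one_mul _

private theorem pfd_lip {w : ℝ} (hw : 0 < w) (hw1 : w ≤ 1) (y y' : ℝ) :
    |pfd w y - pfd w y'| ≤ 100 * |y - y'| / w ^ 2 := by
  have hp := Real.pi_pos
  have hp4 := Real.pi_lt_d2
  have hc : |Real.cos (2 * Real.pi * y) - Real.cos (2 * Real.pi * y')| ≤ 2 * Real.pi * |y - y'| := by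
    refine le_trans (Real.abs_cos_sub_cos_le _ _) ?_
    rw [← mul_sub, abs_mul, abs_of_pos (by positivity : (0 : ℝ) < 2 * Real.pi)]
  have hs : |Real.sin (2 * Real.pi * y) / w - Real.sin (2 * Real.pi * y') / w| ≤ 2 * Real.pi * |y - y'| / w := by
    rw [← sub_div, abs_div, abs_of_pos hw]
    refine div_le_div_of_nonneg_right ?_ hw.le
    refine le_trans (Real.abs_sin_sub_sin_le _ _) ?_
    rw [← mul_sub, abs_mul, abs_of_pos (by positivity : (0 : ℝ) < 2 * Real.pi)]
  set a := Real.cos (2 * Real.pi * y) with ha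
  set a' := Real.cos (2 * Real.pi * y') with ha'
  set u := Real.sin (2 * Real.pi * y) / w with hu
  set u' := Real.sin (2 * Real.pi * y') / w with hu'
  have e : pfd w y - pfd w y' = (2 * Real.pi / w) * (((1 + u ^ 2)⁻¹ - (1 + u' ^ 2)⁻¹) * a + (1 + u' ^ 2)⁻¹ * (a - a')) := by
    unfold pfd
    rw [← ha, ← ha', ← hu, ← hu']
    ring
  have h1 : |a| ≤ 1 := Real.abs_cos_le_one _
  have h2 := inv_lip u u'
  have h3 := abs_inv_le u'
  have hd := abs_nonneg (y - y')
  have h4 : |((1 + u ^ 2)⁻¹ - (1 + u' ^ 2)⁻¹) * a + (1 + u' ^ 2)⁻¹ * (a - a')| ≤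
      2 * Real.pi * |y - y'| / w + 2 * Real.pi * |y - y'| := by
    refine le_trans (abs_add_le _ _) (add_le_add ?_ ?_)
    · rw [abs_mul]
      calc _ ≤ (2 * Real.pi * |y - y'| / w) * 1 := mul_le_mul (le_trans h2 hs) h1 (abs_nonneg _) (by positivity)
        _ = _ := mul_one _
    · rw [abs_mul]
      calc _ ≤ 1 * (2 * Real.pi * |y - y'|) := mul_le_mul h3 hc (abs_nonneg _) zero_le_one
        _ = _ := one_mul _
  rw [e, abs_mul, abs_of_pos (by positivity : (0 : ℝ) < 2 * Real.pi / w)]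
  have h5 : 2 * Real.pi * |y - y'| / w + 2 * Real.pi * |y - y'| ≤ 4 * Real.pi * |y - y'| / w := by
    have : 2 * Real.pi * |y - y'| ≤ 2 * Real.pi * |y - y'| / w := by
      rw [le_div_iff₀ hw]
      have : 0 ≤ 2 * Real.pi * |y - y'| := by positivity
      nlinarith
    calc _ ≤ 2 * Real.pi * |y - y'| / w + 2 * Real.pi * |y - y'| / w := by linarith
      _ = _ := by ring
  calc 2 * Real.pi / w * |((1 + u ^ 2)⁻¹ - (1 + u' ^ 2)⁻¹) * a + (1 + u' ^ 2)⁻¹ * (a - a')|
      ≤ 2 * Real.pi / w * (4 * Real.pi * |y - y'| / w) :=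
        mul_le_mul_of_nonneg_left (le_trans h4 h5) (by positivity)
    _ = 8 * Real.pi ^ 2 * |y - y'| / w ^ 2 := by
        field_simp
        ring
    _ ≤ 100 * |y - y'| / w ^ 2 := by
        refine div_le_div_of_nonneg_right (mul_le_mul_of_nonneg_right ?_ hd) (by positivity)
        nlinarith

theorem pf_diff {w : ℝ} (hw : 0 < w) (y t : ℝ) : |pf w (y + t) - pf w y| ≤ 100 * |t| / w := by
  have h := Convex.norm_image_sub_le_of_norm_hasDerivWithin_le (f := pf w) (f' := pfd w) (C := 100 / w)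
    (s := Set.univ) (x := y) (y := y + t) (fun x _ => (hasDerivAt_pf w x).hasDerivWithinAt)
    (fun x _ => abs_pfd_le hw x) convex_univ (Set.mem_univ _) (Set.mem_univ _)
  rw [add_sub_cancel_left, Real.norm_eq_abs, Real.norm_eq_abs] at h
  calc _ ≤ 100 / w * |t| := h
    _ = _ := by ring

theorem pf_diff2 {w : ℝ} (hw : 0 < w) (hw1 : w ≤ 1) (y y' t : ℝ) :
    |(pf w (y + t) - pf w y) - (pf w (y' + t) - pf w y')| ≤ 100 * |t| * |y - y'| / w ^ 2 := by
  have hG : ∀ x : ℝ, HasDerivAt (fun t => pf w (y + t) - pf w (y' + t)) (pfd w (y + x) - pfd w (y' + x)) x := by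
    intro x
    have h1 : HasDerivAt (fun t : ℝ => y + t) 1 x := by simpa using (hasDerivAt_id x).const_add y
    have h2 : HasDerivAt (fun t : ℝ => y' + t) 1 x := by simpa using (hasDerivAt_id x).const_add y'
    have h3 := (hasDerivAt_pf w (y + x)).comp x h1
    have h4 := (hasDerivAt_pf w (y' + x)).comp x h2
    have h5 := h3.sub h4
    rw [mul_one, mul_one] at h5
    exact h5
  have h := Convex.norm_image_sub_le_of_norm_hasDerivWithin_le (f := fun t => pf w (y + t) - pf w (y' + t))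
    (f' := fun x => pfd w (y + x) - pfd w (y' + x)) (C := 100 * |y - y'| / w ^ 2)
    (s := Set.univ) (x := 0) (y := t) (fun x _ => (hG x).hasDerivWithinAt)
    (fun x _ => by
      have := pfd_lip hw hw1 (y + x) (y' + x)
      rwa [add_sub_add_right_eq_sub] at this) convex_univ (Set.mem_univ _) (Set.mem_univ _)
  simp only [add_zero, sub_zero, Real.norm_eq_abs] at h
  calc |(pf w (y + t) - pf w y) - (pf w (y' + t) - pf w y')|
      = |(pf w (y + t) - pf w (y' + t)) - (pf w y - pf w y')| := by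
        congr 1
        ring
    _ ≤ 100 * |y - y'| / w ^ 2 * |t| := h
    _ = _ := by ring

end Pool.Agent.Lib.MP_f73729_an
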