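import Pool.Agent.Lib.MP_f73729_an.NegMain

/-! From the Besicovitch property to Birkhoff sums that stay positive at one point. -/

set_option autoImplicit false

namespace Pool.Agent.Lib.MP_f73729_an

open Finset Filter Topology

/-- The Besicovitch property gives, up to the sign of `φ`, a point where the Birkhoff sums tend to
`+∞`, while no Birkhoff sum is positive everywhere. -/
theorem reduce (α : ℝ) (hα : Irrational α) (φ : T → ℝ) (γ : ℝ) (hγ : 0 < γ)
    (hH : ∃ C, ∀ u v, |φ u - φ v| ≤ C * ‖u - v‖ ^ γ)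
    (hB : (∃ p, Dense (orbit (α : T) φ p)) ∧ ∃ p, ∀ z, ¬ AccPt z (𝓟 (orbit (α : T) φ p))) :
    ∃ (ψ : T → ℝ) (C : ℝ) (x : T), 1 ≤ C ∧ (∀ u v, |ψ u - ψ v| ≤ C * ‖u - v‖ ^ γ) ∧
      (∀ n : ℕ, 1 ≤ n → ∃ y, S (α : T) ψ n y ≤ 0) ∧
      ∀ R : ℝ, ∃ n₀ : ℕ, ∀ n, n₀ ≤ n → R ≤ S (α : T) ψ n x := by
  obtain ⟨C₀, hC₀⟩ := hH
  set C := max C₀ 1 with hC
  have hH : ∀ u v, |φ u - φ v| ≤ C * ‖u - v‖ ^ γ := fun u v =>
    (hC₀ u v).trans (mul_le_mul_of_nonneg_right (le_max_left _ _) (by positivity))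
  have hC1 : 1 ≤ C := le_max_right _ _
  have hφ : Continuous φ := by
    rw [Metric.continuous_iff]
    intro b ε hε
    have h1 : Tendsto (fun t : ℝ => C * t ^ γ) (𝓝 0) (𝓝 (C * 0 ^ γ)) :=
      ((Real.continuous_rpow_const hγ.le).tendsto 0).const_mul C
    rw [Real.zero_rpow hγ.ne', mul_zero] at h1
    obtain ⟨δ, hδ, hδ'⟩ := Metric.eventually_nhds_iff.1 (h1.eventually_lt_const hε)
    refine ⟨δ, hδ, fun a hab => ?_⟩
    rw [Real.dist_eq]
    refine (hH a b).trans_lt (hδ' ?_)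
    rw [dist_eq_norm] at hab
    rwa [Real.dist_eq, sub_zero, abs_of_nonneg (norm_nonneg _)]
  obtain ⟨hdense, p, hp⟩ := hB
  obtain ⟨y₁, -, hy₁⟩ := isCompact_univ.exists_isMaxOn (s := (Set.univ : Set T)) ⟨0, trivial⟩
    hφ.abs.continuousOn
  set Φ := |φ y₁| with hΦd
  have hΦ : ∀ y, |φ y| ≤ Φ := fun y => hy₁ (Set.mem_univ y)
  have hΦ0 : 0 ≤ Φ := abs_nonneg _
  obtain ⟨n₀, hn₀⟩ := abs_S_large hα p hp (Φ + 1)
  have hstep : ∀ n, S (α : T) φ (n + 1) p.1 = S (α : T) φ n p.1 + φ (p.1 + n • (α : T)) := by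
    intro n
    rw [S_add, S_one]
  rcases le_or_gt 0 (S (α : T) φ n₀ p.1) with hsign | hsign
  · -- positive case
    have hpos : ∀ n, n₀ ≤ n → Φ + 1 ≤ S (α : T) φ n p.1 := by
      intro n hn
      induction n, hn using Nat.le_induction with
      | base =>
        have h1 := hn₀ n₀ le_rfl
        rwa [abs_of_nonneg hsign] at h1
      | succ n hn ih =>
        have h1 := hn₀ (n + 1) (by omega)
        have h2 := (abs_le.1 (hΦ (p.1 + n • (α : T)))).1
        have h3 : 0 ≤ S (α : T) φ (n + 1) p.1 := by rw [hstep]; linarith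
        rwa [abs_of_nonneg h3] at h1
    refine ⟨φ, C, p.1, hC1, hH, fun n hn => exists_nonpos hφ hdense n hn, fun R => ?_⟩
    obtain ⟨n₁, hn₁⟩ := abs_S_large hα p hp R
    refine ⟨max n₀ n₁, fun n hn => ?_⟩
    have h1 := hpos n ((le_max_left _ _).trans hn)
    have h2 := hn₁ n ((le_max_right _ _).trans hn)
    rwa [abs_of_nonneg (by linarith)] at h2
  · -- negative case
    have hneg : ∀ n, n₀ ≤ n → S (α : T) φ n p.1 ≤ -(Φ + 1) := by
      intro n hn
      induction n, hn using Nat.le_induction with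
      | base =>
        have h1 := hn₀ n₀ le_rfl
        rw [abs_of_neg hsign] at h1
        linarith
      | succ n hn ih =>
        have h1 := hn₀ (n + 1) (by omega)
        have h2 := (abs_le.1 (hΦ (p.1 + n • (α : T)))).2
        have h3 : S (α : T) φ (n + 1) p.1 < 0 := by rw [hstep]; linarith
        rw [abs_of_neg h3] at h1
        linarith
    have hSneg : ∀ n x, S (α : T) (fun x => -φ x) n x = -S (α : T) φ n x := by
      intro n x
      unfold S
      rw [← Finset.sum_neg_distrib]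
    have hcyl : ∀ N : ℤ, ∀ z : T × ℝ, (cyl (α : T) (fun x => -φ x) ^ N) (z.1, -z.2) =
        (((cyl (α : T) φ ^ N) z).1, -((cyl (α : T) φ ^ N) z).2) := by
      intro N z
      rcases Int.eq_nat_or_neg N with ⟨k, rfl | rfl⟩
      · rw [zpow_natCast, zpow_natCast, cyl_pow, cyl_pow]
        simp only [hSneg]
        rw [neg_add]
      · rw [cyl_pow_neg, cyl_pow_neg]
        simp only [hSneg]
        congr 1
        ring
    have hdense' : ∃ p, Dense (orbit (α : T) (fun x => -φ x) p) := by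
      obtain ⟨p', hp'⟩ := hdense
      refine ⟨(p'.1, -p'.2), ?_⟩
      let e : (T × ℝ) ≃ₜ (T × ℝ) := (Homeomorph.refl T).prodCongr (Homeomorph.neg ℝ)
      have h1 : orbit (α : T) (fun x => -φ x) (p'.1, -p'.2) = e '' orbit (α : T) φ p' := by
        unfold orbit
        rw [← Set.range_comp]
        congr 1
        funext N
        rw [hcyl N p']
        rfl
      rw [h1]
      exact e.surjective.denseRange.dense_image e.continuous hp'
    have hH' : ∀ u v, |(-φ u) - (-φ v)| ≤ C * ‖u - v‖ ^ γ := by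
      intro u v
      have h1 : -φ u - -φ v = -(φ u - φ v) := by ring
      rw [h1, abs_neg]
      exact hH u v
    refine ⟨fun x => -φ x, C, p.1, hC1, hH',
      fun n hn => exists_nonpos hφ.neg hdense' n hn, fun R => ?_⟩
    obtain ⟨n₁, hn₁⟩ := abs_S_large hα p hp R
    refine ⟨max n₀ n₁, fun n hn => ?_⟩
    have h1 := hneg n ((le_max_left _ _).trans hn)
    have h2 := hn₁ n ((le_max_right _ _).trans hn)
    rw [abs_of_neg (by linarith)] at h2
    rwa [hSneg]

end Pool.Agent.Lib.MP_f73729_an
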