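import Pool.Agent.Lib.MP_f73729_an.ConstrB
import Pool.Agent.Lib.MP_f73729_an.AlphaS
import Pool.Agent.Lib.MP_f73729_an.Expo

/-! Assembly: the exponent `1/γ²` is optimal. -/

set_option autoImplicit false

namespace Pool.Agent.Lib.MP_f73729_an

open Finset Filter Topology

theorem sharp (γ τ : ℝ) (hγ : 0 < γ) (hγ1 : γ < 1) (hτ1 : 1 < τ) (hτ : τ * γ ^ 2 < 1) :
    ∃ (α : ℝ) (φ : T → ℝ), Irrational α ∧
      (∃ c > 0, ∀ q : ℕ, 0 < q → c / (q : ℝ) ^ τ ≤ ‖q • (α : T)‖) ∧
      (∀ N : ℕ, ∃ q : ℕ, N ≤ q ∧ ‖q • (α : T)‖ ≤ 1 / (q : ℝ) ^ τ) ∧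
      Continuous φ ∧ (∃ C, ∀ u v, |φ u - φ v| ≤ C * ‖u - v‖ ^ γ) ∧
      (∃ p, Dense (orbit (α : T) φ p)) ∧ ∃ p, ∀ z, ¬ AccPt z (𝓟 (orbit (α : T) φ p)) := by
  classical
  obtain ⟨δ, σ, l, hδ, hσ, hστ, hl0, hl1, hE1, hE2, hinf⟩ := exists_exponents γ τ hγ hγ1 hτ1 hτ
  obtain ⟨N, hN1, hN⟩ := exists_pow_ge 128 δ hδ
  obtain ⟨α, Q, hα, hQm, hQ0, hQ⟩ := exists_alpha σ (fun k => by have := hσ k; linarith)
    (max N 2) (le_max_right _ _)
  have hQN : ∀ k, max N 2 ≤ Q k := fun k => by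
    rw [← hQ0]; exact hQm.monotone (Nat.zero_le k)
  have hQ1 : ∀ k, 1 ≤ Q k := fun k => by
    have := (le_max_right N 2).trans (hQN k); omega
  have hQr1 : ∀ k, (1 : ℝ) ≤ Q k := fun k => by exact_mod_cast hQ1 k
  have hQr : ∀ k, (0 : ℝ) < Q k := fun k => lt_of_lt_of_le one_pos (hQr1 k)
  have hQδ : ∀ k, 128 ≤ (Q k : ℝ) ^ δ := fun k => hN (Q k) ((le_max_left _ _).trans (hQN k))
  have hθ0 : ∀ k, 0 < ‖Q k • (α : T)‖ := fun k => norm_pos_iff.2 (nsmul_coe_ne_zero hα _ (hQ1 k))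
  set θ : ℕ → ℝ := fun k => ‖Q k • (α : T)‖ with hθ
  -- the widths and heights
  set ω : ℕ → ℝ := fun k => (1 - l k - δ) / γ - 1 with hω
  have hω0 : ∀ k, 0 ≤ ω k := by
    intro k
    rw [hω]
    simp only
    rw [sub_nonneg, le_div_iff₀ hγ]
    linarith [hl1 k]
  set w : ℕ → ℝ := fun k => max (Q k * θ k) ((Q k : ℝ) ^ (-ω k)) with hw
  have hw0 : ∀ k, 0 < w k := fun k => lt_max_of_lt_left (mul_pos (hQr k) (hθ0 k))
  have hw1 : ∀ k, w k ≤ 1 := by
    intro k
    apply max_le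
    · have h1 := (hQ k).2.1
      have h2 : (Q k : ℝ) ≤ Q (k + 1) := by exact_mod_cast (hQm (Nat.lt_succ_self k)).le
      have h3 : Q k * θ k ≤ Q (k + 1) * θ k := mul_le_mul_of_nonneg_right h2 (hθ0 k).le
      have h4 : (Q (k + 1) : ℝ) * θ k = θ k * Q (k + 1) := mul_comm _ _
      have h5 : θ k * Q (k + 1) ≤ 1 := h1
      linarith
    · exact Real.rpow_le_one_of_one_le_of_nonpos (hQr1 k) (by linarith [hω0 k])
  set L : ℕ → ℝ := fun k => (Q k : ℝ) ^ l k with hL
  have hL1 : ∀ k, 1 ≤ L k := fun k => Real.one_le_rpow (hQr1 k) (hl0 k)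
  set B : ℕ → ℝ := fun k => 8 * L k * (w k / (Q k * θ k)) with hB
  have hratio : ∀ k, 1 ≤ w k / (Q k * θ k) := by
    intro k
    rw [le_div_iff₀ (mul_pos (hQr k) (hθ0 k)), one_mul]
    exact le_max_left _ _
  have hBL : ∀ k, 8 * L k ≤ B k := fun k =>
    le_mul_of_one_le_right (by linarith [hL1 k]) (hratio k)
  -- the next L dominates
  have hnext : ∀ k, 4 * B k ≤ L (k + 1) := by
    intro k
    have hq0 := hQr k
    have hq1 := hQr1 k
    have hlow : (Q k : ℝ) ^ (σ k * l (k + 1)) ≤ L (k + 1) := by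
      rw [hL, Real.rpow_mul hq0.le]
      exact Real.rpow_le_rpow (by positivity) (hQ k).1 (hl0 (k + 1))
    rcases le_total ((Q k : ℝ) ^ (-ω k)) (Q k * θ k) with hc | hc
    · have h1 : w k = Q k * θ k := max_eq_left hc
      have h2 : B k = 8 * L k := by
        rw [hB]
        simp only
        rw [h1, div_self (mul_pos hq0 (hθ0 k)).ne', mul_one]
      rw [h2]
      refine le_trans ?_ hlow
      have h3 : (Q k : ℝ) ^ (l k + δ) ≤ (Q k : ℝ) ^ (σ k * l (k + 1)) :=
        Real.rpow_le_rpow_of_exponent_le hq1 (hE1 k)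
      refine le_trans ?_ h3
      rw [Real.rpow_add hq0]
      have h4 : 0 < (Q k : ℝ) ^ l k := by positivity
      have h5 := hQδ k
      have h6 : L k = (Q k : ℝ) ^ l k := rfl
      rw [h6]
      nlinarith
    · have h1 : w k = (Q k : ℝ) ^ (-ω k) := max_eq_right hc
      have h2 := (hQ k).2.2 (Q k) le_rfl (hQm (Nat.lt_succ_self k))
      have h3 : 1 / θ k ≤ 4 * (Q k : ℝ) ^ σ k := by
        rw [div_le_iff₀ (hθ0 k)]
        have h4 : (Q k : ℝ) ^ (-σ k) / 4 ≤ θ k := h2
        have h5 : (Q k : ℝ) ^ σ k * (Q k : ℝ) ^ (-σ k) = 1 := by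
          rw [← Real.rpow_add hq0, add_neg_cancel, Real.rpow_zero]
        have h6 : 4 * (Q k : ℝ) ^ σ k * ((Q k : ℝ) ^ (-σ k) / 4) ≤ 4 * (Q k : ℝ) ^ σ k * θ k :=
          mul_le_mul_of_nonneg_left h4 (by positivity)
        have h7 : 4 * (Q k : ℝ) ^ σ k * ((Q k : ℝ) ^ (-σ k) / 4) =
            (Q k : ℝ) ^ σ k * (Q k : ℝ) ^ (-σ k) := by ring
        rw [h7, h5] at h6
        exact h6
      have h4 : B k = 8 * ((Q k : ℝ) ^ (l k - ω k - 1) * (1 / θ k)) := by
        rw [hB]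
        simp only
        rw [h1]
        have h5 : (Q k : ℝ) ^ (l k - ω k - 1) = (Q k : ℝ) ^ l k * (Q k : ℝ) ^ (-ω k) / Q k := by
          rw [Real.rpow_sub_one hq0.ne', sub_eq_add_neg, Real.rpow_add hq0]
        rw [h5]
        have h6 : L k = (Q k : ℝ) ^ l k := rfl
        rw [h6]
        have h7 := (hθ0 k).ne'
        have h8 : θ k ≠ 0 := h7
        field_simp
      have h5 : 4 * B k ≤ 128 * (Q k : ℝ) ^ (l k - ω k - 1 + σ k) := by
        rw [h4, Real.rpow_add hq0]
        have h6 : (Q k : ℝ) ^ (l k - ω k - 1) * (1 / θ k) ≤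
            (Q k : ℝ) ^ (l k - ω k - 1) * (4 * (Q k : ℝ) ^ σ k) :=
          mul_le_mul_of_nonneg_left h3 (by positivity)
        nlinarith
      have h6 : l k - ω k - 1 + σ k ≤ σ k * l (k + 1) - δ := by
        have h7 := hE2 k
        rw [hω]
        simp only
        nlinarith
      have h7 : (Q k : ℝ) ^ (l k - ω k - 1 + σ k) ≤ (Q k : ℝ) ^ (σ k * l (k + 1) - δ) :=
        Real.rpow_le_rpow_of_exponent_le hq1 h6
      have h8 : (Q k : ℝ) ^ (σ k * l (k + 1)) =
          (Q k : ℝ) ^ (σ k * l (k + 1) - δ) * (Q k : ℝ) ^ δ := by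
        rw [← Real.rpow_add hq0, sub_add_cancel]
      have h9 := hQδ k
      have h10 : 0 < (Q k : ℝ) ^ (σ k * l (k + 1) - δ) := by positivity
      refine le_trans ?_ hlow
      rw [h8]
      nlinarith
  have hsum : ∀ k : ℕ, 2 * ∑ j ∈ range k, B j + (k : ℝ) ≤ L k := by
    intro k
    induction k with
    | zero => simp only [range_zero, sum_empty, mul_zero, Nat.cast_zero, add_zero]
              linarith [hL1 0]
    | succ k ih =>
      rw [sum_range_succ]
      push_cast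
      have h1 := hnext k
      have h2 := hBL k
      have h3 := hL1 k
      linarith
  -- growth of Q
  have hgeo : ∀ k, (128 : ℝ) ^ k ≤ Q k := by
    intro k
    induction k with
    | zero => rw [pow_zero]; exact hQr1 0
    | succ k ih =>
      have h1 : (Q k : ℝ) ^ (1 + δ) ≤ (Q k : ℝ) ^ σ k :=
        Real.rpow_le_rpow_of_exponent_le (hQr1 k) (hσ k)
      rw [Real.rpow_add (hQr k), Real.rpow_one] at h1
      have h2 := (hQ k).1
      have h3 := hQδ k
      have h4 := hQr k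
      rw [pow_succ]
      nlinarith
  -- summability
  set D : ℕ → ℝ := fun k => 8 * (Q k : ℝ) ^ (-δ) with hD
  have hDs : Summable D := by
    apply Summable.mul_left
    have h1 : (128 : ℝ) ^ (-δ) < 1 := Real.rpow_lt_one_of_one_lt_of_neg (by norm_num) (by linarith)
    refine Summable.of_nonneg_of_le (fun k => by have := hQr k; positivity) (fun k => ?_)
      (summable_geometric_of_lt_one (by positivity) h1)
    have h2 : ((128 : ℝ) ^ (-δ)) ^ k = ((128 : ℝ) ^ k) ^ (-δ) := by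
      rw [← Real.rpow_natCast, ← Real.rpow_natCast, ← Real.rpow_mul (by norm_num),
        ← Real.rpow_mul (by norm_num), mul_comm]
    rw [h2]
    exact Real.rpow_le_rpow_of_nonpos (by positivity) (hgeo k) (by linarith)
  obtain ⟨φ, h1, h2, h3, h4⟩ := construct α hα γ hγ hγ1.le Q B w D hQ1 hQm
    (fun k => by have := hBL k; have := hL1 k; linarith) hw0 hw1 (fun k => (hQ k).2.1)
    (fun k => by
      refine (hsum k).trans ?_
      have h1 : (Q k : ℝ) * ‖Q k • (α : T)‖ / (4 * w k) ≤ 1 := by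
        rw [div_le_one (by have := hw0 k; positivity)]
        have h2 : (Q k : ℝ) * ‖Q k • (α : T)‖ ≤ w k := le_max_left _ _
        linarith [hw0 k]
      rw [min_eq_left h1]
      have h2 : B k / 2 * ((Q k : ℝ) * ‖Q k • (α : T)‖ / (4 * w k)) = L k := by
        rw [hB]
        have h3 := (hw0 k).ne'
        have h4 := (hθ0 k).ne'
        have h5 := (hQr k).ne'
        have h6 : θ k = ‖Q k • (α : T)‖ := rfl
        simp only [h6]
        field_simp
        ring
      rw [h2])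
    (fun k => by
      have hq0 := hQr k
      have h1 : B k * ‖Q k • (α : T)‖ / w k = 8 * L k / Q k := by
        rw [hB]
        have h3 := (hw0 k).ne'
        have h4 := (hθ0 k).ne'
        have h5 := (hQr k).ne'
        have h6 : θ k = ‖Q k • (α : T)‖ := rfl
        simp only [h6]
        field_simp
      rw [h1]
      have h2 : (Q k : ℝ) / w k ≤ (Q k : ℝ) ^ (1 + ω k) := by
        rw [div_le_iff₀ (hw0 k), Real.rpow_add hq0, Real.rpow_one]
        have h3 : (Q k : ℝ) ^ (-ω k) ≤ w k := le_max_right _ _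
        have h4 : (Q k : ℝ) ^ ω k * (Q k : ℝ) ^ (-ω k) = 1 := by
          rw [← Real.rpow_add hq0, add_neg_cancel, Real.rpow_zero]
        have h5 : (Q k : ℝ) ^ ω k * (Q k : ℝ) ^ (-ω k) ≤ (Q k : ℝ) ^ ω k * w k :=
          mul_le_mul_of_nonneg_left h3 (by positivity)
        rw [h4] at h5
        nlinarith
      have h3 : ((Q k : ℝ) / w k) ^ γ ≤ (Q k : ℝ) ^ (1 - l k - δ) := by
        have h4 : (Q k : ℝ) ^ (1 - l k - δ) = ((Q k : ℝ) ^ (1 + ω k)) ^ γ := by
          rw [← Real.rpow_mul hq0.le]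
          congr 1
          rw [hω]
          field_simp
          ring
        rw [h4]
        exact Real.rpow_le_rpow (div_nonneg hq0.le (hw0 k).le) h2 hγ.le
      have h4 : 8 * L k / Q k = 8 * (Q k : ℝ) ^ (l k - 1) := by
        have h6 : L k = (Q k : ℝ) ^ l k := rfl
        rw [Real.rpow_sub_one hq0.ne', h6]
        ring
      rw [h4]
      calc 8 * (Q k : ℝ) ^ (l k - 1) * ((Q k : ℝ) / w k) ^ γ
          ≤ 8 * (Q k : ℝ) ^ (l k - 1) * (Q k : ℝ) ^ (1 - l k - δ) :=
            mul_le_mul_of_nonneg_left h3 (by positivity)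
        _ = D k := by
            rw [hD, mul_assoc, ← Real.rpow_add hq0]
            congr 2
            ring) hDs
  refine ⟨α, φ, hα, ?_, fun M => ?_, h1, h2, h3, h4⟩
  · obtain ⟨c, hc0, hc⟩ := small_lower α hα (Q 0)
    refine ⟨min c (1 / 4), lt_min hc0 (by norm_num), fun q hq => ?_⟩
    have hq0 : (0 : ℝ) < q := by exact_mod_cast hq
    have hq1 : (1 : ℝ) ≤ q := by exact_mod_cast hq
    have hqτ : 1 ≤ (q : ℝ) ^ τ := Real.one_le_rpow hq1 (by linarith)
    rcases Nat.lt_or_ge q (Q 0) with h5 | h5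
    · refine le_trans ?_ (hc q hq h5.le)
      exact (div_le_self (le_min hc0.le (by norm_num)) hqτ).trans (min_le_left _ _)
    · have hex : ∃ K, q < Q (K + 1) := ⟨q, by
        have : q + 1 ≤ Q (q + 1) := hQm.le_apply
        omega⟩
      have h6 := Nat.find_spec hex
      have h7 : Q (Nat.find hex) ≤ q := by
        by_contra hc'
        push Not at hc'
        rcases Nat.eq_zero_or_pos (Nat.find hex) with h0 | h0
        · rw [h0] at hc'; omega
        · apply Nat.find_min hex (m := Nat.find hex - 1) (by omega)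
          have : Nat.find hex - 1 + 1 = Nat.find hex := by omega
          rw [this]
          exact hc'
      set k := Nat.find hex with hk
      refine le_trans ?_ ((hQ k).2.2 q h7 h6)
      have h8 : (Q k : ℝ) ^ σ k ≤ (q : ℝ) ^ τ :=
        (Real.rpow_le_rpow_of_exponent_le (hQr1 k) (hστ k)).trans
          (Real.rpow_le_rpow (hQr k).le (by exact_mod_cast h7) (by linarith))
      rw [Real.rpow_neg (hQr k).le]
      have h9 : (0 : ℝ) < (Q k : ℝ) ^ σ k := by have := hQr k; positivity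
      calc min c (1 / 4) / (q : ℝ) ^ τ ≤ 1 / 4 / (q : ℝ) ^ τ :=
            div_le_div_of_nonneg_right (min_le_right _ _) (by positivity)
        _ ≤ 1 / 4 / (Q k : ℝ) ^ σ k := div_le_div_of_nonneg_left (by norm_num) h9 h8
        _ = _ := by ring
  · obtain ⟨k, hk1, hk2⟩ := hinf M
    refine ⟨Q k, hk1.trans hQm.le_apply, ?_⟩
    have hq0 := hQr k
    have h5 := (hQ k).1
    have h6 := (hQ k).2.1
    rw [hk2] at h5
    rw [le_div_iff₀ (by positivity)]
    exact (mul_le_mul_of_nonneg_left h5 (hθ0 k).le).trans h6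

end Pool.Agent.Lib.MP_f73729_an
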