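import Pool.Agent.Lib.MP_f73729_an.StepL

/-! The gain of an exponent in each step. -/

set_option autoImplicit false

namespace Pool.Agent.Lib.MP_f73729_an

open Finset Filter Topology

theorem exists_pow_ge (a e : ℝ) (he : 0 < e) : ∃ M : ℕ, 1 ≤ M ∧ ∀ q : ℕ, M ≤ q →
    a ≤ (q : ℝ) ^ e := by
  have h1 : Tendsto (fun q : ℕ => (q : ℝ) ^ e) atTop atTop :=
    (tendsto_rpow_atTop he).comp tendsto_natCast_atTop_atTop
  obtain ⟨M, hM⟩ := eventually_atTop.1 (h1.eventually_ge_atTop a)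
  exact ⟨M + 1, by omega, fun q hq => hM q (by omega)⟩

/-- one step of the bootstrap, uniform in `l` -/
theorem step_exp (α : ℝ) (hα : Irrational α) (φ : T → ℝ) (C γ : ℝ) (hC : 1 ≤ C)
    (hγ : 0 < γ) (hγ1 : γ ≤ 1) (h : ∀ u v, |φ u - φ v| ≤ C * ‖u - v‖ ^ γ) (x : T) (n₀ : ℕ)
    (hpos : ∀ n, n₀ ≤ n → 1 ≤ S (α : T) φ n x) (τ : ℝ) (hτ : 1 < τ * γ) :
    ∃ M : ℕ, ∀ l : ℝ, 0 ≤ l → l ≤ 1 - γ → ∀ q q' : ℕ, Consec α q q' → M ≤ q →
      ‖q • (α : T)‖ ≤ (q : ℝ) ^ (-τ) → (q : ℝ) ^ l ≤ S (α : T) φ q x →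
      (q' : ℝ) ^ (l + (γ - 1 / τ) / 2) ≤ S (α : T) φ q' x := by
  have hτ0 : 0 < τ := by
    by_contra hcon
    push Not at hcon
    nlinarith
  have hη : 0 < (γ - 1 / τ) / 2 := by
    have : 1 / τ < γ := by rw [div_lt_iff₀ hτ0]; linarith
    linarith
  set η := (γ - 1 / τ) / 2 with hηd
  have hC0 : 0 < C := by linarith
  set c : ℝ := (16 * C) ^ (-(1 / γ)) / 16 with hc
  have hc0 : 0 < c := by positivity
  obtain ⟨M₁, hM₁, hM₁'⟩ := exists_pow_ge (16 * C) (τ * γ - 1) (by linarith)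
  obtain ⟨M₂, hM₂, hM₂'⟩ := exists_pow_ge (1 / c) η hη
  refine ⟨max n₀ (max M₁ M₂), fun l hl0 hl1 q q' hcs hMq hθ hS => ?_⟩
  have hq : 1 ≤ q := hcs.rec1.1
  have hqn : n₀ ≤ q := (le_max_left _ _).trans hMq
  have hqM₁ : M₁ ≤ q := (le_max_left _ _).trans ((le_max_right _ _).trans hMq)
  have hqM₂ : M₂ ≤ q' := (le_max_right _ _).trans ((le_max_right _ _).trans (hMq.trans hcs.lt.le))
  have hq0 : (0 : ℝ) < q := by exact_mod_cast hq
  have hq1 : (1 : ℝ) ≤ q := by exact_mod_cast hq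
  have hqq' : (q : ℝ) ≤ q' := by exact_mod_cast hcs.lt.le
  have hq'0 : (0 : ℝ) < q' := lt_of_lt_of_le hq0 hqq'
  have hq'1 : (1 : ℝ) ≤ q' := hq1.trans hqq'
  have hLu : (q : ℝ) ^ l ≤ 3 * C * (q : ℝ) ^ (1 - γ) := by
    have h1 : (q : ℝ) ^ l ≤ (q : ℝ) ^ (1 - γ) := Real.rpow_le_rpow_of_exponent_le hq1 hl1
    have h2 : 0 ≤ (q : ℝ) ^ (1 - γ) := by positivity
    nlinarith
  have hθκ : ‖q • (α : T)‖ ≤ ((q : ℝ) ^ l / (16 * C * q)) ^ (1 / γ) := by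
    refine hθ.trans ?_
    have h1 : (q : ℝ) ^ (-τ) = ((q : ℝ) ^ (-(τ * γ))) ^ (1 / γ) := by
      rw [← Real.rpow_mul hq0.le]
      congr 1
      field_simp
    rw [h1]
    apply Real.rpow_le_rpow (by positivity) _ (by positivity)
    rw [le_div_iff₀ (by positivity)]
    have h2 := hM₁' q hqM₁
    have h3 : (q : ℝ) ^ (-(τ * γ)) * (16 * C * q) = 16 * C * (q : ℝ) ^ (1 - τ * γ) := by
      rw [sub_eq_add_neg, Real.rpow_add hq0, Real.rpow_one]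
      ring
    rw [h3]
    have h4 : (q : ℝ) ^ (τ * γ - 1) * (q : ℝ) ^ (1 - τ * γ) = 1 := by
      rw [← Real.rpow_add hq0]
      have : τ * γ - 1 + (1 - τ * γ) = 0 := by ring
      rw [this, Real.rpow_zero]
    have h5 : 16 * C * (q : ℝ) ^ (1 - τ * γ) ≤ (q : ℝ) ^ (τ * γ - 1) * (q : ℝ) ^ (1 - τ * γ) :=
      mul_le_mul_of_nonneg_right h2 (by positivity)
    rw [h4] at h5
    exact h5.trans (Real.one_le_rpow hq1 hl0)
  have hstep := step_ineq α hα φ C γ hC hγ hγ1 h x n₀ hpos q q' hcs hqn ((q : ℝ) ^ l)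
    (by positivity) hS hLu hθκ
  -- the exponent of q
  set e : ℝ := l + (l - 1) / γ with he
  have he0 : e ≤ 0 := by
    have h1 : e = (l * (1 + γ) - 1) / γ := by rw [he]; field_simp; ring
    rw [h1]
    apply div_nonpos_of_nonpos_of_nonneg _ hγ.le
    nlinarith
  have hκ : ((q : ℝ) ^ l / (16 * C * q)) ^ (1 / γ) * q' * (q : ℝ) ^ l / 8 =
      (16 * C) ^ (-(1 / γ)) * (q' : ℝ) * (q : ℝ) ^ e / 8 := by
    have h1 : (q : ℝ) ^ l / (16 * C * q) = (16 * C)⁻¹ * (q : ℝ) ^ (l - 1) := by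
      rw [Real.rpow_sub_one hq0.ne']
      field_simp
    rw [h1, Real.mul_rpow (by positivity) (by positivity), ← Real.rpow_mul hq0.le,
      Real.inv_rpow (by positivity), ← Real.rpow_neg (by positivity), he]
    have h2 : (q : ℝ) ^ (l + (l - 1) / γ) = (q : ℝ) ^ l * (q : ℝ) ^ ((l - 1) * (1 / γ)) := by
      rw [← Real.rpow_add hq0]
      congr 1
      ring
    rw [h2]
    ring
  rw [hκ] at hstep
  -- q in terms of q'
  have hqτ : (q : ℝ) ^ τ ≤ 2 * q' := by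
    have h1 := hcs.low
    have h2 : ‖q • (α : T)‖ * (q + q') ≤ (q : ℝ) ^ (-τ) * (2 * q') := by
      apply mul_le_mul hθ (by linarith) (by positivity) (by positivity)
    have h3 : (q : ℝ) ^ τ * (q : ℝ) ^ (-τ) = 1 := by
      rw [← Real.rpow_add hq0, add_neg_cancel, Real.rpow_zero]
    have h4 : (q : ℝ) ^ τ * 1 ≤ (q : ℝ) ^ τ * ((q : ℝ) ^ (-τ) * (2 * q')) :=
      mul_le_mul_of_nonneg_left (h1.trans h2) (by positivity)
    rw [← mul_assoc, h3] at h4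
    linarith
  have hqle : (q : ℝ) ≤ (2 * q') ^ (1 / τ) := by
    have h1 : (q : ℝ) = ((q : ℝ) ^ τ) ^ (1 / τ) := by
      rw [← Real.rpow_mul hq0.le, mul_one_div_cancel hτ0.ne', Real.rpow_one]
    calc (q : ℝ) = ((q : ℝ) ^ τ) ^ (1 / τ) := h1
      _ ≤ (2 * q') ^ (1 / τ) := Real.rpow_le_rpow (by positivity) hqτ (by positivity)
  have hqe : (2 * (q' : ℝ)) ^ (e / τ) ≤ (q : ℝ) ^ e := by
    have h1 : ((2 * (q' : ℝ)) ^ (1 / τ)) ^ e ≤ (q : ℝ) ^ e :=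
      Real.rpow_le_rpow_of_nonpos hq0 hqle he0
    rw [← Real.rpow_mul (by positivity)] at h1
    have h2 : 1 / τ * e = e / τ := by ring
    rwa [h2] at h1
  have h2e : (1 / 2 : ℝ) ≤ 2 ^ (e / τ) := by
    have h1 : (-1 : ℝ) ≤ e / τ := by
      rw [le_div_iff₀ hτ0, he]
      have h2 : -(1 / γ) ≤ (l - 1) / γ := by
        rw [← neg_div]
        exact div_le_div_of_nonneg_right (by linarith) hγ.le
      have h3 : 1 / γ ≤ τ := by rw [div_le_iff₀ hγ]; linarith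
      linarith
    have h2 : (2 : ℝ) ^ (-1 : ℝ) ≤ 2 ^ (e / τ) :=
      Real.rpow_le_rpow_of_exponent_le (by norm_num) h1
    rw [Real.rpow_neg_one] at h2
    linarith
  have hmain : c * (q' : ℝ) ^ (1 + e / τ) ≤ S (α : T) φ q' x := by
    refine le_trans ?_ hstep
    have h1 : (1 / 2 : ℝ) * (q' : ℝ) ^ (e / τ) ≤ (q : ℝ) ^ e := by
      refine le_trans ?_ hqe
      rw [Real.mul_rpow (by norm_num) hq'0.le]
      exact mul_le_mul_of_nonneg_right h2e (by positivity)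
    rw [Real.rpow_add hq'0, Real.rpow_one, hc]
    have h3 : 0 ≤ (16 * C) ^ (-(1 / γ)) * (q' : ℝ) / 8 := by positivity
    have h4 := mul_le_mul_of_nonneg_left h1 h3
    calc (16 * C) ^ (-(1 / γ)) / 16 * (↑q' * (q' : ℝ) ^ (e / τ))
        = (16 * C) ^ (-(1 / γ)) * (q' : ℝ) / 8 * (1 / 2 * (q' : ℝ) ^ (e / τ)) := by ring
      _ ≤ (16 * C) ^ (-(1 / γ)) * (q' : ℝ) / 8 * (q : ℝ) ^ e := h4
      _ = _ := by ring
  have hexp : l + η + η ≤ 1 + e / τ := by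
    have h1 : 1 + e / τ - l = (1 - l) * (1 - 1 / (γ * τ)) + l / τ := by
      rw [he]; field_simp; ring
    have h2 : 0 ≤ 1 - 1 / (γ * τ) := by
      have : 1 / (γ * τ) ≤ 1 := by
        rw [div_le_one (by positivity)]; nlinarith
      linarith
    have h3 : γ * (1 - 1 / (γ * τ)) ≤ (1 - l) * (1 - 1 / (γ * τ)) :=
      mul_le_mul_of_nonneg_right (by linarith) h2
    have h4 : γ * (1 - 1 / (γ * τ)) = γ - 1 / τ := by field_simp
    have h5 : 0 ≤ l / τ := by positivity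
    have h6 : η + η = γ - 1 / τ := by rw [hηd]; ring
    linarith
  have h1 : (q' : ℝ) ^ (l + η + η) ≤ (q' : ℝ) ^ (1 + e / τ) :=
    Real.rpow_le_rpow_of_exponent_le hq'1 hexp
  rw [Real.rpow_add hq'0] at h1
  have h2 := hM₂' q' hqM₂
  have h3 : 1 ≤ c * (q' : ℝ) ^ η := by
    rw [div_le_iff₀ hc0] at h2
    linarith
  calc (q' : ℝ) ^ (l + η) = (q' : ℝ) ^ (l + η) * 1 := by ring
    _ ≤ (q' : ℝ) ^ (l + η) * (c * (q' : ℝ) ^ η) :=
        mul_le_mul_of_nonneg_left h3 (by positivity)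
    _ = c * ((q' : ℝ) ^ (l + η) * (q' : ℝ) ^ η) := by ring
    _ ≤ c * (q' : ℝ) ^ (1 + e / τ) := mul_le_mul_of_nonneg_left h1 hc0.le
    _ ≤ _ := hmain

end Pool.Agent.Lib.MP_f73729_an
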