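import Pool.Agent.Lib.MP_f73729_an.Best

/-! The step from a record to the next one. -/

set_option autoImplicit false

namespace Pool.Agent.Lib.MP_f73729_an

open Finset Filter Topology

theorem back_sumL (α : T) (φ : T → ℝ) (q : ℕ) (x : T) (I : ℕ) (b : ℝ)
    (h : ∀ i, 1 ≤ i → i ≤ I → b ≤ S α φ q (x - (i * q) • α)) :
    (I : ℝ) * b ≤ S α φ (I * q) (x - (I * q) • α) := by
  induction I with
  | zero => simp [S_zero]
  | succ I ih =>
    have h1 := ih (fun i h1 h2 => h i h1 (by omega))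
    have h2 := h (I + 1) (by omega) le_rfl
    have h3 : (I + 1) * q = q + I * q := by ring
    have h4 := S_add α φ q (I * q) (x - ((I + 1) * q) • α)
    have h5 : x - ((I + 1) * q) • α + q • α = x - (I * q) • α := by
      rw [h3, add_smul]; abel
    rw [h5, ← h3] at h4
    rw [h4]
    push_cast
    linarith

/-- If `L ≤ S_q(x)` and `‖qα‖ ≤ κ = (L/(16Cq))^{1/γ}`, then `κ q' L / 8 ≤ S_{q'}(x)` at the next
record `q'`. -/
theorem step_ineq (α : ℝ) (hα : Irrational α) (φ : T → ℝ) (C γ : ℝ) (hC : 1 ≤ C)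
    (hγ : 0 < γ) (hγ1 : γ ≤ 1) (h : ∀ u v, |φ u - φ v| ≤ C * ‖u - v‖ ^ γ) (x : T) (n₀ : ℕ)
    (hpos : ∀ n, n₀ ≤ n → 1 ≤ S (α : T) φ n x) (q q' : ℕ) (hc : Consec α q q') (hqn : n₀ ≤ q)
    (L : ℝ) (hL0 : 0 < L) (hLS : L ≤ S (α : T) φ q x) (hLu : L ≤ 3 * C * (q : ℝ) ^ (1 - γ))
    (hθκ : ‖q • (α : T)‖ ≤ (L / (16 * C * q)) ^ (1 / γ)) :
    (L / (16 * C * q)) ^ (1 / γ) * q' * L / 8 ≤ S (α : T) φ q' x := by
  have hq : 1 ≤ q := hc.rec1.1
  have hN' := hc.small
  have hθq' := hc.up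
  have hsum := hc.low
  have hqq' := hc.lt
  set θ := ‖q • (α : T)‖ with hθ
  have hθ0 : 0 < θ := norm_pos_iff.2 (nsmul_coe_ne_zero hα q hq)
  have hq0 : (0 : ℝ) < q := by exact_mod_cast hq
  have hC0 : 0 < C := by linarith
  have hγi : 1 ≤ 1 / γ := by rw [le_div_iff₀ hγ]; linarith
  set κ : ℝ := (L / (16 * C * q)) ^ (1 / γ) with hκ
  have hκ0 : 0 < κ := by positivity
  have hκγ : q * (C * κ ^ γ) = L / 16 := by
    have h1 : κ ^ γ = L / (16 * C * q) := by
      rw [hκ, ← Real.rpow_mul (by positivity)]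
      have : 1 / γ * γ = 1 := by field_simp
      rw [this, Real.rpow_one]
    rw [h1]
    field_simp
  have hκq : κ * q ≤ 1 / 4 := by
    have h1 : L / (16 * C * q) ≤ 3 / 16 * (q : ℝ) ^ (-γ) := by
      rw [div_le_iff₀ (by positivity)]
      have h2 : (q : ℝ) ^ (1 - γ) = q * (q : ℝ) ^ (-γ) := by
        rw [sub_eq_add_neg, Real.rpow_add hq0, Real.rpow_one]
      rw [h2] at hLu
      calc L ≤ 3 * C * (q * (q : ℝ) ^ (-γ)) := hLu
        _ = 3 / 16 * (q : ℝ) ^ (-γ) * (16 * C * q) := by ring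
    have h3 : κ ≤ (3 / 16 * (q : ℝ) ^ (-γ)) ^ (1 / γ) :=
      Real.rpow_le_rpow (by positivity) h1 (by positivity)
    have h4 : (3 / 16 * (q : ℝ) ^ (-γ)) ^ (1 / γ) = (3 / 16 : ℝ) ^ (1 / γ) * (q : ℝ)⁻¹ := by
      rw [Real.mul_rpow (by norm_num) (by positivity), ← Real.rpow_mul hq0.le]
      have : -γ * (1 / γ) = -1 := by field_simp
      rw [this, Real.rpow_neg_one]
    have h5 : (3 / 16 : ℝ) ^ (1 / γ) ≤ (3 / 16 : ℝ) ^ (1 : ℝ) :=
      Real.rpow_le_rpow_of_exponent_ge (by norm_num) (by norm_num) hγi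
    rw [Real.rpow_one] at h5
    rw [h4] at h3
    calc κ * q ≤ (3 / 16 : ℝ) ^ (1 / γ) * (q : ℝ)⁻¹ * q := by gcongr
      _ = (3 / 16 : ℝ) ^ (1 / γ) := by field_simp
      _ ≤ 3 / 16 := h5
      _ ≤ 1 / 4 := by norm_num
  have hq'0 : (0 : ℝ) < q' := by
    have : 0 < q' := by omega
    exact_mod_cast this
  set I : ℕ := ⌊κ / θ⌋₊ with hI
  have hI1 : 1 ≤ I := by
    rw [hI]
    apply Nat.le_floor
    rw [Nat.cast_one, le_div_iff₀ hθ0, one_mul]
    exact hθκ
  have hIle : (I : ℝ) * θ ≤ κ := by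
    have := Nat.floor_le (show 0 ≤ κ / θ by positivity)
    rw [← hI] at this
    rwa [le_div_iff₀ hθ0] at this
  have hIge : κ ≤ 2 * I * θ := by
    have h1 := Nat.lt_floor_add_one (κ / θ)
    rw [← hI] at h1
    rw [div_lt_iff₀ hθ0] at h1
    have h2 : (1 : ℝ) ≤ I := by exact_mod_cast hI1
    nlinarith
  have hI0 : (0 : ℝ) < I := by exact_mod_cast hI1
  -- sums along backward multiples of q
  have hb : ∀ i, 1 ≤ i → i ≤ I → L / 2 ≤ S (α : T) φ q (x - (i * q) • (α : T)) := by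
    intro i hi hiI
    have h1 := S_hoelder (α := (α : T)) h q (x - (i * q) • (α : T)) x
    have h2 : ‖x - (i * q) • (α : T) - x‖ ≤ κ := by
      have h3 : x - (i * q) • (α : T) - x = -((i * q) • (α : T)) := by abel
      rw [h3, norm_neg, mul_smul]
      refine norm_nsmul_le.trans ?_
      have h4 : (i : ℝ) ≤ I := by exact_mod_cast hiI
      have h5 : (i : ℝ) * θ ≤ I * θ := mul_le_mul_of_nonneg_right h4 hθ0.le
      linarith
    have h3 : (q : ℝ) * (C * ‖x - (i * q) • (α : T) - x‖ ^ γ) ≤ L / 16 := by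
      rw [← hκγ]
      have h4 : ‖x - (i * q) • (α : T) - x‖ ^ γ ≤ κ ^ γ :=
        Real.rpow_le_rpow (norm_nonneg _) h2 hγ.le
      gcongr
    have h4 := (abs_le.1 h1).1
    linarith
  have hback := back_sumL (α : T) φ q x I (L / 2) hb
  -- I q + n₀ ≤ q'
  have hsize : I * q + n₀ ≤ q' := by
    have h1 : ((I : ℝ) * q + n₀) * θ ≤ 1 / 2 := by
      have h2 : (n₀ : ℝ) ≤ q := by exact_mod_cast hqn
      have h3 : (n₀ : ℝ) * θ ≤ q * κ :=
        mul_le_mul h2 hθκ hθ0.le hq0.le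
      have h4 : (I : ℝ) * q * θ ≤ κ * q := by nlinarith
      nlinarith
    have h2 : 3 / 4 ≤ (q' : ℝ) * θ := by
      have h3 : (q : ℝ) * θ ≤ q * κ := mul_le_mul_of_nonneg_left hθκ hq0.le
      nlinarith
    have h3 : ((I : ℝ) * q + n₀) * θ < q' * θ := by linarith
    have h4 : ((I : ℝ) * q + n₀) < q' := lt_of_mul_lt_mul_right h3 hθ0.le
    have h5 : ((I * q + n₀ : ℕ) : ℝ) < q' := by push_cast; exact h4
    exact_mod_cast h5.le
  have hlow : (I : ℝ) * L / 4 ≤ S (α : T) φ q' x := by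
    have h1 := S_add (α : T) φ (q' - I * q) (I * q) x
    have h2 : q' - I * q + I * q = q' := by omega
    rw [h2] at h1
    have h3 := hpos (q' - I * q) (by omega)
    have h4 := S_hoelder (α := (α : T)) h (I * q) (x + (q' - I * q) • (α : T))
      (x - (I * q) • (α : T))
    have h5 : x + (q' - I * q) • (α : T) - (x - (I * q) • (α : T)) = q' • (α : T) := by
      have h6 : (q' - I * q) • (α : T) + (I * q) • (α : T) = q' • (α : T) := by
        rw [← add_smul, h2]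
      rw [← h6]; abel
    rw [h5] at h4
    have h6 : ‖q' • (α : T)‖ ^ γ ≤ κ ^ γ :=
      Real.rpow_le_rpow (norm_nonneg _) (hN'.le.trans hθκ) hγ.le
    have h7 : ((I * q : ℕ) : ℝ) * (C * ‖q' • (α : T)‖ ^ γ) ≤ I * L / 16 := by
      push_cast
      calc (I : ℝ) * q * (C * ‖q' • (α : T)‖ ^ γ) ≤ I * q * (C * κ ^ γ) := by gcongr
        _ = I * (q * (C * κ ^ γ)) := by ring
        _ = I * L / 16 := by rw [hκγ]; ring
    have h8 := (abs_le.1 h4).1
    have h9 : 0 < (I : ℝ) * L := by positivity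
    linarith
  have h1 : κ * q' ≤ 2 * I := by
    have h2 : κ * q' ≤ 2 * I * θ * q' := mul_le_mul_of_nonneg_right hIge hq'0.le
    have h3 : 2 * (I : ℝ) * θ * q' = 2 * I * (θ * q') := by ring
    have h4 : 2 * (I : ℝ) * (θ * q') ≤ 2 * I * 1 :=
      mul_le_mul_of_nonneg_left hθq' (by positivity)
    linarith
  have h2 : κ * q' * L ≤ 2 * I * L := mul_le_mul_of_nonneg_right h1 hL0.le
  linarith

end Pool.Agent.Lib.MP_f73729_an
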