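import Pool.Agent.Lib.MP_f73729_an.ConstrT
import Pool.Agent.Lib.MP_f73729_an.Mseq
import Pool.Agent.Lib.MP_f73729_an.StepE

/-! Sufficiency: the admissible recursion gives the heights and widths of the components. -/

set_option autoImplicit false

namespace Pool.Agent.Lib.MP_f73729_an

open Finset Filter Topology

theorem suff (α : ℝ) (hα : Irrational α) (γ γ' : ℝ) (hγ : 0 < γ) (hγγ : γ < γ') (hγ' : γ' < 1)
    (q : ℕ → ℕ) (hq : ∀ k, Consec α (q k) (q (k + 1))) (hadm : Adm γ' q) :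
    ∃ φ : T → ℝ, Continuous φ ∧ (∃ C, ∀ u v, |φ u - φ v| ≤ C * ‖u - v‖ ^ γ) ∧
      (∃ p, Dense (orbit (α : T) φ p)) ∧ ∃ p, ∀ z, ¬ AccPt z (𝓟 (orbit (α : T) φ p)) := by
  classical
  obtain ⟨a, ha⟩ := hadm
  have hγ'0 : 0 < γ' := hγ.trans hγγ
  obtain ⟨δ, hδd⟩ : ∃ δ : ℝ, δ = (γ' - γ) / 4 := ⟨_, rfl⟩
  have hδ : 0 < δ := by rw [hδd]; linarith
  have hqm : StrictMono q := strictMono_nat_of_lt_succ fun k => (hq k).lt
  obtain ⟨R, hR1, hR'⟩ := exists_pow_ge 32 δ hδ
  have hR32 : 32 ≤ (R : ℝ) ^ δ := hR' R le_rfl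
  have hR2 : 2 ≤ R := by
    by_contra hc
    have h1 : R = 1 := by omega
    rw [h1, Nat.cast_one, Real.one_rpow] at hR32
    linarith
  have hRr : (1 : ℝ) ≤ R := by exact_mod_cast hR1
  have hRr0 : (0 : ℝ) < R := by linarith
  obtain ⟨N, hN1, hN⟩ := exists_pow_ge ((2 * R : ℝ) ^ γ) δ hδ
  -- anchors
  have hstep : ∀ n : ℕ, ∃ m : ℕ, n + 1 ≤ m ∧ q m ≤ R * q (n + 1) ∧ R * q (n + 1) < q (m + 1) := by
    intro n
    have hex : ∃ m, n + 1 ≤ m ∧ R * q (n + 1) < q (m + 1) := by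
      refine ⟨n + 1 + R * q (n + 1), by omega, ?_⟩
      have h1 : n + 1 + R * q (n + 1) + 1 ≤ q (n + 1 + R * q (n + 1) + 1) := hqm.le_apply
      omega
    obtain ⟨h1, h2⟩ := Nat.find_spec hex
    refine ⟨Nat.find hex, h1, ?_, h2⟩
    by_contra hc
    push Not at hc
    rcases Nat.eq_or_lt_of_le h1 with h3 | h3
    · rw [← h3] at hc
      nlinarith [(hq (n + 1)).rec1.1]
    · apply Nat.find_min hex (m := Nat.find hex - 1) (by omega)
      refine ⟨by omega, ?_⟩
      have : Nat.find hex - 1 + 1 = Nat.find hex := by omega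
      rw [this]
      exact hc
  choose g hg1 hg2 hg3 using hstep
  obtain ⟨n, hn⟩ : ∃ n : ℕ → ℕ, n = fun k => g^[k] (max a (max N R)) := ⟨_, rfl⟩
  have hn0 : n 0 = max a (max N R) := by rw [hn]; rfl
  have hnS : ∀ k, n (k + 1) = g (n k) := fun k => by
    rw [hn]; exact Function.iterate_succ_apply' g k _
  have hnlt : ∀ k, n k + 1 ≤ n (k + 1) := fun k => by rw [hnS]; exact hg1 _
  have hnge : ∀ k, n 0 ≤ n k := by
    intro k
    induction k with
    | zero => exact le_rfl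
    | succ k ih => have := hnlt k; omega
  have hna : ∀ k, a ≤ n k := fun k => by
    have h1 := hnge k; have h2 := le_max_left a (max N R); omega
  obtain ⟨Q, hQd⟩ : ∃ Q : ℕ → ℕ, Q = fun k => q (n k) := ⟨_, rfl⟩
  obtain ⟨t, htd⟩ : ∃ t : ℕ → ℕ, t = fun k => match k with
    | 0 => q (n 0)
    | k + 1 => q (n k + 1) := ⟨_, rfl⟩
  have ht0 : t 0 = q (n 0) := by rw [htd]
  have htS : ∀ k, t (k + 1) = q (n k + 1) := fun k => by rw [htd]
  have hQq : ∀ k, Q k = q (n k) := fun k => by rw [hQd]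
  have htQ : ∀ k, t k ≤ Q k := by
    intro k
    cases k with
    | zero => rw [ht0, hQq]
    | succ k => rw [htS, hQq]; exact hqm.monotone (hnlt k)
  have hQt : ∀ k, Q k ≤ R * t k := by
    intro k
    cases k with
    | zero => rw [ht0, hQq]; exact Nat.le_mul_of_pos_left _ (by omega)
    | succ k => rw [htS, hQq, hnS]; exact hg2 _
  have htS' : ∀ k, R * t (k + 1) ≤ t (k + 2) := by
    intro k
    rw [htS, htS, hnS]
    exact (hg3 _).le
  have hq1 : ∀ k, 1 ≤ q k := fun k => (hq k).rec1.1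
  have htm : StrictMono t := by
    apply strictMono_nat_of_lt_succ
    intro k
    cases k with
    | zero => rw [ht0, htS]; exact hqm (Nat.lt_succ_self _)
    | succ k =>
      have h1 := htS' k
      have h2 : 1 ≤ t (k + 1) := by rw [htS]; exact hq1 _
      nlinarith
  have ht1R : R ≤ t 1 := by
    rw [htS 0]
    have h1 : n 0 + 1 ≤ q (n 0 + 1) := hqm.le_apply
    have h2 : R ≤ n 0 := by
      rw [hn0]; exact (le_max_right _ _).trans (le_max_right _ _)
    omega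
  have htpow : ∀ k, R ^ (k + 1) ≤ t (k + 1) := by
    intro k
    induction k with
    | zero => rw [zero_add, pow_one]; exact ht1R
    | succ k ih =>
      rw [pow_succ, mul_comm]
      exact (Nat.mul_le_mul_left R ih).trans (htS' k)
  have hQpow : ∀ k, R ^ k ≤ Q k := by
    intro k
    cases k with
    | zero => rw [pow_zero, hQq]; exact hq1 _
    | succ k => exact (htpow k).trans (htQ _)
  have hQN : ∀ k, N ≤ Q k := by
    intro k
    rw [hQq]
    have h1 : n k ≤ q (n k) := hqm.le_apply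
    have h2 := hnge k
    have h3 : N ≤ n 0 := by rw [hn0]; exact (le_max_left _ _).trans (le_max_right _ _)
    omega
  have hQ1 : ∀ k, 1 ≤ Q k := fun k => hN1.trans (hQN k)
  have hQr1 : ∀ k, (1 : ℝ) ≤ Q k := fun k => by exact_mod_cast hQ1 k
  have hQr : ∀ k, (0 : ℝ) < Q k := fun k => lt_of_lt_of_le one_pos (hQr1 k)
  have htr : ∀ k, (0 : ℝ) < t k := by
    intro k
    cases k with
    | zero => rw [ht0]; exact_mod_cast hq1 _
    | succ k => rw [htS]; exact_mod_cast hq1 _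
  have hθ0 : ∀ k, 0 < ‖Q k • (α : T)‖ := fun k => norm_pos_iff.2 (nsmul_coe_ne_zero hα _ (hQ1 k))
  have hup : ∀ k, ‖Q k • (α : T)‖ * t (k + 1) ≤ 1 := by
    intro k
    rw [hQq, htS]
    exact (hq (n k)).up
  have hlo : ∀ k, 1 ≤ 2 * ‖Q k • (α : T)‖ * t (k + 1) := by
    intro k
    have h1 := (hq (n k)).low
    rw [hQq, htS]
    have h2 : (q (n k) : ℝ) ≤ q (n k + 1) := by exact_mod_cast (hq (n k)).lt.le
    have h3 : 0 ≤ ‖q (n k) • (α : T)‖ := norm_nonneg _
    nlinarith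
  -- the recursion
  obtain ⟨M, hMd⟩ : ∃ M : ℕ → ℝ, M = fun k => mseq γ' q a (n k - a) := ⟨_, rfl⟩
  have hM1 : ∀ k, 1 ≤ M k := fun k => by rw [hMd]; exact one_le_mseq _ _ _ _
  have hM0 : ∀ k, 0 < M k := fun k => by linarith [hM1 k]
  have hMQ : ∀ k, M k ≤ (Q k : ℝ) ^ (1 - γ') := by
    intro k
    rw [hMd, hQq]
    have h1 := ha (n k - a)
    have h2 : a + (n k - a) = n k := by have := hna k; omega
    rw [h2] at h1
    exact h1
  have hMS : ∀ k, max (M k) (M k * (M k / Q k) ^ (1 / γ') * t (k + 1)) ≤ M (k + 1) := by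
    intro k
    have h1 : a + (n k - a) = n k := by have := hna k; omega
    have h2 : a + (n k - a) + 1 = n k + 1 := by omega
    have h3 := mseq_succ γ' q a (n k - a)
    rw [h2, h1] at h3
    have h4 : mseq γ' q a (n k - a + 1) ≤ mseq γ' q a (n (k + 1) - a) := by
      apply mseq_mono
      have := hnlt k
      have := hna k
      omega
    rw [h3] at h4
    rw [hMd, hQq, htS]
    exact h4
  -- heights and widths
  have h32 : ∀ k : ℕ, (32 : ℝ) ^ k ≤ (Q k : ℝ) ^ δ := by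
    intro k
    have h1 : ((R : ℝ) ^ k) ^ δ ≤ (Q k : ℝ) ^ δ :=
      Real.rpow_le_rpow (by positivity) (by exact_mod_cast hQpow k) hδ.le
    have h2 : ((R : ℝ) ^ δ) ^ k = ((R : ℝ) ^ k) ^ δ := by
      rw [← Real.rpow_natCast, ← Real.rpow_natCast, ← Real.rpow_mul hRr0.le,
        ← Real.rpow_mul hRr0.le, mul_comm]
    calc (32 : ℝ) ^ k ≤ ((R : ℝ) ^ δ) ^ k := pow_le_pow_left₀ (by norm_num) hR32 k
      _ = ((R : ℝ) ^ k) ^ δ := h2
      _ ≤ _ := h1
  obtain ⟨L, hLd⟩ : ∃ L : ℕ → ℝ, L = fun k => 32 ^ k * M k := ⟨_, rfl⟩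
  have hLk : ∀ k, L k = 32 ^ k * M k := fun k => by rw [hLd]
  have hL0 : ∀ k, 0 < L k := fun k => by rw [hLk]; have := hM0 k; positivity
  have hL1 : ∀ k, 1 ≤ L k := fun k => by
    rw [hLk]
    exact one_le_mul_of_one_le_of_one_le (one_le_pow₀ (by norm_num)) (hM1 k)
  obtain ⟨κ, hκd⟩ : ∃ κ : ℕ → ℝ, κ = fun k => (L k * (Q k : ℝ) ^ (δ - 1)) ^ (1 / γ) := ⟨_, rfl⟩
  have hκk : ∀ k, κ k = (L k * (Q k : ℝ) ^ (δ - 1)) ^ (1 / γ) := fun k => by rw [hκd]
  have hκ0 : ∀ k, 0 < κ k := fun k => by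
    rw [hκk]; have := hL0 k; have := hQr k; positivity
  have hκγ : ∀ k, κ k ^ γ = L k * (Q k : ℝ) ^ (δ - 1) := by
    intro k
    have h1 := hL0 k
    have h2 := hQr k
    rw [hκk, ← Real.rpow_mul (by positivity), one_div_mul_cancel hγ.ne', Real.rpow_one]
  -- L ≤ Q^(1-γ-δ)
  have hLQ : ∀ k, L k ≤ (Q k : ℝ) ^ (1 - γ - δ) := by
    intro k
    rw [hLk]
    have h1 : (Q k : ℝ) ^ (1 - γ' + δ) ≤ (Q k : ℝ) ^ (1 - γ - δ) := by
      apply Real.rpow_le_rpow_of_exponent_le (hQr1 k)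
      rw [hδd]; linarith
    refine le_trans ?_ h1
    rw [add_comm, Real.rpow_add (hQr k)]
    exact mul_le_mul (h32 k) (hMQ k) (hM0 k).le (Real.rpow_nonneg (hQr k).le _)
  have hQκ : ∀ k, Q k * κ k ≤ 1 := by
    intro k
    have h1 : L k * (Q k : ℝ) ^ (δ - 1) ≤ (Q k : ℝ) ^ (-γ) := by
      have h2 : (Q k : ℝ) ^ (-γ) = (Q k : ℝ) ^ (1 - γ - δ) * (Q k : ℝ) ^ (δ - 1) := by
        rw [← Real.rpow_add (hQr k)]
        congr 1
        ring
      rw [h2]
      exact mul_le_mul_of_nonneg_right (hLQ k) (Real.rpow_nonneg (hQr k).le _)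
    have h2 : κ k ≤ (Q k : ℝ)⁻¹ := by
      rw [hκk]
      have h3 := hL0 k
      have h4 := hQr k
      calc (L k * (Q k : ℝ) ^ (δ - 1)) ^ (1 / γ) ≤ ((Q k : ℝ) ^ (-γ)) ^ (1 / γ) :=
            Real.rpow_le_rpow (by positivity) h1 (by positivity)
        _ = (Q k : ℝ)⁻¹ := by
            rw [← Real.rpow_mul h4.le]
            have : -γ * (1 / γ) = -1 := by field_simp
            rw [this, Real.rpow_neg_one]
    have h3 := hQr k
    calc Q k * κ k ≤ Q k * (Q k : ℝ)⁻¹ := mul_le_mul_of_nonneg_left h2 h3.le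
      _ = 1 := mul_inv_cancel₀ h3.ne'
  -- the key comparison
  have hkey : ∀ k, 2 * R * κ k ≤ (M k / Q k) ^ (1 / γ') := by
    intro k
    have hQ0 := hQr k
    have hM := hM0 k
    have hκ := hκ0 k
    have h1 : (2 * R * κ k) ^ γ ≤ ((M k / Q k) ^ (1 / γ')) ^ γ := by
      rw [Real.mul_rpow (by positivity) hκ.le, hκγ]
      have h2 : (2 * R : ℝ) ^ γ ≤ (Q k : ℝ) ^ δ := hN (Q k) (hQN k)
      have h3 : L k * (Q k : ℝ) ^ (δ - 1) ≤ (Q k : ℝ) ^ δ * ((Q k : ℝ) ^ δ * (M k / Q k)) := by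
        rw [hLk, Real.rpow_sub_one hQ0.ne']
        have h4 := h32 k
        calc 32 ^ k * M k * ((Q k : ℝ) ^ δ / Q k)
            ≤ (Q k : ℝ) ^ δ * M k * ((Q k : ℝ) ^ δ / Q k) := by gcongr
          _ = _ := by ring
      have h4 : (2 * R : ℝ) ^ γ * (L k * (Q k : ℝ) ^ (δ - 1)) ≤
          (Q k : ℝ) ^ δ * ((Q k : ℝ) ^ δ * ((Q k : ℝ) ^ δ * (M k / Q k))) :=
        mul_le_mul h2 h3 (by have := hL0 k; positivity) (by positivity)
      refine h4.trans ?_
      have h5 : ((M k / Q k) ^ (1 / γ')) ^ γ = (M k / Q k) * (M k / Q k) ^ (γ / γ' - 1) := by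
        rw [← Real.rpow_mul (by positivity)]
        nth_rewrite 2 [← Real.rpow_one (M k / Q k)]
        rw [← Real.rpow_add (by positivity)]
        congr 1
        ring
      rw [h5]
      have h6 : (Q k : ℝ) ^ δ * (Q k : ℝ) ^ δ * (Q k : ℝ) ^ δ ≤ (M k / Q k) ^ (γ / γ' - 1) := by
        have h7 : M k / Q k ≤ (Q k : ℝ) ^ (-γ') := by
          rw [div_le_iff₀ hQ0]
          have h8 : (Q k : ℝ) ^ (1 - γ') = (Q k : ℝ) ^ (-γ') * Q k := by
            rw [sub_eq_neg_add, Real.rpow_add hQ0, Real.rpow_one]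
          rw [← h8]
          exact hMQ k
        have h8 : γ / γ' - 1 ≤ 0 := by
          rw [sub_nonpos, div_le_one hγ'0]; exact hγγ.le
        have h9 : ((Q k : ℝ) ^ (-γ')) ^ (γ / γ' - 1) ≤ (M k / Q k) ^ (γ / γ' - 1) :=
          Real.rpow_le_rpow_of_nonpos (by positivity) h7 h8
        refine le_trans ?_ h9
        rw [← Real.rpow_mul hQ0.le, ← Real.rpow_add hQ0, ← Real.rpow_add hQ0]
        apply Real.rpow_le_rpow_of_exponent_le (hQr1 k)
        have h10 : -γ' * (γ / γ' - 1) = γ' - γ := by field_simp; ring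
        rw [h10, hδd]
        linarith
      calc (Q k : ℝ) ^ δ * ((Q k : ℝ) ^ δ * ((Q k : ℝ) ^ δ * (M k / Q k)))
          = (M k / Q k) * ((Q k : ℝ) ^ δ * (Q k : ℝ) ^ δ * (Q k : ℝ) ^ δ) := by ring
        _ ≤ _ := mul_le_mul_of_nonneg_left h6 (by positivity)
    exact (Real.rpow_le_rpow_iff (by positivity) (by positivity) hγ).1 h1
  -- widths and heights
  obtain ⟨w, hwd⟩ : ∃ w : ℕ → ℝ, w = fun k => max (t k * ‖Q k • (α : T)‖) (Q k * κ k) := ⟨_, rfl⟩
  have hwk : ∀ k, w k = max (t k * ‖Q k • (α : T)‖) (Q k * κ k) := fun k => by rw [hwd]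
  have htθ : ∀ k, 0 < t k * ‖Q k • (α : T)‖ := fun k => mul_pos (htr k) (hθ0 k)
  have hw0 : ∀ k, 0 < w k := fun k => by rw [hwk]; exact lt_max_of_lt_left (htθ k)
  have hw1 : ∀ k, w k ≤ 1 := by
    intro k
    rw [hwk]
    apply max_le _ (hQκ k)
    have h1 := hup k
    have h2 : (t k : ℝ) ≤ t (k + 1) := by exact_mod_cast (htm (Nat.lt_succ_self k)).le
    have h3 : t k * ‖Q k • (α : T)‖ ≤ t (k + 1) * ‖Q k • (α : T)‖ :=
      mul_le_mul_of_nonneg_right h2 (hθ0 k).le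
    linarith
  obtain ⟨B, hBd⟩ : ∃ B : ℕ → ℝ, B = fun k => 8 * L k * (w k / (t k * ‖Q k • (α : T)‖)) :=
    ⟨_, rfl⟩
  have hBk : ∀ k, B k = 8 * L k * (w k / (t k * ‖Q k • (α : T)‖)) := fun k => by rw [hBd]
  have hratio : ∀ k, 1 ≤ w k / (t k * ‖Q k • (α : T)‖) := by
    intro k
    rw [le_div_iff₀ (htθ k), one_mul, hwk]
    exact le_max_left _ _
  have hBL : ∀ k, 8 * L k ≤ B k := fun k => by
    rw [hBk]
    exact le_mul_of_one_le_right (by linarith [hL1 k]) (hratio k)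
  have hnext : ∀ k, 4 * B k ≤ L (k + 1) := by
    intro k
    have h1 : w k / (t k * ‖Q k • (α : T)‖) ≤ max 1 ((M k / Q k) ^ (1 / γ') * t (k + 1)) := by
      rw [div_le_iff₀ (htθ k), hwk]
      apply max_le
      · exact le_mul_of_one_le_left (htθ k).le (le_max_left _ _)
      · have h2 : Q k * κ k ≤ R * t k * κ k := by
          have h3 : (Q k : ℝ) ≤ R * t k := by exact_mod_cast hQt k
          exact mul_le_mul_of_nonneg_right h3 (hκ0 k).le
        have h3 : R * t k * κ k * 1 ≤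
            R * t k * κ k * (2 * ‖Q k • (α : T)‖ * t (k + 1)) :=
          mul_le_mul_of_nonneg_left (hlo k) (by have := hκ0 k; have := htr k; positivity)
        have h4 : R * t k * κ k * (2 * ‖Q k • (α : T)‖ * t (k + 1)) =
            2 * R * κ k * t (k + 1) * (t k * ‖Q k • (α : T)‖) := by ring
        have h5 : 2 * R * κ k * t (k + 1) ≤ (M k / Q k) ^ (1 / γ') * t (k + 1) :=
          mul_le_mul_of_nonneg_right (hkey k) (htr _).le
        have h6 : 2 * R * κ k * t (k + 1) * (t k * ‖Q k • (α : T)‖) ≤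
            max 1 ((M k / Q k) ^ (1 / γ') * t (k + 1)) * (t k * ‖Q k • (α : T)‖) :=
          mul_le_mul_of_nonneg_right (h5.trans (le_max_right _ _)) (htθ k).le
        linarith
    have h2 : 4 * B k ≤ 32 * L k * max 1 ((M k / Q k) ^ (1 / γ') * t (k + 1)) := by
      rw [hBk]
      have h3 : 32 * L k * (w k / (t k * ‖Q k • (α : T)‖)) ≤
          32 * L k * max 1 ((M k / Q k) ^ (1 / γ') * t (k + 1)) :=
        mul_le_mul_of_nonneg_left h1 (by linarith [hL1 k])
      linarith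
    have h3 : M k * max 1 ((M k / Q k) ^ (1 / γ') * t (k + 1)) ≤ M (k + 1) := by
      refine le_trans (le_of_eq ?_) (hMS k)
      rw [mul_max_of_nonneg _ _ (hM0 k).le, mul_one, mul_assoc]
    calc 4 * B k ≤ 32 * L k * max 1 ((M k / Q k) ^ (1 / γ') * t (k + 1)) := h2
      _ = 32 ^ (k + 1) * (M k * max 1 ((M k / Q k) ^ (1 / γ') * t (k + 1))) := by
          rw [hLk, pow_succ]; ring
      _ ≤ 32 ^ (k + 1) * M (k + 1) := mul_le_mul_of_nonneg_left h3 (by positivity)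
      _ = L (k + 1) := (hLk _).symm
  have hsum : ∀ k : ℕ, 2 * ∑ j ∈ range k, B j + (k : ℝ) ≤ L k := by
    intro k
    induction k with
    | zero => simp only [range_zero, sum_empty, mul_zero, Nat.cast_zero, add_zero]
              linarith [hL1 0]
    | succ k ih =>
      rw [sum_range_succ]
      push_cast
      have h1 := hnext k
      have h2 := hBL k
      have h3 := hL1 k
      linarith
  obtain ⟨D, hDd⟩ : ∃ D : ℕ → ℝ, D = fun k => 8 * R * (Q k : ℝ) ^ (-δ) := ⟨_, rfl⟩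
  have hDk : ∀ k, D k = 8 * R * (Q k : ℝ) ^ (-δ) := fun k => by rw [hDd]
  have hDs : Summable D := by
    rw [hDd]
    apply Summable.mul_left
    have h0 : (1 : ℝ) < R := by exact_mod_cast (by omega : 1 < R)
    have h1 : (R : ℝ) ^ (-δ) < 1 := Real.rpow_lt_one_of_one_lt_of_neg h0 (by linarith)
    refine Summable.of_nonneg_of_le (fun k => Real.rpow_nonneg (hQr k).le _) (fun k => ?_)
      (summable_geometric_of_lt_one (by positivity) h1)
    have h2 : ((R : ℝ) ^ (-δ)) ^ k = ((R : ℝ) ^ k) ^ (-δ) := by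
      rw [← Real.rpow_natCast, ← Real.rpow_natCast, ← Real.rpow_mul hRr0.le,
        ← Real.rpow_mul hRr0.le, mul_comm]
    rw [h2]
    exact Real.rpow_le_rpow_of_nonpos (by positivity) (by exact_mod_cast hQpow k) (by linarith)
  refine constructT α hα γ hγ (hγγ.trans hγ').le Q t B w D hQ1 htm
    (fun k => by have := hBL k; have := hL1 k; linarith) hw0 hw1 hup (fun k => ?_)
    (fun k => ?_) hDs
  · refine (hsum k).trans ?_
    have h1 : (t k : ℝ) * ‖Q k • (α : T)‖ / (4 * w k) ≤ 1 := by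
      rw [div_le_one (by have := hw0 k; positivity)]
      have h2 : (t k : ℝ) * ‖Q k • (α : T)‖ ≤ w k := by rw [hwk]; exact le_max_left _ _
      linarith [hw0 k]
    rw [min_eq_left h1]
    have h2 : B k / 2 * ((t k : ℝ) * ‖Q k • (α : T)‖ / (4 * w k)) = L k := by
      rw [hBk]
      have h3 := (hw0 k).ne'
      have h4 := (hθ0 k).ne'
      have h5 := (htr k).ne'
      field_simp
      ring
    rw [h2]
  · have hQ0 := hQr k
    have h1 : B k * ‖Q k • (α : T)‖ / w k = 8 * L k / t k := by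
      rw [hBk]
      have h3 := (hw0 k).ne'
      have h4 := (hθ0 k).ne'
      have h5 := (htr k).ne'
      field_simp
    rw [h1]
    have h2 : (Q k : ℝ) / w k ≤ (κ k)⁻¹ := by
      rw [div_le_iff₀ (hw0 k), inv_mul_eq_div, le_div_iff₀ (hκ0 k), hwk]
      exact le_max_right _ _
    have h3 : ((Q k : ℝ) / w k) ^ γ ≤ (L k * (Q k : ℝ) ^ (δ - 1))⁻¹ := by
      rw [← hκγ, ← Real.inv_rpow (hκ0 k).le]
      exact Real.rpow_le_rpow (div_nonneg hQ0.le (hw0 k).le) h2 hγ.le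
    have h4 : 8 * L k / t k ≤ 8 * R * (L k / Q k) := by
      rw [div_le_iff₀ (htr k)]
      have h5 : (Q k : ℝ) ≤ R * t k := by exact_mod_cast hQt k
      have h6 : 8 * R * (L k / Q k) * t k = 8 * L k * ((R * t k) / Q k) := by
        field_simp
      rw [h6]
      have h7 : 1 ≤ (R * t k : ℝ) / Q k := by rwa [le_div_iff₀ hQ0, one_mul]
      exact le_mul_of_one_le_right (by linarith [hL1 k]) h7
    have hL := hL0 k
    calc 8 * L k / t k * ((Q k : ℝ) / w k) ^ γ
        ≤ 8 * R * (L k / Q k) * (L k * (Q k : ℝ) ^ (δ - 1))⁻¹ :=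
          mul_le_mul h4 h3 (Real.rpow_nonneg (div_nonneg hQ0.le (hw0 k).le) _) (by positivity)
      _ = D k := by
          rw [hDk, Real.rpow_sub_one hQ0.ne', Real.rpow_neg hQ0.le]
          have h8 : (0 : ℝ) < (Q k : ℝ) ^ δ := by positivity
          have h9 := h8.ne'
          have h10 := hL.ne'
          field_simp

end Pool.Agent.Lib.MP_f73729_an
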