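import Pool.Agent.Lib.MP_f73729_an.StepE

/-! Every long window contains a best approximation denominator that is not too good. -/

set_option autoImplicit false

namespace Pool.Agent.Lib.MP_f73729_an

open Finset Filter Topology

theorem top_bound {α : ℝ} {φ : T → ℝ} {C γ : ℝ} (hC : 1 ≤ C) (hγ : 0 < γ) (hγ1 : γ ≤ 1)
    (h : ∀ u v, |φ u - φ v| ≤ C * ‖u - v‖ ^ γ)
    (hz : ∀ n : ℕ, 1 ≤ n → ∃ y, S (α : T) φ n y ≤ 0) {q q' : ℕ} (hc : Consec α q q') (x : T) :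
    S (α : T) φ q' x ≤ 3 * C * (q' : ℝ) ^ (1 - γ) := by
  have hq'0 : (0 : ℝ) < q' := by exact_mod_cast hc.rec2.1
  refine S_le_of_next (α := (α : T)) (by linarith) hγ hγ1 h q' hc.rec2.1 (hz q' hc.rec2.1) ?_
    hc.dens x
  rw [le_div_iff₀ hq'0]
  exact (mul_le_mul_of_nonneg_right hc.small.le hq'0.le).trans hc.up

/-- number of steps -/
noncomputable def steps (γ τ : ℝ) : ℕ := ⌊(1 - γ) / ((γ - 1 / τ) / 2)⌋₊ + 1

/-- the exponent of the window -/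
noncomputable def winExp (γ τ : ℝ) : ℝ := (1 / γ ^ 2 + 1) ^ (steps γ τ + 1)

theorem window_main (α : ℝ) (hα : Irrational α) (φ : T → ℝ) (C γ : ℝ) (hC : 1 ≤ C)
    (hγ : 0 < γ) (hγ1 : γ ≤ 1) (h : ∀ u v, |φ u - φ v| ≤ C * ‖u - v‖ ^ γ)
    (hz : ∀ n : ℕ, 1 ≤ n → ∃ y, S (α : T) φ n y ≤ 0) (x : T) (n₀ : ℕ)
    (hpos : ∀ n, n₀ ≤ n → 1 ≤ S (α : T) φ n x) (τ : ℝ) (hτ : 1 < τ * γ) :
    ∃ Q₀ : ℕ, ∀ Q : ℕ, Q₀ ≤ Q → ∃ q : ℕ, Q ≤ q ∧ (q : ℝ) ≤ (Q : ℝ) ^ winExp γ τ ∧ IsRec α q ∧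
      (q : ℝ) ^ (-τ) < ‖q • (α : T)‖ := by
  classical
  have hτ0 : 0 < τ := by
    by_contra hcon
    push Not at hcon
    nlinarith
  have hη : 0 < (γ - 1 / τ) / 2 := by
    have : 1 / τ < γ := by rw [div_lt_iff₀ hτ0]; linarith
    linarith
  set η := (γ - 1 / τ) / 2 with hηd
  have hC0 : 0 < C := by linarith
  obtain ⟨c, hc0, hcq⟩ := neg_main α hα φ C γ hC hγ hγ1 h hz x n₀ hpos
  obtain ⟨M, hM⟩ := step_exp α hα φ C γ hC hγ hγ1 h x n₀ hpos τ hτ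
  rw [← hηd] at hM
  set A : ℝ := 1 / γ ^ 2 + 1 with hA
  have hA1 : 1 ≤ A := by
    have : 0 ≤ 1 / γ ^ 2 := by positivity
    linarith
  obtain ⟨M₃, hM₃, hM₃'⟩ := exists_pow_ge (1 / c) 1 one_pos
  -- size of the next record
  have hnext : ∀ (B : ℝ), 1 ≤ B → 1 / c ≤ B → ∀ q q' : ℕ, Consec α q q' → (q : ℝ) ≤ B →
      (q' : ℝ) ≤ B ^ A := by
    intro B hB1 hBc q q' hcs hqB
    have hq0 : (0 : ℝ) < q := by exact_mod_cast hcs.rec1.1
    have h1 := hcq q hcs.rec1.1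
    have h2 := hcs.up
    have h3 : c / (q : ℝ) ^ (1 / γ ^ 2) * q' ≤ 1 :=
      (mul_le_mul_of_nonneg_right h1 (by positivity)).trans h2
    have h4 : c * q' ≤ (q : ℝ) ^ (1 / γ ^ 2) := by
      have h5 : (0 : ℝ) < (q : ℝ) ^ (1 / γ ^ 2) := by positivity
      rw [div_mul_eq_mul_div, div_le_one h5] at h3
      exact h3
    have h5 : (q : ℝ) ^ (1 / γ ^ 2) ≤ B ^ (1 / γ ^ 2) :=
      Real.rpow_le_rpow hq0.le hqB (by positivity)
    have h6 : (q' : ℝ) ≤ 1 / c * B ^ (1 / γ ^ 2) := by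
      rw [one_div_mul_eq_div, le_div_iff₀ hc0]
      linarith
    refine h6.trans ?_
    rw [hA, Real.rpow_add (by linarith), Real.rpow_one, mul_comm]
    exact mul_le_mul_of_nonneg_left hBc (by positivity)
  -- the chain
  have chain : ∀ i : ℕ, ((i : ℝ) - 1) * η ≤ 1 - γ → ∀ Q : ℕ, max (max n₀ M) (max M₃ 2) ≤ Q →
      (∀ q : ℕ, Q ≤ q → (q : ℝ) ≤ (Q : ℝ) ^ (A ^ (i + 1)) → IsRec α q →
        ‖q • (α : T)‖ ≤ (q : ℝ) ^ (-τ)) →
      ∃ p r : ℕ, Consec α p r ∧ Q ≤ r ∧ (r : ℝ) ≤ (Q : ℝ) ^ (A ^ (i + 1)) ∧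
        (r : ℝ) ^ ((i : ℝ) * η) ≤ S (α : T) φ r x := by
    intro i
    induction i with
    | zero =>
      intro _ Q hQ _
      have hQn : n₀ ≤ Q := (le_max_left _ _).trans ((le_max_left _ _).trans hQ)
      have hQ3 : M₃ ≤ Q := (le_max_left _ _).trans ((le_max_right _ _).trans hQ)
      have hQ2 : 2 ≤ Q := (le_max_right _ _).trans ((le_max_right _ _).trans hQ)
      have hex : ∃ r : ℕ, Q ≤ r ∧ IsRec α r := rec_unbounded α hα Q
      obtain ⟨h1, h2⟩ := Nat.find_spec hex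
      obtain ⟨p, hp⟩ := exists_pred α hα (Nat.find hex) h2 (hQ2.trans h1)
      have h3 : p < Q := by
        by_contra hcon
        push Not at hcon
        exact Nat.find_min hex hp.lt ⟨hcon, hp.rec1⟩
      refine ⟨p, Nat.find hex, hp, h1, ?_, ?_⟩
      · have hQ1 : (1 : ℝ) ≤ Q := by exact_mod_cast (by omega : 1 ≤ Q)
        have hQc : 1 / c ≤ (Q : ℝ) := by
          have := hM₃' Q hQ3
          rwa [Real.rpow_one] at this
        have h4 := hnext Q hQ1 hQc p _ hp (by exact_mod_cast h3.le)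
        rw [zero_add, pow_one]
        exact h4
      · rw [Nat.cast_zero, zero_mul, Real.rpow_zero]
        exact hpos _ (hQn.trans h1)
    | succ i ih =>
      intro hi Q hQ hwin
      push_cast at hi
      have hi' : (i : ℝ) * η ≤ 1 - γ := by
        have : ((i : ℝ) + 1 - 1) * η = (i : ℝ) * η := by ring
        linarith
      have hi'' : ((i : ℝ) - 1) * η ≤ 1 - γ := by nlinarith
      have hQM : M ≤ Q := (le_max_right _ _).trans ((le_max_left _ _).trans hQ)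
      have hQ3 : M₃ ≤ Q := (le_max_left _ _).trans ((le_max_right _ _).trans hQ)
      have hQ2 : 2 ≤ Q := (le_max_right _ _).trans ((le_max_right _ _).trans hQ)
      have hQ1 : (1 : ℝ) ≤ Q := by exact_mod_cast (by omega : 1 ≤ Q)
      have hQc : 1 / c ≤ (Q : ℝ) := by
        have := hM₃' Q hQ3
        rwa [Real.rpow_one] at this
      have hAp : (1 : ℝ) ≤ A ^ (i + 1) := one_le_pow₀ hA1
      have hmono : (Q : ℝ) ^ (A ^ (i + 1)) ≤ (Q : ℝ) ^ (A ^ (i + 1 + 1)) := by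
        apply Real.rpow_le_rpow_of_exponent_le hQ1
        rw [pow_succ A (i + 1)]
        exact le_mul_of_one_le_right (by linarith) hA1
      obtain ⟨p, r, hpr, hQr, hrQ, hS⟩ := ih hi'' Q hQ
        (fun q h1 h2 h3 => hwin q h1 (h2.trans hmono) h3)
      have hθ := hwin r hQr (hrQ.trans hmono) hpr.rec2
      obtain ⟨r', hr'⟩ := exists_succ α hα r hpr.rec2
      have h1 := hM ((i : ℝ) * η) (by positivity) hi' r r' hr' (hQM.trans hQr) hθ hS
      refine ⟨r, r', hr', hQr.trans hr'.lt.le, ?_, ?_⟩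
      · have hB1 : (1 : ℝ) ≤ (Q : ℝ) ^ (A ^ (i + 1)) := Real.one_le_rpow hQ1 (by linarith)
        have hBc : 1 / c ≤ (Q : ℝ) ^ (A ^ (i + 1)) := by
          refine hQc.trans ?_
          calc (Q : ℝ) = (Q : ℝ) ^ (1 : ℝ) := (Real.rpow_one _).symm
            _ ≤ (Q : ℝ) ^ (A ^ (i + 1)) := Real.rpow_le_rpow_of_exponent_le hQ1 hAp
        have h2 := hnext _ hB1 hBc r r' hr' hrQ
        rw [← Real.rpow_mul (by linarith)] at h2
        rw [pow_succ A (i + 1)]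
        exact h2
      · have h2 : ((i + 1 : ℕ) : ℝ) * η = (i : ℝ) * η + η := by push_cast; ring
        rw [h2]
        exact h1
  -- the number of steps
  set N := steps γ τ with hN
  have hN1 : ((N : ℝ) - 1) * η ≤ 1 - γ := by
    have h1 : (0 : ℝ) ≤ (1 - γ) / η := div_nonneg (by linarith) hη.le
    have h2 := Nat.floor_le h1
    rw [le_div_iff₀ hη] at h2
    have h3 : (N : ℝ) = (⌊(1 - γ) / η⌋₊ : ℝ) + 1 := by
      rw [hN, steps, ← hηd]; push_cast; ring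
    rw [h3]
    linarith
  have hN2 : 1 - γ < N * η := by
    have h2 := Nat.lt_floor_add_one ((1 - γ) / η)
    rw [div_lt_iff₀ hη] at h2
    have h3 : (N : ℝ) = (⌊(1 - γ) / η⌋₊ : ℝ) + 1 := by
      rw [hN, steps, ← hηd]; push_cast; ring
    rw [h3]
    exact h2
  obtain ⟨M₄, hM₄, hM₄'⟩ := exists_pow_ge (3 * C + 1) (N * η - (1 - γ)) (by linarith)
  refine ⟨max M₄ (max (max n₀ M) (max M₃ 2)), fun Q hQ => ?_⟩
  by_contra hcon
  push Not at hcon
  obtain ⟨p, r, hpr, hQr, -, hS⟩ := chain N hN1 Q ((le_max_right _ _).trans hQ)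
    (fun q h1 h2 h3 => hcon q h1 h2 h3)
  have hr0 : (0 : ℝ) < r := by exact_mod_cast hpr.rec2.1
  have h1 := top_bound hC hγ hγ1 h hz hpr x
  have h2 := hM₄' r (((le_max_left _ _).trans hQ).trans hQr)
  have h3 : (r : ℝ) ^ ((N : ℝ) * η) = (r : ℝ) ^ ((N : ℝ) * η - (1 - γ)) * (r : ℝ) ^ (1 - γ) := by
    rw [← Real.rpow_add hr0]
    congr 1
    ring
  have h4 : 0 < (r : ℝ) ^ (1 - γ) := by positivity
  have h5 : (3 * C + 1) * (r : ℝ) ^ (1 - γ) ≤ (r : ℝ) ^ ((N : ℝ) * η) := by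
    rw [h3]
    exact mul_le_mul_of_nonneg_right h2 h4.le
  linarith [h5.trans (hS.trans h1)]

end Pool.Agent.Lib.MP_f73729_an
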